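import Pool.Agent.H293.EXN.Gen
import Pool.Agent.H289.NF.RAYD
import Pool.Graph.R_pool_sql_team_seeded_3997aac3.Q253.NF.Stm3
import Pool.Graph.R_pool_sql_team_seeded_3997aac3.Q151.NF.Ded
import Pool.Graph.R_pool_sql_team_seeded_3997aac3.Q151.NF.Ordl

set_option autoImplicit false

/-!
# Project EX for number fields: the Dedekind zeta function
-/

namespace Pool.Agent.H293.EXN

open MeasureTheory Filter Topology Set Complex NumberField IsDedekindDomain
open Pool.Agent.Q253.NF (Dat IsDed xiF ks)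
open Pool.Agent.Q92.AR (Continues)
open Pool.Agent.H293.EX
open Pool.Agent.Y772.NZ (one one_ne one_norm)

theorem ded (E : Type) [Field E] [NumberField E] : ∃ D : Dat, IsDed E D := by
  obtain ⟨D, h1, h2, h3, h4, h5, h6, h7⟩ := Pool.Agent.Q151.NF.t_DED Pool.Agent.Q151.NF.t_LTG
    Pool.Agent.H289.NF.rayd Pool.Agent.Q151.NF.t_ORDL E
  exact ⟨D, h1, h2, h3, h4, h5, h6, h7⟩

section
variable (E : Type) [Field E] [NumberField E]

/-- the coefficients -/
noncomputable def bE (x : HeightOneSpectrum (𝓞 E) × ℕ) : ℝ :=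
  Real.log (Ideal.absNorm x.1.asIdeal) *
    Real.exp (-(((x.2 : ℝ) + 1) * Real.log (Ideal.absNorm x.1.asIdeal) / 2))

/-- the exponents -/
noncomputable def lE (x : HeightOneSpectrum (𝓞 E) × ℕ) : ℝ :=
  ((x.2 : ℝ) + 1) * Real.log (Ideal.absNorm x.1.asIdeal)

variable {E}

lemma two_le_norm (v : HeightOneSpectrum (𝓞 E)) : 2 ≤ Ideal.absNorm v.asIdeal := by
  have h0 : Ideal.absNorm v.asIdeal ≠ 0 := fun h => v.ne_bot (Ideal.absNorm_eq_zero_iff.1 h)
  have h1 : Ideal.absNorm v.asIdeal ≠ 1 := fun h => v.isPrime.ne_top (Ideal.absNorm_eq_one_iff.1 h)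
  omega

lemma log_norm_pos (v : HeightOneSpectrum (𝓞 E)) : 0 < Real.log (Ideal.absNorm v.asIdeal) := by
  apply Real.log_pos
  have := two_le_norm v
  have h2 : (2 : ℝ) ≤ (Ideal.absNorm v.asIdeal : ℝ) := by exact_mod_cast this
  linarith

lemma bE_pos (x : HeightOneSpectrum (𝓞 E) × ℕ) : 0 < bE E x := mul_pos (log_norm_pos x.1) (Real.exp_pos _)

lemma lE_nonneg (x : HeightOneSpectrum (𝓞 E) × ℕ) : 0 ≤ lE E x := mul_nonneg (by positivity) (log_norm_pos x.1).le

theorem hgE : HG (bE E) (lE E) := by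
  refine ⟨fun x => (bE_pos x).le, lE_nonneg, fun x hx => ?_⟩
  refine (Pool.Agent.H289.NF.summ (K := E) (ψ := one E) (fun 𝔞 => one_norm E 𝔞) hx).congr fun k => ?_
  have h1 : one E k.1.asIdeal = 1 := one_ne E k.1.ne_bot
  unfold Pool.Agent.H289.NF.bk
  rw [h1, one_pow, one_mul, Complex.norm_real]
  have h2 : ‖Real.log (Ideal.absNorm k.1.asIdeal) *
      Real.exp (-(((k.2 : ℝ) + 1) * Real.log (Ideal.absNorm k.1.asIdeal) / 2))‖ = bE E k :=
    Real.norm_of_nonneg (bE_pos k).le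
  rw [h2]
  rfl

theorem countable_idx : Countable (HeightOneSpectrum (𝓞 E) × ℕ) := by
  have h1 := (hgE (E := E)).2.2 1 (by norm_num)
  have h2 := h1.countable_support
  have h3 : Function.support (fun k => bE E k * Real.exp (-(1 * lE E k))) = Set.univ := by
    ext k
    simp only [Function.mem_support, Set.mem_univ, iff_true]
    exact (mul_pos (bE_pos k) (Real.exp_pos _)).ne'
  rw [h3] at h2
  exact Set.countable_univ_iff.1 h2

theorem fdE {D : Dat} (hD : IsDed E D) : Fd D (bE E) (lE E) := by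
  refine ⟨hgE, hD.p, fun u => ?_, hD.m_neg⟩
  rw [hD.sum, ofReal_tsum]
  unfold ks
  refine tsum_congr fun x => ?_
  rw [if_pos (Set.mem_univ _), one_mul]
  rfl

/-- the value at the pole -/
theorem X_half {D : Dat} (hD : IsDed E D) : D.X (1 / 2) ≠ 0 := by
  obtain ⟨c, hc, hX⟩ := hD.X
  have h4 := tendsto_sub_one_mul_dedekindZeta_nhdsGT E
  have hd0 : ((|(discr E : ℝ)| : ℝ) : ℂ) ≠ 0 := by
    rw [Ne, ofReal_eq_zero, abs_eq_zero]
    exact_mod_cast discr_ne_zero E
  set G : ℂ → ℂ := fun s => c * s * ((|(discr E : ℝ)| : ℝ) : ℂ) ^ (s / 2) *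
    Gammaℝ s ^ InfinitePlace.nrRealPlaces E * Gammaℂ s ^ InfinitePlace.nrComplexPlaces E with hG
  have hGR : ∀ s : ℂ, 0 < s.re → ContinuousAt Gammaℝ s := fun s hs =>
    (Pool.Agent.Q195.CP.diffAt_GammaR hs).continuousAt
  have hGC : ContinuousAt Gammaℂ 1 := by
    have e : Gammaℂ = fun s => Gammaℝ s * Gammaℝ (s + 1) := by
      funext s
      rw [Gammaℝ_mul_Gammaℝ_add_one]
    rw [e]
    have h2 : ContinuousAt (fun s : ℂ => Gammaℝ (s + 1)) 1 :=
      ContinuousAt.comp (g := Gammaℝ) (f := fun s : ℂ => s + 1) (hGR (1 + 1) (by norm_num)) (by fun_prop)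
    exact (hGR 1 (by norm_num)).mul h2
  have hGc : ContinuousAt G 1 := by
    have h2 : ContinuousAt (fun s : ℂ => ((|(discr E : ℝ)| : ℝ) : ℂ) ^ (s / 2)) 1 := by
      refine ContinuousAt.const_cpow (by fun_prop) (Or.inl hd0)
    exact (((by fun_prop : ContinuousAt (fun s : ℂ => c * s) 1).mul h2).mul ((hGR 1 (by norm_num)).pow _)).mul
      (hGC.pow _)
  have hG1 : G 1 ≠ 0 := by
    have g1 : Gammaℝ 1 ≠ 0 := Gammaℝ_ne_zero_of_re_pos (by norm_num)
    have g2 : Gammaℂ 1 ≠ 0 := by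
      rw [← Gammaℝ_mul_Gammaℝ_add_one]
      exact mul_ne_zero g1 (Gammaℝ_ne_zero_of_re_pos (by norm_num))
    simp only [hG]
    refine mul_ne_zero (mul_ne_zero (mul_ne_zero (mul_ne_zero hc one_ne_zero) ?_) (pow_ne_zero _ g1)) (pow_ne_zero _ g2)
    rw [Ne, cpow_eq_zero_iff]
    exact fun h => hd0 h.1
  have hcast : Tendsto (fun s : ℝ => (s : ℂ)) (𝓝[>] 1) (𝓝 (1 : ℂ)) := by
    have h1 : Tendsto (fun s : ℝ => (s : ℂ)) (𝓝 1) (𝓝 ((1 : ℝ) : ℂ)) := continuous_ofReal.tendsto 1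
    rw [ofReal_one] at h1
    exact h1.mono_left nhdsWithin_le_nhds
  have h5 : Tendsto (fun s : ℝ => G (s : ℂ) * (((s : ℂ) - 1) * dedekindZeta E s)) (𝓝[>] 1)
      (𝓝 (G 1 * ((dedekindZeta_residue E : ℝ) : ℂ))) := (hGc.tendsto.comp hcast).mul h4
  have h6 : Tendsto (fun s : ℝ => D.X ((s : ℂ) - 1 / 2)) (𝓝[>] 1) (𝓝 (D.X (1 - 1 / 2))) :=
    (D.diff.continuous.tendsto (1 - 1 / 2)).comp (hcast.sub_const _)
  have h7 : (fun s : ℝ => D.X ((s : ℂ) - 1 / 2)) =ᶠ[𝓝[>] 1]
      fun s : ℝ => G (s : ℂ) * (((s : ℂ) - 1) * dedekindZeta E s) := by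
    filter_upwards [self_mem_nhdsWithin] with s hs
    have hs' : 1 < s := hs
    rw [hX _ (by rw [sub_re, ofReal_re]; norm_num; linarith)]
    have e : 1 / 2 + ((s : ℂ) - 1 / 2) = s := by ring
    rw [e]
    unfold xiF
    simp only [hG]
    ring
  have h8 := tendsto_nhds_unique (h6.congr' h7) h5
  have e : (1 : ℂ) - 1 / 2 = 1 / 2 := by norm_num
  rw [e] at h8
  rw [h8]
  refine mul_ne_zero hG1 ?_
  exact_mod_cast dedekindZeta_residue_ne_zero E

lemma m_half {D : Dat} (hD : IsDed E D) : D.m (1 / 2) = 0 := by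
  have h2 := (D.diff.analyticAt (1 / 2)).analyticOrderAt_eq_zero.2 (X_half hD)
  unfold Dat.m analyticOrderNatAt
  rw [h2]
  rfl

/-- the Riemann hypothesis in terms of a continuation -/
theorem hy_iff {D : Dat} (hD : IsDed E D) {Z : ℂ → ℂ} (hZ : Continues Z (dedekindZeta E)) :
    Hy D ↔ ∀ s : ℂ, 1 / 2 < s.re → ¬ 0 < meromorphicOrderAt Z s := by
  constructor
  · intro h s hs h0
    rw [hD.ord Z hZ s (by linarith), h (s - 1 / 2) (by
      rw [sub_re]
      norm_num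
      linarith)] at h0
    have h1 : (0 : ℤ) < ((0 : ℕ) : ℤ) - (if s = 1 then 1 else 0) := by exact_mod_cast h0
    split_ifs at h1 <;> omega
  · intro h
    have hpos : ∀ a : ℂ, 0 < a.re → D.m a = 0 := by
      intro a ha
      by_cases h1 : a = 1 / 2
      · rw [h1, m_half hD]
      · have hre : 1 / 2 < (a + 1 / 2).re := by
          rw [add_re]
          norm_num
          linarith
        have h2 := h (a + 1 / 2) hre
        have h3 : a + 1 / 2 ≠ 1 := by
          intro h4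
          apply h1
          linear_combination h4
        rw [hD.ord Z hZ _ (by linarith), if_neg h3, add_sub_cancel_right] at h2
        have h4 : ¬ (0 : ℤ) < (D.m a : ℤ) - 0 := by
          intro h5
          exact h2 (by exact_mod_cast h5)
        omega
    intro a ha
    rcases lt_or_gt_of_ne ha with h1 | h1
    · rw [← hD.m_neg]
      exact hpos (-a) (by rw [neg_re]; linarith)
    · exact hpos a h1

lemma ord_line {D : Dat} (hD : IsDed E D) {Z : ℂ → ℂ} (hZ : Continues Z (dedekindZeta E)) (γ : ℝ) :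
    meromorphicOrderAt Z (1 / 2 + (γ : ℂ) * I) = ((D.m (γ * I) : ℤ) : WithTop ℤ) := by
  have h1 : (1 / 2 + (γ : ℂ) * I) ≠ 1 := by
    intro h
    have h2 := congrArg Complex.re h
    simp at h2
  rw [hD.ord Z hZ _ (by simp), if_neg h1, sub_zero]
  congr 3
  ring

lemma OD_eq {D : Dat} (hD : IsDed E D) {Z : ℂ → ℂ} (hZ : Continues Z (dedekindZeta E)) :
    {γ : ℝ | 0 < γ ∧ 0 < meromorphicOrderAt Z (1 / 2 + (γ : ℂ) * I)} = OD D := by
  ext γ
  unfold OD mg
  simp only [Set.mem_ofPred_eq]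
  rw [ord_line hD hZ]
  refine and_congr Iff.rfl ?_
  rw [Nat.cast_ne_zero]
  constructor
  · intro h
    have h1 : (0 : ℤ) < (D.m (γ * I) : ℤ) := by exact_mod_cast h
    omega
  · intro h
    have h1 : (0 : ℤ) < (D.m (γ * I) : ℤ) := by omega
    exact_mod_cast h1

/-- the constant -/
theorem WD_eq {D : Dat} (hD : IsDed E D) {a : ℝ} (ha : 1 / 2 < a) :
    WD D a = (logDeriv (xiF E) (1 / 2 + (a : ℂ))).re / a := by
  obtain ⟨c, hc, hX⟩ := hD.X
  unfold WD
  congr 2
  have hopen : {z : ℂ | 1 / 2 < z.re} ∈ 𝓝 (a : ℂ) :=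
    (isOpen_lt continuous_const Complex.continuous_re).mem_nhds (by
      show 1 / 2 < ((a : ℂ)).re
      rw [ofReal_re]
      exact ha)
  have h1 : D.X =ᶠ[𝓝 (a : ℂ)] fun z => c * xiF E (1 / 2 + z) := by
    filter_upwards [hopen] with z hz
    exact hX z hz
  rw [logDeriv_apply, logDeriv_apply, h1.deriv_eq, h1.eq_of_nhds]
  have h2 : deriv (fun z => c * xiF E (1 / 2 + z)) (a : ℂ) = c * deriv (xiF E) (1 / 2 + a) := by
    rw [deriv_const_mul_field]
    congr 1
    exact deriv_comp_const_add (f := xiF E) (1 / 2) (a : ℂ)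
  rw [h2, mul_div_mul_left _ _ hc]

end

end Pool.Agent.H293.EXN
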