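import Pool.Agent.H112.NF.Fld
import Pool.Agent.H293.EXN.Fld

set_option autoImplicit false
set_option linter.unusedSectionVars false

/-!
# Project EX for Artin L-functions: the orders of the Artin L-functions and of the zeta function of the top field
-/

namespace Pool.Agent.H293.EXN

open MeasureTheory Filter Topology Set Complex NumberField IsDedekindDomain
open Pool.Agent.Q253.NF
open Pool.Agent.Q92.AR
open Pool.Agent.Q92.RT (induced induced_conj induced_pair class_expand)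
open Pool.Agent.H541R3.ART
open Pool.Agent.H112.NF (ordA exists_cont exists_cont_ind GRH Pk exists_pk one_irr coe_ordA)
open Pool.Agent.H302R2
open scoped ComplexConjugate

section
variable {K M : Type} [Field K] [NumberField K] [Field M] [NumberField M] [Algebra K M] [IsGalois K M]

/-- the continued L-function of the regular character and the zeta function of `M` -/
theorem order_top {D : Dat} (hD : IsDed M D) {s : ℂ} (hs : 0 < s.re) :
    meromorphicOrderAt (cont (artinL M (induced (⊥ : Subgroup (M ≃ₐ[K] M)) 1))) s =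
      (((D.m (s - 1 / 2) : ℤ) - (if s = 1 then 1 else 0) : ℤ) : WithTop ℤ) := by
  obtain ⟨g, hg⟩ := hD.cont
  have h1 : Continues (cont (artinL M (induced (⊥ : Subgroup (M ≃ₐ[K] M)) 1)))
      (artinL M (induced (fixer K M M) 1)) := by
    have h2 : induced (fixer K M M) 1 = induced (⊥ : Subgroup (M ≃ₐ[K] M)) 1 :=
      induced_congr fixer_self fun x hx hx' => rfl
    rw [h2]
    exact cont_spec (exists_cont_ind ⊥)
  rw [← order_zeta (K := K) (F := M) (M := M) hg h1 hs]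
  exact hD.ord g hg s hs

theorem deg_sum {D : Dat} (hD : IsDed M D) {s : ℂ} (hs : 0 < s.re) (h1 : s ≠ 1) :
    (theta (fun χ => ordA χ s) : (M ≃ₐ[K] M) → ℂ) 1 = (D.m (s - 1 / 2) : ℂ) := by
  have hr := order_top (K := K) hD hs
  rw [if_neg h1, sub_zero] at hr
  exact (ArtinData.ofExtension (continued (K := K) (M := M) hs h1)).theta_one hr

theorem heil {s : ℂ} (hs : 0 < s.re) (h1 : s ≠ 1) :
    IsHeilbronn (theta (fun χ => ordA χ s) : (M ≃ₐ[K] M) → ℂ) :=
  (ArtinData.ofExtension (continued (K := K) (M := M) hs h1)).isHeilbronn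

/-- the orders vanish if the Heilbronn character vanishes at the unit element -/
theorem zero_of_theta {n : ((M ≃ₐ[K] M) → ℂ) → ℤ} (h : IsHeilbronn (theta n : (M ≃ₐ[K] M) → ℂ))
    (h1 : (theta n : (M ≃ₐ[K] M) → ℂ) 1 = 0) {χ : (M ≃ₐ[K] M) → ℂ} (hχ : χ ∈ Irr (M ≃ₐ[K] M)) : n χ = 0 := by
  classical
  have : Fintype (M ≃ₐ[K] M) := Fintype.ofFinite _
  have h2 := theta_pair n hχ
  have h3 : ∀ g, (theta n : (M ≃ₐ[K] M) → ℂ) g = 0 := by
    intro g
    have h4 := h.norm_le g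
    rw [h1, zero_re] at h4
    exact norm_le_zero_iff.1 h4
  simp only [h3, zero_mul, Finset.sum_const_zero] at h2
  have hG : (Nat.card (M ≃ₐ[K] M) : ℂ) ≠ 0 := by exact_mod_cast Nat.card_pos.ne'
  have h5 := (mul_eq_zero.1 h2.symm).resolve_right hG
  exact_mod_cast h5

theorem ord_zero {D : Dat} (hD : IsDed M D) {s : ℂ} (hs : 0 < s.re) (h1 : s ≠ 1) (h0 : D.m (s - 1 / 2) = 0)
    {χ : (M ≃ₐ[K] M) → ℂ} (hχ : χ ∈ Irr (M ≃ₐ[K] M)) : ordA χ s = 0 := by
  refine zero_of_theta (heil hs h1) ?_ hχ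
  rw [deg_sum hD hs h1, h0]
  simp

end

section
variable {K F M : Type} [Field K] [NumberField K] [Field F] [NumberField F] [Field M] [NumberField M]
  [Algebra K F] [Algebra K M] [Algebra F M] [IsScalarTower K F M] [IsGalois K M] [IsGalois F M]

/-- nontrivial linear characters: no pole at `1` -/
theorem hol_one_field (ψ : fixer K F M →* ℂˣ) (hne : ψ ≠ 1) :
    ∃ f : ℂ → ℂ, Continues f (artinL M (induced (fixer K F M) ψ)) ∧ AnalyticAt ℂ f 1 := by
  classical
  set ψ' : (M ≃ₐ[F] M) →* ℂˣ := ψ.comp (resF K F M) with hψ'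
  obtain ⟨N, hN, -, hray⟩ := recip F M ψ'
  obtain ⟨f, hf1, hf2, hf3, -, hf5⟩ := hecke F N (art ψ') hN hray
  have hχ : ∀ w : HeightOneSpectrum (𝓞 F), ‖((ψ' (frob M w) : ℂˣ) : ℂ)‖ ≤ 1 :=
    fun w => (Pool.Agent.Q92.AR.norm_char ψ' _).le
  have he : ∀ w : HeightOneSpectrum (𝓞 F),
      (((art ψ' (Finsupp.single w 1)).toMul : ℂˣ) : ℂ) = ((ψ' (frob M w) : ℂˣ) : ℂ) := by
    intro w
    rw [art_single, one_smul]
    rfl
  have h1 : ({w : HeightOneSpectrum (𝓞 F) | Unramified M (w.under (𝓞 K))} \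
      {v : HeightOneSpectrum (𝓞 F) | (N : 𝓞 F) ∉ v.asIdeal}).Finite := by
    refine (mem_finite (F := F) hN).subset ?_
    rintro w ⟨-, hw⟩
    exact not_not.1 hw
  have h2 : ({v : HeightOneSpectrum (𝓞 F) | (N : 𝓞 F) ∉ v.asIdeal} \
      {w : HeightOneSpectrum (𝓞 F) | Unramified M (w.under (𝓞 K))}).Finite := by
    refine (ramified_above_finite (K := K) (F := F) (M := M)).subset ?_
    rintro w ⟨-, hw⟩
    exact hw
  obtain ⟨E, hE1, hE2, hE3⟩ := LP_compare (χ := fun w => ((ψ' (frob M w) : ℂˣ) : ℂ))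
    (χ' := fun w => (((art ψ' (Finsupp.single w 1)).toMul : ℂˣ) : ℂ)) h1 h2 hχ
    (fun w => by rw [he]; exact hχ w) (fun w _ => (he w).symm)
  -- a prime where the character is not trivial
  have hex : ∃ g : M ≃ₐ[F] M, ψ' g ≠ 1 := by
    by_contra hn
    push Not at hn
    apply hne
    refine MonoidHom.ext fun x => ?_
    obtain ⟨x, hx⟩ := x
    rw [mem_fixer] at hx
    let g : M ≃ₐ[F] M := AlgEquiv.ofRingEquiv (f := x.toRingEquiv) hx
    have h3 : resF K F M g = ⟨x, hx⟩ := by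
      apply Subtype.ext
      ext y
      rfl
    have h4 := hn g
    rw [hψ', MonoidHom.comp_apply, h3] at h4
    rw [h4, MonoidHom.one_apply]
  obtain ⟨g, hg⟩ := hex
  obtain ⟨v, hv1, hv2, hv3⟩ := Pool.Agent.Q14.AR.cheb F M g _ (mem_finite (F := F) hN)
  have h3 : ∃ D ∈ Pr F N, art ψ' D ≠ 0 := by
    refine ⟨Finsupp.single v 1, ?_, ?_⟩
    · rw [mem_Pr]
      intro w hw
      rw [Finsupp.single_apply, if_neg]
      rintro rfl
      exact hv1 hw
    · intro h0
      have h4 := he v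
      rw [h0] at h4
      obtain ⟨z, hz⟩ := isFrobenius_conj hv2 hv3 (frob_spec v)
      have h5 : ψ' (frob M v) = ψ' g := by
        rw [hz]
        simp [mul_comm]
      rw [h5] at h4
      apply hg
      apply Units.ext
      rw [← h4]
      rfl
  refine ⟨fun s => E s * f s, ⟨fun s hs => (hE1 s hs).fun_mul (hf1 s hs), fun s hs => ?_⟩,
    (hE3 1 (by simp)).1.fun_mul (hf5 h3)⟩
  change E s * f s = _
  rw [artinL_induced ψ ψ' (fun y hy => rfl) hs, hE2 s hs, hf2 s hs, Lc_eq]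

end

section
variable {K M : Type} [Field K] [NumberField K] [Field M] [NumberField M] [Algebra K M] [IsGalois K M]

theorem hol_one (H : Subgroup (M ≃ₐ[K] M)) (ψ : H →* ℂˣ) (hne : ψ ≠ 1) :
    0 ≤ meromorphicOrderAt (cont (artinL M (induced H ψ))) 1 := by
  have h := fixer_fixedField (K := K) (M := M) H
  have hgal : IsGalois (IntermediateField.fixedField H) M := inferInstance
  let ψ1 : fixer K (IntermediateField.fixedField H) M →* ℂˣ :=
    ψ.comp (Subgroup.inclusion (le_of_eq h))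
  have h2 : induced (fixer K (IntermediateField.fixedField H) M) ψ1 = induced H ψ :=
    induced_congr h fun x hx hx' => rfl
  have h3 : ψ1 ≠ 1 := by
    intro h4
    apply hne
    refine MonoidHom.ext fun x => ?_
    have h5 := DFunLike.congr_fun h4 ⟨x.1, by rw [h]; exact x.2⟩
    exact h5
  obtain ⟨f, hf, hf2⟩ := hol_one_field ψ1 h3
  rw [h2] at hf
  rw [(cont_spec ⟨f, hf⟩).order_eq hf (fun _ _ => rfl) 1]
  exact hf2.meromorphicOrderAt_nonneg

open Classical in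
/-- the orders at `1`, corrected by the pole of the zeta function -/
noncomputable def n1 (χ : (M ≃ₐ[K] M) → ℂ) : ℤ := ordA χ 1 + if ∀ g, χ g = 1 then 1 else 0

theorem n1_zero {χ : (M ≃ₐ[K] M) → ℂ} (hχ : χ ∈ Irr (M ≃ₐ[K] M)) : n1 χ = 0 := by
  classical
  have : Fintype (M ≃ₐ[K] M) := Fintype.ofFinite _
  -- the sums with the multiplicities
  have key : ∀ (H : Subgroup (M ≃ₐ[K] M)) (ψ : H →* ℂˣ) (m : ((M ≃ₐ[K] M) → ℂ) → ℕ),
      (∀ χ ∈ Irr (M ≃ₐ[K] M), ∑ᶠ h : H, χ h * (((ψ h)⁻¹ : ℂˣ) : ℂ) = (m χ : ℂ) * (Nat.card H : ℂ)) →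
      meromorphicOrderAt (cont (artinL M (induced H ψ))) 1 =
        ((∑ χ ∈ irrF (M ≃ₐ[K] M), (m χ : ℤ) * ordA χ 1 : ℤ) : WithTop ℤ) := by
    intro H ψ m hm
    have h1 := (cont_spec (exists_continues (fun _ hχ => exists_cont hχ) H ψ)).eventuallyEq
      (continues_prod (fun _ hχ => exists_cont hχ) H ψ hm) (fun _ _ => rfl) 1
    rw [meromorphicOrderAt_congr h1]
    have h2 : (fun s => ∏ χ ∈ irrF (M ≃ₐ[K] M), cont (artinL M χ) s ^ m χ) =
        fun s => ∏ χ ∈ irrF (M ≃ₐ[K] M), (cont (artinL M χ) ^ m χ) s := rfl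
    rw [h2, meromorphicOrderAt_fun_prod (fun χ hχ => ((cont_spec (exists_cont (mem_irrF.mp hχ))).1 1
      (Set.mem_univ _)).pow _)]
    rw [WithTop.coe_sum]
    refine Finset.sum_congr rfl fun χ hχ => ?_
    rw [meromorphicOrderAt_pow ((cont_spec (exists_cont (mem_irrF.mp hχ))).1 1 (Set.mem_univ _)),
      coe_ordA (mem_irrF.mp hχ)]
    push_cast
    rfl
  have htriv : (fun _ => 1 : (M ≃ₐ[K] M) → ℂ) ∈ irrF (M ≃ₐ[K] M) := mem_irrF.2 one_irr
  have hsum : ∀ m : ((M ≃ₐ[K] M) → ℂ) → ℕ, ∑ χ ∈ irrF (M ≃ₐ[K] M), (m χ : ℤ) * n1 χ =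
      ∑ χ ∈ irrF (M ≃ₐ[K] M), (m χ : ℤ) * ordA χ 1 + m fun _ => 1 := by
    intro m
    unfold n1
    simp only [mul_add, Finset.sum_add_distrib]
    congr 1
    rw [Finset.sum_eq_single_of_mem _ htriv]
    · rw [if_pos (fun _ => rfl), mul_one]
    · intro χ _ hne
      rw [if_neg, mul_zero]
      exact fun h => hne (funext h)
  have hm1 : ∀ (H : Subgroup (M ≃ₐ[K] M)) (m : ((M ≃ₐ[K] M) → ℂ) → ℕ),
      (∀ χ ∈ Irr (M ≃ₐ[K] M), ∑ᶠ h : H, χ h * ((((1 : H →* ℂˣ) h)⁻¹ : ℂˣ) : ℂ) = (m χ : ℂ) * (Nat.card H : ℂ)) →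
      m (fun _ => 1) = 1 := by
    intro H m hm
    have h2 := hm _ one_irr
    have h3 : (Nat.card H : ℂ) ≠ 0 := by exact_mod_cast Nat.card_pos.ne'
    have h4 : ∑ᶠ h : H, (1 : ℂ) * ((((1 : H →* ℂˣ) h)⁻¹ : ℂˣ) : ℂ) = Nat.card H := by
      have : Fintype H := Fintype.ofFinite H
      rw [finsum_eq_sum_of_fintype]
      simp
    rw [h4] at h2
    have h5 : ((m fun _ => 1 : ℕ) : ℂ) = 1 := by
      have h6 : (((m fun _ => 1 : ℕ) : ℂ) - 1) * (Nat.card H : ℂ) = 0 := by linear_combination -h2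
      rcases mul_eq_zero.1 h6 with h | h
      · linear_combination h
      · exact absurd h h3
    exact_mod_cast h5
  have hH : IsHeilbronn (theta n1 : (M ≃ₐ[K] M) → ℂ) := by
    refine theta_isHeilbronn _ fun H ψ m hm => ?_
    rw [hsum]
    by_cases hψ : ψ = 1
    · subst hψ
      obtain ⟨D, hD⟩ := Pool.Agent.H293.EXN.ded (IntermediateField.fixedField H)
      have h1 := Pool.Agent.H112.NF.ord_ind H hD (s := 1) (by simp)
      rw [key H 1 m hm, if_pos rfl] at h1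
      have h2 : D.m (1 - 1 / 2) = 0 := by
        rw [show (1 : ℂ) - 1 / 2 = 1 / 2 by norm_num]
        exact m_half hD
      rw [h2] at h1
      have h3 : (∑ χ ∈ irrF (M ≃ₐ[K] M), (m χ : ℤ) * ordA χ 1 : ℤ) = ((0 : ℕ) : ℤ) - 1 := by exact_mod_cast h1
      rw [h3]
      have := hm1 H m hm
      omega
    · have h1 := hol_one H ψ hψ
      rw [key H ψ m hm] at h1
      have h2 : (0 : ℤ) ≤ ∑ χ ∈ irrF (M ≃ₐ[K] M), (m χ : ℤ) * ordA χ 1 := by exact_mod_cast h1
      omega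
  refine zero_of_theta hH ?_ hχ
  choose! m hm using fun χ (hχ : χ ∈ Irr (M ≃ₐ[K] M)) => exists_mult hχ (⊥ : Subgroup (M ≃ₐ[K] M)) 1
  obtain ⟨D, hD⟩ := Pool.Agent.H293.EXN.ded M
  have h1 := order_top (K := K) hD (s := 1) (by simp)
  rw [key ⊥ 1 m hm, if_pos rfl] at h1
  have h2 : D.m (1 - 1 / 2) = 0 := by
    rw [show (1 : ℂ) - 1 / 2 = 1 / 2 by norm_num]
    exact m_half hD
  rw [h2] at h1
  have h3 : (∑ χ ∈ irrF (M ≃ₐ[K] M), (m χ : ℤ) * ordA χ 1 : ℤ) = ((0 : ℕ) : ℤ) - 1 := by exact_mod_cast h1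
  have h4 := theta_mult n1 ⊥ 1 m hm
  rw [hsum, h3, hm1 ⊥ m hm] at h4
  have : Fintype (⊥ : Subgroup (M ≃ₐ[K] M)) := Fintype.ofFinite _
  rw [finsum_eq_sum_of_fintype, Fintype.sum_eq_single (1 : (⊥ : Subgroup (M ≃ₐ[K] M)))] at h4
  · simpa using h4
  · intro x hx
    exact absurd (Subsingleton.elim x 1) hx

/-- **The Riemann hypothesis for `ζ_M` gives the one for all Artin L-functions.** -/
theorem grh_of_hy {D : Dat} (hD : IsDed M D) (h : Hy D) {χ : (M ≃ₐ[K] M) → ℂ} (hχ : χ ∈ Irr (M ≃ₐ[K] M)) : GRH χ := by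
  classical
  intro s hs
  by_cases h1 : s = 1
  · subst h1
    have h2 := n1_zero hχ
    unfold n1 at h2
    by_cases h3 : ∀ g, χ g = 1
    · rw [if_pos h3] at h2
      rw [if_pos ⟨rfl, h3⟩]
      omega
    · rw [if_neg h3] at h2
      rw [if_neg (fun h => h3 h.2)]
      omega
  · rw [if_neg (fun h => h1 h.1)]
    refine ord_zero hD (by linarith) h1 (h _ ?_) hχ
    rw [sub_re]
    norm_num
    linarith

/-- reflection of meromorphic functions -/
lemma order_reflect {f : ℂ → ℂ} {s₀ : ℂ} (hf : MeromorphicAt f (conj s₀))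
    (h : meromorphicOrderAt f (conj s₀) ≠ ⊤) :
    meromorphicOrderAt (fun s => conj (f (conj s))) s₀ = meromorphicOrderAt f (conj s₀) := by
  obtain ⟨n, hn⟩ := WithTop.ne_top_iff_exists.mp h
  rw [← hn]
  obtain ⟨g, hg, hg0, hfg⟩ := (meromorphicOrderAt_eq_int_iff hf).mp hn.symm
  have hcont : Tendsto (fun s : ℂ => conj s) (𝓝 s₀) (𝓝 (conj s₀)) := Complex.continuous_conj.tendsto s₀
  have hg' : AnalyticAt ℂ (fun s => conj (g (conj s))) s₀ := analyticAt_conj hg
  have hcont' : Tendsto (fun s : ℂ => conj s) (𝓝[≠] s₀) (𝓝[≠] (conj s₀)) := by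
    rw [tendsto_nhdsWithin_iff]
    refine ⟨hcont.mono_left nhdsWithin_le_nhds, ?_⟩
    filter_upwards [self_mem_nhdsWithin] with s h1
    intro h2
    apply h1
    have h3 := congrArg conj (show conj s = conj s₀ from h2)
    rw [Complex.conj_conj, Complex.conj_conj] at h3
    exact h3
  have hfg' : ∀ᶠ z in 𝓝[≠] s₀, conj (f (conj z)) = (z - s₀) ^ n • conj (g (conj z)) := by
    filter_upwards [hcont'.eventually hfg] with z h1
    rw [h1, smul_eq_mul, smul_eq_mul, map_mul, map_zpow₀, map_sub, Complex.conj_conj, Complex.conj_conj]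
  exact (meromorphicOrderAt_eq_int_iff (meromorphicAt_conj hf)).mpr
    ⟨_, hg', by rw [Ne, map_eq_zero]; exact hg0, hfg'⟩

/-- complex conjugation -/
theorem ordA_conj {χ : (M ≃ₐ[K] M) → ℂ} (hχ : χ ∈ Irr (M ≃ₐ[K] M)) (s : ℂ) :
    ordA (fun g => conj (χ g)) s = ordA χ (conj s) := by
  have h1 := (cont_spec (exists_cont hχ)).conj
  have h2 := (cont_spec ⟨_, h1⟩).order_eq h1 (fun _ _ => rfl) s
  unfold ordA
  rw [h2, order_reflect ((cont_spec (exists_cont hχ)).1 _ (Set.mem_univ _))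
    ((cont_spec (exists_cont hχ)).order_ne_top (fun s _ => artinL_ne_zero χ s) _)]

end

end Pool.Agent.H293.EXN
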