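import Pool.Agent.H293.EXN.SgnC
import Pool.Agent.H293.EXN.Hlb
import Pool.Agent.H293.EXN.ASC
import Pool.Agent.H115.EX_CVC

set_option autoImplicit false

/-!
# Project EX for Artin L-functions: the sum of one character
-/

namespace Pool.Agent.H293.EXN

open MeasureTheory Filter Topology Set Complex NumberField IsDedekindDomain
open Pool.Agent.Q253.NF (Dat IsDed ks)
open Pool.Agent.Q92.AR (Unramified frob)
open Pool.Agent.H541R3.ART (Irr irrF mem_irrF)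
open Pool.Agent.H112.NF
open Pool.Agent.H293.EX
open scoped ComplexConjugate

lemma tCVC : S_CVC := Pool.Agent.H115.EXCVC.t_CVC Pool.Agent.H807.EX.t_KE Pool.Agent.H807.EX.t_KI

lemma tASC : S_ASC := t_ASC Pool.Agent.H807.EX.t_KE

/-- the main term -/
theorem main_term {a : ℝ} (ha : 0 < a) (u : ℝ) :
    IntegrableOn (fun w : ℝ => kap a w * (8 / 3 * Real.exp ((u - w) / 2))) (Ioi 0) ∧
    Real.exp (u / 2) / (a + 1 / 2) ^ 2 =
      -(1 / 2) * (8 / 3 * Real.exp (u / 2)) + ∫ w in Ioi (0 : ℝ), kap a w * (8 / 3 * Real.exp ((u - w) / 2)) := by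
  have hg : HG (fun _ : PUnit.{1} => (0 : ℝ)) (fun _ => 0) :=
    ⟨fun _ => le_rfl, fun _ => le_rfl, fun x _ => by simp only [zero_mul]; exact summable_zero⟩
  obtain ⟨h1, h2⟩ := tCVG PUnit _ _ hg a ha u
  have e1 : ∀ v : ℝ, PG (fun _ : PUnit.{1} => (0 : ℝ)) (fun _ => 0) v = -(8 / 3 * Real.exp (v / 2)) := by
    intro v
    unfold PG
    simp
  have e2 : FG (fun _ : PUnit.{1} => (0 : ℝ)) (fun _ => 0) a u = -(Real.exp (u / 2) / (a + 1 / 2) ^ 2) := by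
    unfold FG
    simp
  simp only [e1, e2, mul_neg] at h1 h2
  rw [integral_neg] at h2
  refine ⟨by simpa using h1.neg, by linarith⟩

section
variable {K M : Type} [Field K] [NumberField K] [Field M] [NumberField M] [Algebra K M] [IsGalois K M]

open Classical in
/-- the coefficients -/
noncomputable def bA (χ : (M ≃ₐ[K] M) → ℂ) (x : HeightOneSpectrum (𝓞 K) × ℕ) : ℂ :=
  if Unramified M x.1 then χ (frob M x.1 ^ (x.2 + 1)) * (bE K x : ℂ) else 0

open Classical in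
/-- the sum of one character -/
noncomputable def FA (χ : (M ≃ₐ[K] M) → ℂ) (a u : ℝ) : ℂ :=
  (∑' x, bA χ x * ((max (u - lE K x) 0 * Real.exp (-(a * (u - lE K x))) : ℝ) : ℂ)) -
    if ∀ g, χ g = 1 then ((Real.exp (u / 2) / (a + 1 / 2) ^ 2 : ℝ) : ℂ) else 0

theorem bA_bd (χ : (M ≃ₐ[K] M) → ℂ) : ∃ C : ℝ, 0 ≤ C ∧ ∀ x, ‖bA χ x‖ ≤ C * bE K x := by
  obtain ⟨C, hC0, hC⟩ := Pool.Agent.Q92.AR.exists_bound χ
  refine ⟨C, hC0, fun x => ?_⟩
  unfold bA
  split_ifs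
  · rw [norm_mul, Complex.norm_real, Real.norm_of_nonneg (bE_pos x).le]
    exact mul_le_mul_of_nonneg_right (hC _) (bE_pos x).le
  · rw [norm_zero]
    exact mul_nonneg hC0 (bE_pos x).le

theorem bA_sum (χ : (M ≃ₐ[K] M) → ℂ) {x : ℝ} (hx : 1 / 2 < x) :
    Summable fun k => ‖bA χ k‖ * Real.exp (-(x * lE K k)) := by
  obtain ⟨C, hC0, hC⟩ := bA_bd χ
  refine Summable.of_nonneg_of_le (fun k => mul_nonneg (norm_nonneg _) (Real.exp_pos _).le) (fun k => ?_)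
    (((hgE (E := K)).2.2 x hx).mul_left C)
  rw [← mul_assoc]
  exact mul_le_mul_of_nonneg_right (hC k) (Real.exp_pos _).le

theorem ks_bA (χ : (M ≃ₐ[K] M) → ℂ) (u : ℝ) :
    ks {v : HeightOneSpectrum (𝓞 K) | Unramified M v} (fun v n => χ (frob M v ^ (n + 1))) u =
      ∑' k, bA χ k * ((Real.exp (-|u - lE K k|) : ℝ) : ℂ) := by
  classical
  unfold ks
  refine tsum_congr fun x => ?_
  unfold bA bE lE
  by_cases h : Unramified M x.1
  · rw [if_pos (show x.1 ∈ {v : HeightOneSpectrum (𝓞 K) | Unramified M v} from h), if_pos h]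
    push_cast
    ring
  · rw [if_neg (show ¬ x.1 ∈ {v : HeightOneSpectrum (𝓞 K) | Unramified M v} from h), if_neg h, zero_mul]

theorem FA_eq (χ : (M ≃ₐ[K] M) → ℂ) {a : ℝ} (ha : 0 < a) (u : ℝ) :
    FA χ a u = -(1 / 2) * SS χ u + ∫ w in Ioi (0 : ℝ), (kap a w : ℂ) * SS χ (u - w) := by
  classical
  haveI : Countable (HeightOneSpectrum (𝓞 K) × ℕ) := countable_idx (E := K)
  obtain ⟨h1, h2⟩ := tCVC _ (bA χ) (lE K) lE_nonneg (fun x hx => bA_sum χ hx) a ha u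
  obtain ⟨h3, h4⟩ := main_term ha u
  unfold FA SS
  simp only [ks_bA]
  rw [h2]
  by_cases h : ∀ g, χ g = 1
  · simp only [if_pos h]
    have e1 : (fun w : ℝ => (kap a w : ℂ) * ((∑' k, bA χ k * ((Real.exp (-|u - w - lE K k|) : ℝ) : ℂ)) -
        ((8 / 3 * Real.exp ((u - w) / 2) : ℝ) : ℂ))) = fun w : ℝ =>
        ((kap a w : ℂ) * ∑' k, bA χ k * ((Real.exp (-|u - w - lE K k|) : ℝ) : ℂ)) -
          ((kap a w * (8 / 3 * Real.exp ((u - w) / 2)) : ℝ) : ℂ) := by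
      funext w
      push_cast
      ring
    have h3' : IntegrableOn (fun w : ℝ => ((kap a w * (8 / 3 * Real.exp ((u - w) / 2)) : ℝ) : ℂ)) (Ioi 0) := h3.ofReal
    rw [e1, integral_sub h1 h3', integral_complex_ofReal, h4]
    push_cast
    ring
  · simp only [if_neg h, sub_zero]

theorem SS_bdd (χ : (M ≃ₐ[K] M) → ℂ) : ∃ C : ℝ, ∀ v : ℝ, v ≤ 0 → ‖SS χ v‖ ≤ C := by
  classical
  have h1 := bA_sum χ (x := 1) (by norm_num)
  refine ⟨(∑' k, ‖bA χ k‖ * Real.exp (-(1 * lE K k))) + 8 / 3, fun v hv => ?_⟩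
  unfold SS
  rw [ks_bA]
  refine (norm_sub_le _ _).trans (add_le_add ?_ ?_)
  · refine tsum_of_norm_bounded h1.hasSum fun k => ?_
    rw [norm_mul, Complex.norm_real, Real.norm_of_nonneg (Real.exp_pos _).le]
    refine mul_le_mul_of_nonneg_left (Real.exp_le_exp.2 ?_) (norm_nonneg _)
    have h2 := lE_nonneg k
    rw [abs_of_nonpos (by linarith)]
    linarith
  · split_ifs
    · rw [Complex.norm_real, Real.norm_of_nonneg (by positivity)]
      have : Real.exp (v / 2) ≤ 1 := Real.exp_le_one_iff.2 (by linarith)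
      linarith
    · rw [norm_zero]
      norm_num

/-- the orders on the critical line -/
noncomputable def oA (χ : (M ≃ₐ[K] M) → ℂ) (γ : ℝ) : ℝ := (ordA χ (1 / 2 + γ * I) : ℝ)

theorem oA_sum {χ : (M ≃ₐ[K] M) → ℂ} (hχ : χ ∈ Irr (M ≃ₐ[K] M)) (hG : GRH χ) :
    Summable fun γ : ℝ => |oA χ γ| * (2 / (1 + γ ^ 2)) := by
  obtain ⟨P⟩ := exists_pk K M hχ
  have h1 := (art_V hχ P hG).2.1
  refine (h1.mul_left 2).congr fun γ => ?_
  unfold oA
  ring

theorem FA_near {χ : (M ≃ₐ[K] M) → ℂ} (hχ : χ ∈ Irr (M ≃ₐ[K] M)) (hG : GRH χ) {a : ℝ} (ha : 0 < a) :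
    Tendsto (fun u : ℝ => FA χ a u + ∑' γ : ℝ, (oA χ γ : ℂ) * (cexp (I * γ * u) / ((a : ℂ) + I * γ) ^ 2)) atTop
      (𝓝 0) := by
  obtain ⟨P⟩ := exists_pk K M hχ
  obtain ⟨-, -, -, -, C1, hC1⟩ := art_msq hχ P hG
  obtain ⟨C2, hC2⟩ := SS_bdd χ
  have h1 := tASC a (oA χ) (SS χ) (max C1 C2) ha (oA_sum hχ hG) (SS_cont χ)
    (fun v hv => (hC2 v hv).trans (le_max_right _ _)) (fun v hv => by
      have h2 := hC1 v hv
      have h3 : ‖SS χ v + ∑' γ : ℝ, ((oA χ γ * (2 / (1 + γ ^ 2)) : ℝ) : ℂ) * cexp (I * γ * v)‖ =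
          ‖-SS χ v - ∑' γ : ℝ, (((ordA χ (1 / 2 + γ * I) : ℝ) * (2 / (1 + γ ^ 2)) : ℝ) : ℂ) * cexp (I * γ * v)‖ := by
        rw [← norm_neg]
        congr 1
        unfold oA
        ring
      rw [h3]
      exact h2.trans (mul_le_mul_of_nonneg_right (le_max_left _ _) (Real.exp_pos _).le))
  refine h1.congr fun u => ?_
  rw [FA_eq χ ha]

end

end Pool.Agent.H293.EXN
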