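import Mathlib

set_option autoImplicit false

/-!
# Project EX for Artin L-functions: uniqueness of sums of Poisson kernels
-/

namespace Pool.Agent.H293.EXN

open Filter Topology Set Complex

lemma w_norm (z : ℂ) (γ : ℝ) : ‖z ^ 2 + (γ : ℂ) ^ 2‖ = ‖z - γ * I‖ * ‖z + γ * I‖ := by
  rw [← norm_mul]
  congr 1
  have h : (z - γ * I) * (z + γ * I) = z ^ 2 - (γ : ℂ) ^ 2 * I ^ 2 := by ring
  rw [h, I_sq]
  ring

lemma w_low1 {z : ℂ} {δ : ℝ} (hδ : 0 < δ) (hz : δ ≤ z.re) (γ : ℝ) : δ ^ 2 ≤ ‖z ^ 2 + (γ : ℂ) ^ 2‖ := by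
  rw [w_norm]
  have h1 : δ ≤ ‖z - γ * I‖ := le_trans (by simpa using hz) (Complex.re_le_norm _)
  have h2 : δ ≤ ‖z + γ * I‖ := le_trans (by simpa using hz) (Complex.re_le_norm _)
  nlinarith

lemma w_low2 (z : ℂ) (γ : ℝ) : γ ^ 2 ≤ ‖z ^ 2 + (γ : ℂ) ^ 2‖ + ‖z‖ ^ 2 := by
  have h1 : γ ^ 2 = ‖(z ^ 2 + (γ : ℂ) ^ 2) - z ^ 2‖ := by
    rw [add_sub_cancel_left, norm_pow, Complex.norm_real, Real.norm_eq_abs, sq_abs]
  rw [h1, ← norm_pow]
  exact norm_sub_le _ _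

lemma w_low3 {ε γ₀ : ℝ} (hε : 0 < ε) (hγ : 0 < γ₀) (γ : ℝ) : ε * γ₀ ≤ ‖((ε : ℂ) + γ₀ * I) ^ 2 + (γ : ℂ) ^ 2‖ := by
  rw [w_norm]
  rcases le_total 0 γ with h | h
  · have h1 : ε ≤ ‖((ε : ℂ) + γ₀ * I) - γ * I‖ := le_trans (by simp) (Complex.re_le_norm _)
    have h2 : γ₀ ≤ ‖((ε : ℂ) + γ₀ * I) + γ * I‖ := le_trans (by simpa using h) (Complex.im_le_norm _)
    exact mul_le_mul h1 h2 hγ.le (norm_nonneg _)
  · have h1 : ε ≤ ‖((ε : ℂ) + γ₀ * I) + γ * I‖ := le_trans (by simp) (Complex.re_le_norm _)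
    have h2 : γ₀ ≤ ‖((ε : ℂ) + γ₀ * I) - γ * I‖ := le_trans (by simpa using h) (Complex.im_le_norm _)
    rw [mul_comm ‖_‖]
    exact mul_le_mul h1 h2 hγ.le (norm_nonneg _)

section
variable {d : ℝ → ℝ} (hs : Summable (fun γ : ℝ => |d γ| * (2 / (1 + γ ^ 2))))

lemma bd_of {d : ℝ → ℝ} {C x : ℝ} {w c : ℂ} {γ : ℝ} (hx : x = ‖w‖) (hx0 : 0 < x) (h : ‖c‖ * (1 + γ ^ 2) ≤ C * x) :
    ‖c * ((d γ : ℂ) / w)‖ ≤ C / 2 * (|d γ| * (2 / (1 + γ ^ 2))) := by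
  rw [norm_mul, norm_div, Complex.norm_real, Real.norm_eq_abs, ← hx]
  have h1 : 0 < 1 + γ ^ 2 := by positivity
  have h2 : ‖c‖ ≤ C * x / (1 + γ ^ 2) := (le_div_iff₀ h1).2 h
  calc ‖c‖ * (|d γ| / x) ≤ (C * x / (1 + γ ^ 2)) * (|d γ| / x) :=
        mul_le_mul_of_nonneg_right h2 (div_nonneg (abs_nonneg _) hx0.le)
    _ = C / 2 * (|d γ| * (2 / (1 + γ ^ 2))) := by
        field_simp

include hs in
theorem vanish (h : ∀ a : ℝ, 1 / 2 < a → ∑' γ : ℝ, d γ / (a ^ 2 + γ ^ 2) = 0) {z₁ : ℂ} (hz₁ : 0 < z₁.re) :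
    ∑' γ : ℝ, (d γ : ℂ) / (z₁ ^ 2 + (γ : ℂ) ^ 2) = 0 := by
  set δ : ℝ := min z₁.re 1 / 2 with hδ
  have hm : 0 < min z₁.re 1 := lt_min hz₁ one_pos
  have hδ0 : 0 < δ := by positivity
  have hδ1 : δ < z₁.re := lt_of_lt_of_le (by rw [hδ]; linarith) (min_le_left z₁.re 1)
  have hδ2 : δ < 1 := lt_of_lt_of_le (by rw [hδ]; linarith) (min_le_right z₁.re 1)
  set R : ℝ := ‖z₁‖ + 2 with hR
  have hR0 : 0 ≤ ‖z₁‖ := norm_nonneg _
  set U : Set ℂ := {z | δ < z.re} ∩ Metric.ball 0 R with hU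
  have hUo : IsOpen U := (isOpen_lt continuous_const Complex.continuous_re).inter Metric.isOpen_ball
  have hUc : Convex ℝ U := (convex_halfSpace_re_gt δ).inter (convex_ball 0 R)
  have hz1U : z₁ ∈ U := ⟨hδ1, by rw [mem_ball_zero_iff]; linarith⟩
  have h1U : (1 : ℂ) ∈ U := ⟨by simpa using hδ2, by rw [mem_ball_zero_iff, norm_one]; linarith⟩
  have hne : ∀ z ∈ U, ∀ γ : ℝ, z ^ 2 + (γ : ℂ) ^ 2 ≠ 0 := by
    intro z hz γ h0
    have h1 := w_low1 hδ0 hz.1.le γ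
    rw [h0, norm_zero] at h1
    nlinarith
  set C : ℝ := 1 + (1 + R ^ 2) / δ ^ 2 with hC
  have hF : DifferentiableOn ℂ (fun z : ℂ => ∑' γ : ℝ, (d γ : ℂ) / (z ^ 2 + (γ : ℂ) ^ 2)) U := by
    refine differentiableOn_tsum_of_summable_norm (hs.mul_left (C / 2)) (fun γ z hz => ?_) hUo (fun γ z hz => ?_)
    · refine DifferentiableAt.differentiableWithinAt (DifferentiableAt.div (by fun_prop) (by fun_prop) (hne z hz γ))
    · have h1 := w_low1 hδ0 hz.1.le γ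
      have h2 := w_low2 z γ
      have h3 : ‖z‖ ≤ R := (mem_ball_zero_iff.1 hz.2).le
      have h3' : ‖z‖ ^ 2 ≤ R ^ 2 := pow_le_pow_left₀ (norm_nonneg _) h3 2
      have hδ3 : 0 < δ ^ 2 := by positivity
      have h4 : (1 + R ^ 2) ≤ (1 + R ^ 2) / δ ^ 2 * ‖z ^ 2 + (γ : ℂ) ^ 2‖ := by
        rw [div_mul_eq_mul_div, le_div_iff₀ hδ3]
        exact mul_le_mul_of_nonneg_left h1 (by positivity)
      have h5 := bd_of (d := d) (C := C) (w := z ^ 2 + (γ : ℂ) ^ 2) (c := 1) (γ := γ) rfl (lt_of_lt_of_le hδ3 h1) (by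
        rw [norm_one, one_mul, hC, add_mul, one_mul]
        linarith)
      rwa [one_mul] at h5
  have hfr : ∃ᶠ z in 𝓝[≠] (1 : ℂ), (fun z : ℂ => ∑' γ : ℝ, (d γ : ℂ) / (z ^ 2 + (γ : ℂ) ^ 2)) z = 0 := by
    have ht : Tendsto (fun t : ℝ => (t : ℂ)) (𝓝[>] (1 : ℝ)) (𝓝[≠] (1 : ℂ)) := by
      rw [tendsto_nhdsWithin_iff]
      refine ⟨?_, ?_⟩
      · have h1 : Tendsto (fun s : ℝ => (s : ℂ)) (𝓝 1) (𝓝 ((1 : ℝ) : ℂ)) := continuous_ofReal.tendsto 1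
        rw [ofReal_one] at h1
        exact h1.mono_left nhdsWithin_le_nhds
      · filter_upwards [self_mem_nhdsWithin] with t ht
        have ht' : (1 : ℝ) < t := ht
        intro h0
        have h2 : (t : ℂ) = ((1 : ℝ) : ℂ) := by simpa using h0
        have h3 : t = 1 := by exact_mod_cast h2
        linarith
    refine ht.frequently (Eventually.frequently ?_)
    filter_upwards [self_mem_nhdsWithin] with t ht
    have ht' : (1 : ℝ) < t := ht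
    have h2 := h t (by linarith)
    have h3 : ((∑' γ : ℝ, d γ / (t ^ 2 + γ ^ 2) : ℝ) : ℂ) = 0 := by rw [h2, ofReal_zero]
    rw [ofReal_tsum] at h3
    beta_reduce
    rw [← h3]
    refine tsum_congr fun γ => ?_
    push_cast
    rfl
  have h1 := (hF.analyticOnNhd hUo).eqOn_zero_of_preconnected_of_frequently_eq_zero hUc.isPreconnected h1U hfr hz1U
  exact h1

include hs in
theorem uniq (hev : ∀ γ, d (-γ) = d γ) (h : ∀ a : ℝ, 1 / 2 < a → ∑' γ : ℝ, d γ / (a ^ 2 + γ ^ 2) = 0) (γ₀ : ℝ) :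
    d γ₀ = 0 := by
  classical
  have hpos : ∀ γ₀ : ℝ, 0 < γ₀ → d γ₀ = 0 := by
    intro γ₀ hγ
    set f : ℝ → ℝ → ℂ := fun ε γ => (ε : ℂ) * ((d γ : ℂ) / (((ε : ℂ) + γ₀ * I) ^ 2 + (γ : ℂ) ^ 2)) with hf
    set g : ℝ → ℂ := fun γ => if γ = γ₀ then (d γ₀ : ℂ) / (2 * γ₀ * I) else if γ = -γ₀ then (d γ₀ : ℂ) / (2 * γ₀ * I)
      else 0 with hg
    have hI : (2 * (γ₀ : ℂ) * I) ≠ 0 := by
      have : (γ₀ : ℂ) ≠ 0 := by exact_mod_cast hγ.ne'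
      simp [this]
    have hI2 : I ^ 2 = -1 := I_sq
    have hid : Tendsto (fun ε : ℝ => (ε : ℂ)) (𝓝[>] 0) (𝓝 0) := by
      have h1 : Tendsto (fun s : ℝ => (s : ℂ)) (𝓝 0) (𝓝 ((0 : ℝ) : ℂ)) := continuous_ofReal.tendsto 0
      rw [ofReal_zero] at h1
      exact h1.mono_left nhdsWithin_le_nhds
    have hlim1 : Tendsto (fun ε : ℝ => (d γ₀ : ℂ) / ((ε : ℂ) + 2 * γ₀ * I)) (𝓝[>] 0) (𝓝 ((d γ₀ : ℂ) / (2 * γ₀ * I))) := by
      have h1 : Tendsto (fun ε : ℝ => (ε : ℂ) + 2 * γ₀ * I) (𝓝[>] 0) (𝓝 (0 + 2 * γ₀ * I)) := hid.add_const _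
      rw [zero_add] at h1
      exact Tendsto.div tendsto_const_nhds h1 hI
    have hcase : ∀ γ : ℝ, γ ^ 2 = γ₀ ^ 2 → d γ = d γ₀ → Tendsto (f · γ) (𝓝[>] 0) (𝓝 ((d γ₀ : ℂ) / (2 * γ₀ * I))) := by
      intro γ h1 h2
      refine hlim1.congr' ?_
      filter_upwards [self_mem_nhdsWithin] with ε hε
      have hε' : (0 : ℝ) < ε := hε
      have hε0 : (ε : ℂ) ≠ 0 := by exact_mod_cast hε'.ne'
      simp only [hf]
      rw [h2]
      have h3 : (γ : ℂ) ^ 2 = (γ₀ : ℂ) ^ 2 := by exact_mod_cast h1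
      have h4 : ((ε : ℂ) + γ₀ * I) ^ 2 + (γ : ℂ) ^ 2 = ε * ((ε : ℂ) + 2 * γ₀ * I) := by
        rw [h3]
        linear_combination (γ₀ : ℂ) ^ 2 * hI2
      rw [h4, ← mul_div_assoc, mul_div_mul_left _ _ hε0]
    have hab : ∀ γ, Tendsto (f · γ) (𝓝[>] 0) (𝓝 (g γ)) := by
      intro γ
      by_cases h1 : γ = γ₀
      · simp only [hg]
        rw [if_pos h1]
        exact hcase γ (by rw [h1]) (by rw [h1])
      · by_cases h2 : γ = -γ₀
        · simp only [hg]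
          rw [if_neg h1, if_pos h2]
          exact hcase γ (by rw [h2]; ring) (by rw [h2, hev])
        · simp only [hg]
          rw [if_neg h1, if_neg h2]
          have h3 : (γ : ℂ) ^ 2 - (γ₀ : ℂ) ^ 2 ≠ 0 := by
            intro h4
            have h5 : γ ^ 2 - γ₀ ^ 2 = 0 := by exact_mod_cast h4
            have h6 : (γ - γ₀) * (γ + γ₀) = 0 := by linarith [show (γ - γ₀) * (γ + γ₀) = γ ^ 2 - γ₀ ^ 2 by ring]
            rcases mul_eq_zero.1 h6 with h7 | h7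
            · exact h1 (by linarith)
            · exact h2 (by linarith)
          have h4 : Tendsto (fun ε : ℝ => ((ε : ℂ) + γ₀ * I) ^ 2 + (γ : ℂ) ^ 2) (𝓝[>] 0)
              (𝓝 ((0 + γ₀ * I) ^ 2 + (γ : ℂ) ^ 2)) := ((hid.add_const _).pow 2).add_const _
          have h5 : (0 + (γ₀ : ℂ) * I) ^ 2 + (γ : ℂ) ^ 2 = (γ : ℂ) ^ 2 - (γ₀ : ℂ) ^ 2 := by
            linear_combination (γ₀ : ℂ) ^ 2 * hI2
          rw [h5] at h4
          have h6 := hid.mul (Tendsto.div (tendsto_const_nhds (x := (d γ : ℂ))) h4 h3)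
          rw [zero_mul] at h6
          exact h6
    set C : ℝ := 1 + (2 + γ₀ ^ 2) / γ₀ with hC
    have hbd : ∀ᶠ ε in 𝓝[>] (0 : ℝ), ∀ γ, ‖f ε γ‖ ≤ C / 2 * (|d γ| * (2 / (1 + γ ^ 2))) := by
      have hlt : ∀ᶠ ε in 𝓝[>] (0 : ℝ), ε < 1 := nhdsWithin_le_nhds (gt_mem_nhds one_pos)
      filter_upwards [self_mem_nhdsWithin, hlt] with ε hε hε1 γ
      have hε' : (0 : ℝ) < ε := hε
      have h1 := w_low3 hε' hγ γ
      have h2 := w_low2 ((ε : ℂ) + γ₀ * I) γ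
      have h3 : ‖(ε : ℂ) + γ₀ * I‖ ^ 2 = ε ^ 2 + γ₀ ^ 2 := by
        rw [← normSq_eq_norm_sq, normSq_add_mul_I]
      rw [h3] at h2
      refine bd_of rfl (lt_of_lt_of_le (by positivity) h1) ?_
      rw [Complex.norm_real, Real.norm_of_nonneg hε'.le]
      set x := ‖((ε : ℂ) + γ₀ * I) ^ 2 + (γ : ℂ) ^ 2‖ with hx
      have hx0 : 0 ≤ x := norm_nonneg _
      have h4 : ε * (2 + γ₀ ^ 2) ≤ (2 + γ₀ ^ 2) / γ₀ * x := by
        rw [div_mul_eq_mul_div, le_div_iff₀ hγ]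
        nlinarith [mul_le_mul_of_nonneg_left h1 (show (0 : ℝ) ≤ 2 + γ₀ ^ 2 by positivity)]
      have h5 : ε * x ≤ 1 * x := mul_le_mul_of_nonneg_right hε1.le hx0
      have h6 : ε ^ 2 ≤ 1 := by nlinarith
      have h7 : ε * (1 + γ ^ 2) ≤ ε * (x + (2 + γ₀ ^ 2)) := mul_le_mul_of_nonneg_left (by linarith) hε'.le
      rw [hC, add_mul]
      linarith
    have h1 := tendsto_tsum_of_dominated_convergence (hs.mul_left (C / 2)) hab hbd
    have h2 : ∀ᶠ ε in 𝓝[>] (0 : ℝ), ∑' γ, f ε γ = 0 := by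
      filter_upwards [self_mem_nhdsWithin] with ε hε
      have hε' : (0 : ℝ) < ε := hε
      simp only [hf]
      rw [tsum_mul_left, vanish hs h (z₁ := (ε : ℂ) + γ₀ * I) (by simpa using hε'), mul_zero]
    have h3 : ∑' γ, g γ = 0 := tendsto_nhds_unique h1 ((tendsto_congr' h2).2 tendsto_const_nhds)
    have h4 : ∑' γ, g γ = (d γ₀ : ℂ) / (2 * γ₀ * I) + (d γ₀ : ℂ) / (2 * γ₀ * I) := by
      have h5 : ∀ γ, g γ = (if γ = γ₀ then (d γ₀ : ℂ) / (2 * γ₀ * I) else 0) +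
          if γ = -γ₀ then (d γ₀ : ℂ) / (2 * γ₀ * I) else 0 := by
        intro γ
        simp only [hg]
        by_cases e1 : γ = γ₀
        · rw [if_pos e1, if_pos e1, if_neg (by rw [e1]; intro e; linarith), add_zero]
        · rw [if_neg e1, if_neg e1, zero_add]
      simp only [h5]
      rw [(hasSum_ite_eq γ₀ ((d γ₀ : ℂ) / (2 * γ₀ * I))).summable.tsum_add
        (hasSum_ite_eq (-γ₀) ((d γ₀ : ℂ) / (2 * γ₀ * I))).summable, tsum_ite_eq, tsum_ite_eq]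
    rw [h4] at h3
    have h5 : (d γ₀ : ℂ) / (2 * γ₀ * I) = 0 := by
      have : (2 : ℂ) * ((d γ₀ : ℂ) / (2 * γ₀ * I)) = 0 := by linear_combination h3
      simpa using this
    rw [div_eq_zero_iff] at h5
    rcases h5 with h5 | h5
    · exact_mod_cast h5
    · exact absurd h5 hI
  rcases lt_trichotomy γ₀ 0 with h0 | h0 | h0
  · rw [← hev]
    exact hpos _ (by linarith)
  · rw [h0]
    have h1 := h 1 (by norm_num)
    rw [tsum_eq_single 0] at h1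
    · simpa using h1
    · intro γ hγ
      have h2 : d γ = 0 := by
        rcases lt_or_gt_of_ne hγ with h3 | h3
        · rw [← hev]
          exact hpos _ (by linarith)
        · exact hpos _ h3
      rw [h2, zero_div]
  · exact hpos _ h0

end

end Pool.Agent.H293.EXN
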