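import Pool.Agent.H293.EXN.ArtF
import Pool.Agent.H293.EXN.Uq

set_option autoImplicit false
set_option linter.unusedSectionVars false

/-!
# Project EX for Artin L-functions: the regular character and the zeta function of the top field
-/

namespace Pool.Agent.H293.EXN

open MeasureTheory Filter Topology Set Complex NumberField IsDedekindDomain
open Pool.Agent.Q253.NF (Dat IsDed ks)
open Pool.Agent.Q92.AR
open Pool.Agent.Q92.RT (induced induced_conj induced_pair class_expand)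
open Pool.Agent.H541R3.ART
open Pool.Agent.H112.NF
open Pool.Agent.H293.EX
open Pool.Agent.H302R2
open scoped ComplexConjugate

section
variable {K M : Type} [Field K] [NumberField K] [Field M] [NumberField M] [Algebra K M] [IsGalois K M]

theorem ks_summable (χ : (M ≃ₐ[K] M) → ℂ) (u : ℝ) :
    Summable fun k => bA χ k * ((Real.exp (-|u - lE K k|) : ℝ) : ℂ) := by
  refine Summable.of_norm_bounded ((bA_sum χ (x := 1) (by norm_num)).mul_left (Real.exp |u|)) fun k => ?_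
  rw [norm_mul, Complex.norm_real, Real.norm_of_nonneg (Real.exp_pos _).le]
  have h1 : Real.exp (-|u - lE K k|) ≤ Real.exp |u| * Real.exp (-(1 * lE K k)) := by
    rw [← Real.exp_add]
    apply Real.exp_le_exp.2
    have h2 := abs_sub_abs_le_abs_sub (lE K k) u
    rw [abs_sub_comm, abs_of_nonneg (lE_nonneg k)] at h2
    linarith
  calc ‖bA χ k‖ * Real.exp (-|u - lE K k|) ≤ ‖bA χ k‖ * (Real.exp |u| * Real.exp (-(1 * lE K k))) :=
        mul_le_mul_of_nonneg_left h1 (norm_nonneg _)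
    _ = Real.exp |u| * (‖bA χ k‖ * Real.exp (-(1 * lE K k))) := by ring

theorem bot_expand (g : M ≃ₐ[K] M) :
    induced (⊥ : Subgroup (M ≃ₐ[K] M)) 1 g = ∑ χ ∈ irrF (M ≃ₐ[K] M), χ 1 * χ g := by
  classical
  have : Fintype (M ≃ₐ[K] M) := Fintype.ofFinite _
  choose! m hm using fun χ (hχ : χ ∈ Irr (M ≃ₐ[K] M)) => exists_mult hχ (⊥ : Subgroup (M ≃ₐ[K] M)) 1
  have hexp := class_expand (m := fun χ => (m χ : ℂ)) (fun g x => induced_conj (⊥ : Subgroup (M ≃ₐ[K] M)) 1 g x)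
    (fun χ hχ => induced_pair (⊥ : Subgroup (M ≃ₐ[K] M)) 1
      (fun g x => Pool.Agent.H541R3.ART.Irr.conj hχ g x) (hm χ hχ)) g
  rw [hexp]
  refine Finset.sum_congr rfl fun χ hχ => ?_
  congr 1
  have h1 := hm χ (mem_irrF.1 hχ)
  have : Fintype (⊥ : Subgroup (M ≃ₐ[K] M)) := Fintype.ofFinite _
  rw [finsum_eq_sum_of_fintype, Fintype.sum_eq_single (1 : (⊥ : Subgroup (M ≃ₐ[K] M)))] at h1
  · have h2 : (Nat.card (⊥ : Subgroup (M ≃ₐ[K] M)) : ℂ) = 1 := by
      rw [Nat.card_eq_one_iff_unique.2 ⟨inferInstance, inferInstance⟩]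
      simp
    rw [h2] at h1
    simpa using h1.symm
  · intro x hx
    exact absurd (Subsingleton.elim x 1) hx

variable (K M) in
theorem reg_ks (u : ℝ) : ∑ χ ∈ irrF (M ≃ₐ[K] M), χ 1 * ks {v : HeightOneSpectrum (𝓞 K) | Unramified M v}
    (fun v n => χ (frob M v ^ (n + 1))) u =
      ks {w : HeightOneSpectrum (𝓞 M) | Unramified M (w.under (𝓞 K))} (fun _ _ => 1) u := by
  classical
  have h0 := Pool.Agent.Q190.NF.indk K M M (1 : fixer K M M →* ℂˣ) 1 (fun _ _ => rfl) u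
  have h1 : induced (fixer K M M) 1 = induced (⊥ : Subgroup (M ≃ₐ[K] M)) 1 :=
    induced_congr fixer_self fun x hx hx' => rfl
  rw [h1] at h0
  have h2 : (fun (w : HeightOneSpectrum (𝓞 M)) (n : ℕ) => ((((1 : (M ≃ₐ[M] M) →* ℂˣ) (frob M w) : ℂˣ) : ℂ)) ^ (n + 1)) =
      fun _ _ => 1 := by
    funext w n
    simp
  rw [h2] at h0
  rw [← h0]
  simp only [ks_bA]
  rw [← Finset.sum_congr rfl fun χ _ => tsum_mul_left, ← Summable.tsum_finsetSum fun χ _ => (ks_summable χ u).mul_left _]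
  refine tsum_congr fun x => ?_
  unfold bA
  by_cases h : Unramified M x.1
  · simp only [if_pos h]
    rw [bot_expand, Finset.sum_mul, Finset.sum_mul]
    refine Finset.sum_congr rfl fun χ _ => ?_
    ring
  · simp only [if_neg h, zero_mul, mul_zero, Finset.sum_const_zero]

variable (K) in
theorem reg_near {D : Dat} (hD : IsDed M D) : ∃ C : ℝ, ∀ u : ℝ, 0 ≤ u →
    ‖(∑ χ ∈ irrF (M ≃ₐ[K] M), χ 1 * SS χ u) - D.P u‖ ≤ C * Real.exp (-(u / 4)) := by
  classical
  obtain ⟨C, hC⟩ := Pool.Agent.Q26.NF.red M {w : HeightOneSpectrum (𝓞 M) | Unramified M (w.under (𝓞 K))} univ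
    (fun _ _ => 1) (fun _ _ => 1) 1 (by rw [Set.sdiff_univ]; exact Set.finite_empty)
    ((ramified_above_finite (K := K) (F := M) (M := M)).subset (by
      rintro w ⟨-, hw⟩
      exact hw)) (by simp) (by simp) (fun _ _ _ => rfl)
  refine ⟨C, fun u hu => ?_⟩
  have h1 : (∑ χ ∈ irrF (M ≃ₐ[K] M), χ 1 * SS χ u) - D.P u =
      ks {w : HeightOneSpectrum (𝓞 M) | Unramified M (w.under (𝓞 K))} (fun _ _ => 1) u -
        ks (univ : Set (HeightOneSpectrum (𝓞 M))) (fun _ _ => 1) u := by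
    unfold SS Dat.P
    rw [hD.p, hD.sum, ← reg_ks K M u]
    have h2 : ∑ χ ∈ irrF (M ≃ₐ[K] M), χ 1 * (if ∀ g, χ g = 1 then ((8 / 3 * Real.exp (u / 2) : ℝ) : ℂ) else 0) =
        ((8 / 3 * Real.exp (u / 2) : ℝ) : ℂ) := by
      rw [Finset.sum_eq_single_of_mem _ (mem_irrF.2 one_irr)]
      · simp
      · intro χ _ hne
        rw [if_neg (fun h => hne (funext h)), mul_zero]
    simp only [mul_sub, Finset.sum_sub_distrib]
    rw [h2]
    push_cast
    ring
  rw [h1]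
  exact hC u hu

theorem SS_int (χ : (M ≃ₐ[K] M) → ℂ) {a : ℝ} (ha : 0 < a) (u : ℝ) :
    IntegrableOn (fun w : ℝ => (kap a w : ℂ) * SS χ (u - w)) (Ioi 0) := by
  classical
  haveI : Countable (HeightOneSpectrum (𝓞 K) × ℕ) := countable_idx (E := K)
  obtain ⟨h1, -⟩ := tCVC _ (bA χ) (lE K) lE_nonneg (fun x hx => bA_sum χ hx) a ha u
  obtain ⟨h3, -⟩ := main_term ha u
  unfold SS
  simp only [ks_bA]
  by_cases h : ∀ g, χ g = 1
  · simp only [if_pos h]
    have h3' : IntegrableOn (fun w : ℝ => ((kap a w * (8 / 3 * Real.exp ((u - w) / 2)) : ℝ) : ℂ)) (Ioi 0) := h3.ofReal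
    refine (h1.sub h3').congr (Eventually.of_forall fun w => ?_)
    simp only [Pi.sub_apply]
    push_cast
    ring
  · simp only [if_neg h, sub_zero]
    exact h1

variable (K) in
/-- the regular character -/
theorem FR_near {D : Dat} (hD : IsDed M D) {a : ℝ} (ha : 0 < a) :
    Tendsto (fun u : ℝ => (∑ χ ∈ irrF (M ≃ₐ[K] M), χ 1 * FA χ a u) - ((FG (bE M) (lE M) a u : ℝ) : ℂ)) atTop
      (𝓝 0) := by
  classical
  haveI : Countable (HeightOneSpectrum (𝓞 M) × ℕ) := countable_idx (E := M)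
  have hd := fdE hD
  obtain ⟨C1, hC1⟩ := reg_near K hD
  set P : ℝ → ℂ := fun u => (∑ χ ∈ irrF (M ≃ₐ[K] M), χ 1 * SS χ u) - ((PG (bE M) (lE M) u : ℝ) : ℂ) with hP
  choose! B hB using fun χ : (M ≃ₐ[K] M) → ℂ => SS_bdd χ
  set C2 : ℝ := (∑ χ ∈ irrF (M ≃ₐ[K] M), ‖χ 1‖ * B χ) + ((∑' k, bE M k * Real.exp (-(1 * lE M k))) + 8 / 3) with hC2
  have hPc : Continuous P := by
    refine (continuous_finsetSum _ fun χ _ => continuous_const.mul (SS_cont χ)).sub
      (Complex.continuous_ofReal.comp (PG_cont hd))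
  have h1 := tASC a (fun _ => 0) P (max C1 C2) ha (by simp only [abs_zero, zero_mul]; exact summable_zero) hPc
    (fun v hv => by
      refine le_trans ?_ (le_max_right _ _)
      simp only [hP]
      refine (norm_sub_le _ _).trans (add_le_add ?_ ?_)
      · refine (norm_sum_le _ _).trans (Finset.sum_le_sum fun χ _ => ?_)
        rw [norm_mul]
        exact mul_le_mul_of_nonneg_left (hB χ v hv) (norm_nonneg _)
      · rw [Complex.norm_real, Real.norm_eq_abs]
        exact PG_bdd hd v hv)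
    (fun v hv => by
      have h2 := hC1 v hv
      rw [hd.P] at h2
      have h3 : ∑' γ : ℝ, (((0 : ℝ) * (2 / (1 + γ ^ 2)) : ℝ) : ℂ) * cexp (I * γ * v) = 0 := by simp
      rw [h3, add_zero]
      exact h2.trans (mul_le_mul_of_nonneg_right (le_max_left _ _) (Real.exp_pos _).le))
  refine h1.congr fun u => ?_
  have h4 : ∑' γ : ℝ, (((0 : ℝ) : ℝ) : ℂ) * (cexp (I * γ * u) / ((a : ℂ) + I * γ) ^ 2) = 0 := by simp
  rw [h4, add_zero]
  obtain ⟨h5, h6⟩ := tCVG _ (bE M) (lE M) hd.hg a ha u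
  have h5' : IntegrableOn (fun w : ℝ => ((kap a w * PG (bE M) (lE M) (u - w) : ℝ) : ℂ)) (Ioi 0) := h5.ofReal
  have h7 : (fun w : ℝ => (kap a w : ℂ) * P (u - w)) = fun w : ℝ =>
      (∑ χ ∈ irrF (M ≃ₐ[K] M), χ 1 * ((kap a w : ℂ) * SS χ (u - w))) -
        ((kap a w * PG (bE M) (lE M) (u - w) : ℝ) : ℂ) := by
    funext w
    simp only [hP]
    rw [mul_sub, Finset.mul_sum]
    congr 1
    · exact Finset.sum_congr rfl fun χ _ => by ring
    · push_cast
      ring
  rw [h7, integral_sub (integrable_finsetSum _ fun χ _ => (SS_int χ ha u).const_mul _) h5', integral_complex_ofReal,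
    integral_finsetSum _ fun χ _ => (SS_int χ ha u).const_mul _, h6]
  have h8 : ∀ χ : (M ≃ₐ[K] M) → ℂ, ∫ w in Ioi (0 : ℝ), χ 1 * ((kap a w : ℂ) * SS χ (u - w)) =
      χ 1 * FA χ a u + χ 1 * ((1 / 2) * SS χ u) := by
    intro χ
    rw [integral_const_mul, FA_eq χ ha]
    ring
  rw [Finset.sum_congr rfl fun χ _ => h8 χ, Finset.sum_add_distrib]
  have h9 : ∑ χ ∈ irrF (M ≃ₐ[K] M), χ 1 * ((1 / 2) * SS χ u) = (1 / 2) * ∑ χ ∈ irrF (M ≃ₐ[K] M), χ 1 * SS χ u := by
    rw [Finset.mul_sum]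
    exact Finset.sum_congr rfl fun χ _ => by ring
  rw [h9]
  simp only [hP]
  push_cast
  ring

end

end Pool.Agent.H293.EXN
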