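import Pool.Agent.H293.EXN.Fam
import Pool.Agent.H293.EXN.Fld

set_option autoImplicit false

/-!
# Project EX for number fields: finite families of Dedekind zeta functions
-/

namespace Pool.Agent.H293.EXN

open MeasureTheory Filter Topology Set Complex
open Pool.Agent.Q253.NF (Dat)
open Pool.Agent.H293.EX

section one
variable {ι : Type} [Fintype ι] {κ : ι → Type} {D : ι → Dat} {b l : (i : ι) → κ i → ℝ}

/-- the ordinates of the family -/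
def OF (D : ι → Dat) : Set ℝ := {γ : ℝ | 0 < γ ∧ ∃ i, mg (D i) γ ≠ 0}

/-- the exponents `1` -/
def e1 (ι : Type) : ι → ℝ := fun _ => 1

lemma one_nonneg (γ : ℝ) : 0 ≤ NN D (e1 ι) γ :=
  Finset.sum_nonneg fun i _ => by unfold e1; rw [one_mul]; exact mg_nonneg _ _

lemma mem_OF (γ : ℝ) : γ ∈ OF D ↔ 0 < γ ∧ NN D (e1 ι) γ ≠ 0 := by
  unfold OF
  rw [mem_ofPred_eq]
  refine and_congr Iff.rfl ?_
  unfold NN e1
  simp only [one_mul]
  rw [Ne, Finset.sum_eq_zero_iff_of_nonneg fun i _ => mg_nonneg _ _]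
  push Not
  exact ⟨fun ⟨i, hi⟩ => ⟨i, Finset.mem_univ i, hi⟩, fun ⟨i, _, hi⟩ => ⟨i, hi⟩⟩

lemma sub_OF (r : ι → ℝ) {γ : ℝ} (h0 : 0 < γ) (h : NN D r γ ≠ 0) : γ ∈ OF D := by
  refine ⟨h0, ?_⟩
  by_contra hn
  push Not at hn
  exact h (Finset.sum_eq_zero fun i _ => by rw [hn i, mul_zero])

lemma ind_of_li (h : LinearIndependent ℚ (fun γ : OF D => (γ : ℝ))) (r : ι → ℝ) : Ind (NN D r) :=
  fun S hS n hn => (li_iff (OF D)).1 h S n ⟨fun γ hγ => sub_OF r (hS γ hγ).1 (hS γ hγ).2, hn⟩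

lemma one_sum (h : ∀ i, Hy (D i)) : Summable (fun γ : ℝ => NN D (e1 ι) γ * (2 / (1 + γ ^ 2))) :=
  (NN_sum h (e1 ι)).congr fun γ => by rw [abs_of_nonneg (one_nonneg γ)]

lemma W_one (h : ∀ i, Hy (D i)) {a : ℝ} (ha : 1 / 2 < a) :
    bb (NN D (e1 ι)) a 0 + AA (NN D (e1 ι)) a = WR D (e1 ι) a := by
  have ha0 : 0 < a := by linarith
  obtain ⟨h1, h2⟩ := W_defect (NN_sum h (e1 ι)) ha0
  have h3 := h2.2 fun γ _ => one_nonneg γ
  rw [W_eq h (e1 ι) ha] at h1 h3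
  exact le_antisymm h3 h1

variable [∀ i, Countable (κ i)]

theorem low1_ge (hd : ∀ i, Fd (D i) (b i) (l i)) (h : ∀ i, Hy (D i)) {a : ℝ} (ha : 1 / 2 < a) :
    ((-WR D (e1 ι) a : ℝ) : EReal) ≤ lowR b l (e1 ι) a := by
  have h1 := lowR_ge hd h (e1 ι) (show 0 < a by linarith)
  have h2 := W_one h ha
  have e : -(bb (NN D (e1 ι)) a 0) - AA (NN D (e1 ι)) a = -WR D (e1 ι) a := by linarith
  rwa [e] at h1

theorem low1_le_iff (hd : ∀ i, Fd (D i) (b i) (l i)) (h : ∀ i, Hy (D i)) {a : ℝ} (ha : 1 / 2 < a) :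
    lowR b l (e1 ι) a ≤ ((-WR D (e1 ι) a : ℝ) : EReal) ↔ Cn (OF D) a := by
  have ha0 : 0 < a := by linarith
  unfold lowR
  rw [li_le_iff]
  have hW : ∑' γ : ℝ, bb (NN D (e1 ι)) a γ = WR D (e1 ι) a := W_eq h (e1 ι) ha
  have hF := hR hd h (e1 ι) ha0
  unfold TT at hF
  constructor
  · intro h1 S n hRl
    rw [← hW] at h1
    exact rel_of_liminf (one_nonneg (D := D)) (one_sum h) ha0 hF h1 S (fun γ hγ => (mem_OF γ).1 (hRl.1 γ hγ)) n hRl.2
  · intro h1 ε hε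
    rw [← hW]
    exact liminf_of_rel (one_nonneg (D := D)) (NN_neg hd (e1 ι)) (one_sum h) ha0 hF Pool.Agent.H167.EXKR.t_KR
      (fun S hS n hn => h1 S n ⟨fun γ hγ => (mem_OF γ).2 (hS γ hγ), hn⟩) ε hε

theorem low1_eq_iff [Nonempty ι] (hd : ∀ i, Fd (D i) (b i) (l i)) {a : ℝ} (ha : 1 / 2 < a) :
    lowR b l (e1 ι) a = ((-WR D (e1 ι) a : ℝ) : EReal) ↔ (∀ i, Hy (D i)) ∧ Cn (OF D) a := by
  constructor
  · intro h
    have h1 : ∀ i, Hy (D i) := hy_of_sum hd (show 0 < a by linarith) (by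
      have e : lowR b l (fun _ => 1) a = lowR b l (e1 ι) a := rfl
      rw [e, h]
      exact EReal.coe_ne_bot _)
    exact ⟨h1, (low1_le_iff hd h1 ha).1 h.le⟩
  · rintro ⟨h1, h2⟩
    exact le_antisymm ((low1_le_iff hd h1 ha).2 h2) (low1_ge hd h1 ha)

/-- no poles -/
theorem poles_iff (hd : ∀ i, Fd (D i) (b i) (l i)) (h : ∀ i, Hy (D i))
    (hLI : LinearIndependent ℚ (fun γ : OF D => (γ : ℝ))) (r : ι → ℝ) {a : ℝ} (ha : 1 / 2 < a) :
    (((-WR D r a : ℝ) : EReal) ≤ lowR b l r a ∧ uppR b l r a ≤ ((WR D r a : ℝ) : EReal)) ↔ ∀ γ : ℝ, 0 ≤ NN D r γ := by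
  have ha0 : 0 < a := by linarith
  rw [lowR_eq hd h r (ind_of_li hLI r) ha0, uppR_eq hd h r (ind_of_li hLI r) ha0, EReal.coe_le_coe_iff,
    EReal.coe_le_coe_iff]
  obtain ⟨h1, h2⟩ := W_defect (NN_sum h r) ha0
  rw [W_eq h r ha] at h1 h2
  have hb : bb (NN D r) a 0 = NN D r 0 / a ^ 2 := by
    unfold bb
    simp
  have ha2 : 0 < a ^ 2 := by positivity
  constructor
  · rintro ⟨h3, h4⟩ γ
    by_cases hγ : γ = 0
    · have h5 : 0 ≤ NN D r 0 / a ^ 2 := by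
        rw [← hb]
        linarith
      rw [hγ]
      by_contra hn
      have := div_neg_of_neg_of_pos (not_le.1 hn) ha2
      linarith
    · exact h2.1 (by linarith) γ hγ
  · intro h3
    have h4 := h2.2 fun γ _ => h3 γ
    have h5 : 0 ≤ bb (NN D r) a 0 := by
      rw [hb]
      exact div_nonneg (h3 0) ha2.le
    constructor <;> linarith

/-- the bounds without independence -/
theorem bounds_of_nonneg (hd : ∀ i, Fd (D i) (b i) (l i)) (h : ∀ i, Hy (D i)) (r : ι → ℝ) (hr : ∀ γ : ℝ, 0 ≤ NN D r γ)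
    {a : ℝ} (ha : 1 / 2 < a) :
    ((-WR D r a : ℝ) : EReal) ≤ lowR b l r a ∧ uppR b l r a ≤ ((WR D r a - 2 * NN D r 0 / a ^ 2 : ℝ) : EReal) := by
  have ha0 : 0 < a := by linarith
  obtain ⟨h1, h2⟩ := W_defect (NN_sum h r) ha0
  rw [W_eq h r ha] at h1 h2
  have h4 := h2.2 fun γ _ => hr γ
  have hb : bb (NN D r) a 0 = NN D r 0 / a ^ 2 := by
    unfold bb
    simp
  have e : 2 * NN D r 0 / a ^ 2 = 2 * bb (NN D r) a 0 := by
    rw [hb]
    ring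
  refine ⟨le_trans ?_ (lowR_ge hd h r ha0), (uppR_le hd h r ha0).trans ?_⟩
  · rw [EReal.coe_le_coe_iff]
    linarith
  · rw [EReal.coe_le_coe_iff, e]
    linarith

end one

end Pool.Agent.H293.EXN
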