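import Pool.Agent.H293.EXN.ArtG
import Pool.Agent.H293.EXN.Fam2
import Pool.Graph.R_pool_sql_team_seeded_3997aac3.Q7.DB.RealArt

set_option autoImplicit false
set_option linter.unusedSectionVars false

/-!
# Project EX for Artin L-functions: the twisted sums
-/

namespace Pool.Agent.H293.EXN

open MeasureTheory Filter Topology Set Complex NumberField IsDedekindDomain
open Pool.Agent.Q253.NF (Dat IsDed ks)
open Pool.Agent.H541R3.ART
open Pool.Agent.H112.NF (ordA GRH)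
open Pool.Agent.H293.EX
open scoped ComplexConjugate

section
variable {K M : Type} [Field K] [NumberField K] [Field M] [NumberField M] [Algebra K M] [IsGalois K M]

/-- the conjugate function -/
def cj {G : Type} (χ : G → ℂ) : G → ℂ := fun g => conj (χ g)

lemma cj_cj {G : Type} (χ : G → ℂ) : cj (cj χ) = χ := by
  funext g
  unfold cj
  rw [Complex.conj_conj]

lemma cj_irr {G : Type} [Group G] [Finite G] {χ : G → ℂ} (hχ : χ ∈ Irr G) : cj χ ∈ Irr G := by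
  have h1 := Pool.Agent.Q7.DB.irr_inv hχ
  have h2 : (fun g => χ g⁻¹) = cj χ := by
    funext g
    exact Pool.Agent.W446.AS.heilbronn_star (Pool.Agent.W446.AS.irr_heilbronn hχ) g
  rwa [h2] at h1

lemma deg_real {G : Type} [Group G] [Finite G] {χ : G → ℂ} (hχ : χ ∈ Irr G) :
    0 < (χ 1).re ∧ χ 1 = (((χ 1).re : ℝ) : ℂ) := by
  obtain ⟨d, hd, h⟩ := Pool.Agent.W446.AS.irr_deg_pos hχ
  rw [h]
  simp only [natCast_re, ofReal_natCast, and_true]
  exact_mod_cast hd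

lemma sum_cj (f : ((M ≃ₐ[K] M) → ℂ) → ℂ) :
    ∑ χ ∈ irrF (M ≃ₐ[K] M), f (cj χ) = ∑ χ ∈ irrF (M ≃ₐ[K] M), f χ :=
  Finset.sum_nbij' cj cj (fun χ hχ => mem_irrF.2 (cj_irr (mem_irrF.1 hχ)))
    (fun χ hχ => mem_irrF.2 (cj_irr (mem_irrF.1 hχ))) (fun χ _ => cj_cj χ) (fun χ _ => cj_cj χ) (fun χ _ => rfl)

/-- the twisted sum -/
noncomputable def FC (c : ((M ≃ₐ[K] M) → ℂ) → ℂ) (a u : ℝ) : ℝ :=
  (∑ χ ∈ irrF (M ≃ₐ[K] M), c χ * χ 1 * FA χ a u).re

/-- the twisted multiplicities -/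
noncomputable def BC (c : ((M ≃ₐ[K] M) → ℂ) → ℂ) (γ : ℝ) : ℂ :=
  ∑ χ ∈ irrF (M ≃ₐ[K] M), c χ * χ 1 * (oA χ γ : ℂ)

lemma oA_cj {χ : (M ≃ₐ[K] M) → ℂ} (hχ : χ ∈ Irr (M ≃ₐ[K] M)) (γ : ℝ) : oA (cj χ) γ = oA χ (-γ) := by
  unfold oA cj
  rw [ordA_conj hχ]
  congr 3
  rw [map_add, map_mul, conj_I, conj_ofReal, map_div₀, map_one, map_ofNat]
  push_cast
  ring

theorem BC_conj {c : ((M ≃ₐ[K] M) → ℂ) → ℂ} (hc : Uni cj c) (γ : ℝ) : BC c (-γ) = conj (BC c γ) := by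
  unfold BC
  rw [← sum_cj fun χ => c χ * χ 1 * (oA χ (-γ) : ℂ), map_sum]
  refine Finset.sum_congr rfl fun χ hχ => ?_
  have h1 := oA_cj (mem_irrF.1 hχ) (-γ)
  rw [neg_neg] at h1
  rw [h1, hc.2, map_mul, map_mul, conj_ofReal]
  rfl

lemma one_uni {G : Type} : Uni (cj (G := G)) fun _ => 1 := ⟨fun _ => by simp, fun _ => by simp⟩

theorem BC_one {D : Dat} (hD : IsDed M D) (γ : ℝ) : BC (K := K) (M := M) (fun _ => 1) γ = ((mg D γ : ℝ) : ℂ) := by
  have h1 : (1 / 2 + (γ : ℂ) * I) ≠ 1 := by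
    intro h
    have h2 := congrArg Complex.re h
    simp at h2
  have h2 := deg_sum (K := K) hD (s := 1 / 2 + γ * I) (by simp) h1
  have h3 : BC (K := K) (M := M) (fun _ => 1) γ = theta (fun χ => ordA χ (1 / 2 + γ * I)) (1 : M ≃ₐ[K] M) := by
    unfold BC theta oA
    refine Finset.sum_congr rfl fun χ _ => ?_
    push_cast
    ring
  rw [h3, h2]
  unfold mg
  rw [ofReal_natCast]
  congr 2
  ring

theorem oA_zero {D : Dat} (hD : IsDed M D) {γ : ℝ} (h : mg D γ = 0) {χ : (M ≃ₐ[K] M) → ℂ}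
    (hχ : χ ∈ Irr (M ≃ₐ[K] M)) : oA χ γ = 0 := by
  have h1 : (1 / 2 + (γ : ℂ) * I) ≠ 1 := by
    intro h
    have h2 := congrArg Complex.re h
    simp at h2
  unfold oA
  rw [ord_zero hD (by simp) h1 ?_ hχ, Int.cast_zero]
  unfold mg at h
  have e : (1 / 2 + (γ : ℂ) * I - 1 / 2) = γ * I := by ring
  rw [e]
  exact_mod_cast h

theorem BC_sum {D : Dat} (hD : IsDed M D) (h : Hy D) (c : ((M ≃ₐ[K] M) → ℂ) → ℂ) :
    Summable fun γ : ℝ => ‖BC c γ‖ * (2 / (1 + γ ^ 2)) := by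
  have h1 : Summable fun γ : ℝ => ∑ χ ∈ irrF (M ≃ₐ[K] M), ‖c χ * χ 1‖ * (|oA χ γ| * (2 / (1 + γ ^ 2))) :=
    summable_sum fun χ hχ => (oA_sum (mem_irrF.1 hχ) (grh_of_hy hD h (mem_irrF.1 hχ))).mul_left _
  refine Summable.of_nonneg_of_le (fun γ => by positivity) (fun γ => ?_) h1
  unfold BC
  refine (mul_le_mul_of_nonneg_right (norm_sum_le _ _) (by positivity)).trans (le_of_eq ?_)
  rw [Finset.sum_mul]
  refine Finset.sum_congr rfl fun χ _ => ?_
  rw [norm_mul _ ((oA χ γ : ℝ) : ℂ), Complex.norm_real, Real.norm_eq_abs]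
  ring

lemma kern_norm {a : ℝ} (ha : 0 < a) (γ u : ℝ) : ‖cexp (I * γ * u) / ((a : ℂ) + I * γ) ^ 2‖ = 1 / (a ^ 2 + γ ^ 2) := by
  rw [norm_div, norm_e, norm_pow, ← normSq_eq_norm_sq, mul_comm I, normSq_add_mul_I]

theorem oE_sum {χ : (M ≃ₐ[K] M) → ℂ} (hχ : χ ∈ Irr (M ≃ₐ[K] M)) (hG : GRH χ) {a : ℝ} (ha : 0 < a) (u : ℝ) :
    Summable fun γ : ℝ => (oA χ γ : ℂ) * (cexp (I * γ * u) / ((a : ℂ) + I * γ) ^ 2) := by
  have h1 := nb_sum (B := fun γ => ((oA χ γ : ℝ) : ℂ)) ((oA_sum hχ hG).congr fun γ => by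
    rw [Complex.norm_real, Real.norm_eq_abs]) ha
  refine Summable.of_norm (h1.congr fun γ => ?_)
  rw [norm_mul, kern_norm ha, mul_one_div]

theorem FC_near {D : Dat} (hD : IsDed M D) (h : Hy D) (c : ((M ≃ₐ[K] M) → ℂ) → ℂ) {a : ℝ} (ha : 0 < a) :
    Tendsto (fun u : ℝ => FC c a u + TC (BC c) a u) atTop (𝓝 0) := by
  have h1 : Tendsto (fun u : ℝ => ∑ χ ∈ irrF (M ≃ₐ[K] M), c χ * χ 1 * (FA χ a u +
      ∑' γ : ℝ, (oA χ γ : ℂ) * (cexp (I * γ * u) / ((a : ℂ) + I * γ) ^ 2))) atTop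
      (𝓝 (∑ χ ∈ irrF (M ≃ₐ[K] M), c χ * χ 1 * 0)) :=
    tendsto_finsetSum _ fun χ hχ => (FA_near (mem_irrF.1 hχ) (grh_of_hy hD h (mem_irrF.1 hχ)) ha).const_mul _
  simp only [mul_zero, Finset.sum_const_zero] at h1
  have h2 := (Complex.continuous_re.tendsto 0).comp h1
  rw [zero_re] at h2
  refine h2.congr fun u => ?_
  rw [Function.comp_apply]
  have hs : ∀ χ ∈ irrF (M ≃ₐ[K] M), Summable fun γ : ℝ => c χ * χ 1 * ((oA χ γ : ℂ) *
      (cexp (I * γ * u) / ((a : ℂ) + I * γ) ^ 2)) :=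
    fun χ hχ => (oE_sum (mem_irrF.1 hχ) (grh_of_hy hD h (mem_irrF.1 hχ)) ha u).mul_left _
  have h3 : ∑ χ ∈ irrF (M ≃ₐ[K] M), c χ * χ 1 * (FA χ a u +
      ∑' γ : ℝ, (oA χ γ : ℂ) * (cexp (I * γ * u) / ((a : ℂ) + I * γ) ^ 2)) =
      (∑ χ ∈ irrF (M ≃ₐ[K] M), c χ * χ 1 * FA χ a u) +
      ∑' γ : ℝ, BC c γ * (cexp (I * γ * u) / ((a : ℂ) + I * γ) ^ 2) := by
    simp only [mul_add, Finset.sum_add_distrib]
    congr 1
    rw [← Finset.sum_congr rfl fun χ _ => tsum_mul_left, ← Summable.tsum_finsetSum hs]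
    refine tsum_congr fun γ => ?_
    unfold BC
    rw [Finset.sum_mul]
    exact Finset.sum_congr rfl fun χ _ => by ring
  have h4 : Summable fun γ : ℝ => BC c γ * (cexp (I * γ * u) / ((a : ℂ) + I * γ) ^ 2) := by
    refine (summable_sum hs).congr fun γ => ?_
    unfold BC
    rw [Finset.sum_mul]
    exact Finset.sum_congr rfl fun χ _ => by ring
  rw [h3, add_re, Complex.re_tsum h4]
  rfl

/-! ### The lower and the upper limit -/

/-- the lower limit -/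
noncomputable def lowC (c : ((M ≃ₐ[K] M) → ℂ) → ℂ) (a : ℝ) : EReal := liminf (fun u : ℝ => (FC c a u : EReal)) atTop

/-- the upper limit -/
noncomputable def uppC (c : ((M ≃ₐ[K] M) → ℂ) → ℂ) (a : ℝ) : EReal := limsup (fun u : ℝ => (FC c a u : EReal)) atTop

lemma ind_BC {D : Dat} (hD : IsDed M D) (hI : LinearIndependent ℚ (fun γ : OD D => (γ : ℝ)))
    (c : ((M ≃ₐ[K] M) → ℂ) → ℂ) (S : Finset ℝ) (hS : ∀ γ ∈ S, 0 < γ ∧ BC c γ ≠ 0) (n : ℝ → ℤ)
    (hn : ∑ γ ∈ S, (n γ : ℝ) * γ = 0) : ∀ γ ∈ S, n γ = 0 := by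
  refine (li_iff (OD D)).1 hI S n ⟨fun γ hγ => ⟨(hS γ hγ).1, fun h0 => (hS γ hγ).2 ?_⟩, hn⟩
  unfold BC
  refine Finset.sum_eq_zero fun χ hχ => ?_
  rw [oA_zero hD h0 (mem_irrF.1 hχ), ofReal_zero, mul_zero]

theorem lowC_eq {D : Dat} (hD : IsDed M D) (h : Hy D) (hI : LinearIndependent ℚ (fun γ : OD D => (γ : ℝ)))
    {c : ((M ≃ₐ[K] M) → ℂ) → ℂ} (hc : Uni cj c) {a : ℝ} (ha : 0 < a) :
    lowC c a = ((-((BC c 0).re / a ^ 2) - AC (BC c) a : ℝ) : EReal) := by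
  have h1 := FC_near hD h c ha
  refine le_antisymm ((li_le_iff _).2 fun ε hε => ?_) (li_ge fun ε hε => ?_)
  · have h2 := TC_near (BC_sum hD h c) ha (BC_conj hc) Pool.Agent.H167.EXKR.t_KR (ind_BC hD hI c) (ε / 2) (by linarith)
    refine (h2.and_eventually (h1.eventually (gt_mem_nhds (show 0 < ε / 2 by linarith)))).mono fun u hu => ?_
    obtain ⟨hu1, hu2⟩ := hu
    linarith
  · filter_upwards [h1.eventually (lt_mem_nhds (show -ε < 0 by linarith))] with u hu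
    have h2 := TC_le (BC_sum hD h c) ha u
    linarith

theorem uppC_eq {D : Dat} (hD : IsDed M D) (h : Hy D) (hI : LinearIndependent ℚ (fun γ : OD D => (γ : ℝ)))
    {c : ((M ≃ₐ[K] M) → ℂ) → ℂ} (hc : Uni cj c) {a : ℝ} (ha : 0 < a) :
    uppC c a = ((-((BC c 0).re / a ^ 2) + AC (BC c) a : ℝ) : EReal) := by
  have h1 := FC_near hD h c ha
  refine le_antisymm (ls_le fun ε hε => ?_) (ls_ge fun ε hε => ?_)
  · filter_upwards [h1.eventually (gt_mem_nhds (show 0 < ε by linarith))] with u hu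
    have h2 := le_TC (BC_sum hD h c) ha u
    linarith
  · have h2 := TC_near (B := fun γ => -BC c γ) (hsc_neg (BC_sum hD h c)) ha (fun γ => by rw [BC_conj hc, map_neg])
      Pool.Agent.H167.EXKR.t_KR (fun S hS n hn => ind_BC hD hI c S
        (fun γ hγ => ⟨(hS γ hγ).1, fun h0 => (hS γ hγ).2 (by rw [h0, neg_zero])⟩) n hn) (ε / 2) (by linarith)
    refine (h2.and_eventually (h1.eventually (lt_mem_nhds (show -(ε / 2) < 0 by linarith)))).mono fun u hu => ?_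
    obtain ⟨hu1, hu2⟩ := hu
    rw [AC_neg, TC_neg, neg_re, neg_div] at hu1
    linarith

/-! ### The untwisted sum -/

/-- the sum of the zeta function of `M` -/
theorem FC_one_near {D : Dat} (hD : IsDed M D) {a : ℝ} (ha : 0 < a) :
    Tendsto (fun u : ℝ => FC (K := K) (M := M) (fun _ => 1) a u - FG (bE M) (lE M) a u) atTop (𝓝 0) := by
  have h1 := (Complex.continuous_re.tendsto 0).comp (FR_near K hD ha)
  rw [zero_re] at h1
  refine h1.congr fun u => ?_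
  rw [Function.comp_apply, sub_re, ofReal_re]
  unfold FC
  simp only [one_mul]

/-- two functions with the same limits -/
lemma li_congr {F G : ℝ → ℝ} (h : Tendsto (fun u => F u - G u) atTop (𝓝 0)) (w : ℝ)
    (hG : liminf (fun u : ℝ => (G u : EReal)) atTop = (w : EReal)) :
    liminf (fun u : ℝ => (F u : EReal)) atTop = (w : EReal) := by
  refine le_antisymm ((li_le_iff w).2 fun ε hε => ?_) (li_ge fun ε hε => ?_)
  · have h2 := (li_le_iff w).1 hG.le (ε / 2) (by linarith)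
    refine (h2.and_eventually (h.eventually (gt_mem_nhds (show 0 < ε / 2 by linarith)))).mono fun u hu => ?_
    obtain ⟨hu1, hu2⟩ := hu
    linarith
  · have h3 : ((w - ε / 2 : ℝ) : EReal) < liminf (fun u : ℝ => (G u : EReal)) atTop := by
      rw [hG]
      exact EReal.coe_lt_coe_iff.2 (by linarith)
    filter_upwards [h.eventually (lt_mem_nhds (show -(ε / 2) < 0 by linarith)), ev_li h3] with u hu hu2
    linarith

theorem low_one_iff {D : Dat} (hD : IsDed M D) {a : ℝ} (ha : 1 / 2 < a) :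
    lowC (K := K) (M := M) (fun _ => 1) a = ((-WD D a : ℝ) : EReal) ↔ Hy D ∧ Cn (OD D) a := by
  haveI : Countable (HeightOneSpectrum (𝓞 M) × ℕ) := countable_idx (E := M)
  have ha0 : 0 < a := by linarith
  have h1 := FC_one_near (K := K) hD ha0
  have h2 := low1_eq_iff (ι := Unit) (κ := fun _ => HeightOneSpectrum (𝓞 M) × ℕ) (D := fun _ => D)
    (b := fun _ => bE M) (l := fun _ => lE M) (fun _ => fdE hD) ha
  have q1 : lowR (fun _ : Unit => bE M) (fun _ => lE M) (e1 Unit) a =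
      liminf (fun u : ℝ => (FG (bE M) (lE M) a u : EReal)) atTop := by
    unfold lowR RR e1
    simp
  have q2 : WR (fun _ : Unit => D) (e1 Unit) a = WD D a := by
    unfold WR e1
    simp
  have q3 : OF (fun _ : Unit => D) = OD D := by
    unfold OF OD
    simp
  rw [q1, q2, q3] at h2
  have h3 : (∀ _ : Unit, Hy D) ↔ Hy D := ⟨fun h => h (), fun h _ => h⟩
  rw [h3] at h2
  rw [← h2]
  constructor
  · intro h
    exact li_congr (F := FG (bE M) (lE M) a) (G := FC (K := K) (M := M) (fun _ => 1) a)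
      ((h1.neg.congr fun u => by ring).trans (by rw [neg_zero])) _ h
  · intro h
    exact li_congr h1 _ h

end

end Pool.Agent.H293.EXN
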