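import Pool.Agent.H293.EXN.ArtH

set_option autoImplicit false
set_option linter.unusedSectionVars false

/-!
# Project EX for Artin L-functions: the criterion
-/

namespace Pool.Agent.H293.EXN

open MeasureTheory Filter Topology Set Complex NumberField IsDedekindDomain
open Pool.Agent.Q253.NF (Dat IsDed ks)
open Pool.Agent.H541R3.ART
open Pool.Agent.H112.NF (ordA GRH)
open Pool.Agent.H293.EX
open scoped ComplexConjugate

section
variable {K M : Type} [Field K] [NumberField K] [Field M] [NumberField M] [Algebra K M] [IsGalois K M]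

theorem W_BC {D : Dat} (hD : IsDed M D) (h : Hy D) {a : ℝ} (ha : 1 / 2 < a) :
    (BC (K := K) (M := M) (fun _ => 1) 0).re / a ^ 2 + AC (BC (K := K) (M := M) fun _ => 1) a = WD D a := by
  have h1 := W_one (ι := Unit) (D := fun _ => D) (fun _ => h) ha
  have q1 : NN (fun _ : Unit => D) (e1 Unit) = mg D := by
    funext γ
    unfold NN e1
    simp
  have q2 : WR (fun _ : Unit => D) (e1 Unit) a = WD D a := by
    unfold WR e1
    simp
  rw [q1, q2] at h1
  rw [← h1, BC_one hD, ofReal_re]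
  congr 1
  · unfold bb
    simp
  · unfold AC AA
    refine tsum_congr fun γ => ?_
    rw [BC_one hD, Complex.norm_real, Real.norm_eq_abs]

/-- the central correction -/
noncomputable def K0 (κ : ((M ≃ₐ[K] M) → ℂ) → ℤ) (c : ((M ≃ₐ[K] M) → ℂ) → ℂ) : ℝ :=
  (∑ χ ∈ irrF (M ≃ₐ[K] M), (1 - c χ) * χ 1 * (κ χ : ℂ)).re

/-- no common zeros or poles away from the central point -/
def Dj (K M : Type) [Field K] [NumberField K] [Field M] [NumberField M] [Algebra K M] [IsGalois K M] : Prop :=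
  ∀ γ : ℝ, γ ≠ 0 → ∀ χ ∈ irrF (M ≃ₐ[K] M), ∀ ψ ∈ irrF (M ≃ₐ[K] M), oA χ γ ≠ 0 → oA ψ γ ≠ 0 → χ = ψ

lemma BC_real (c : ((M ≃ₐ[K] M) → ℂ) → ℂ) (γ : ℝ) :
    BC c γ = ∑ χ ∈ irrF (M ≃ₐ[K] M), c χ * (((χ 1).re * oA χ γ : ℝ) : ℂ) := by
  unfold BC
  refine Finset.sum_congr rfl fun χ hχ => ?_
  have h1 := (deg_real (mem_irrF.1 hχ)).2
  rw [ofReal_mul, ← h1]
  ring

theorem norm_BC (hj : Dj K M) {c : ((M ≃ₐ[K] M) → ℂ) → ℂ} (hc : Uni cj c) {γ : ℝ} (hγ : γ ≠ 0) :
    ‖BC c γ‖ = ‖BC (K := K) (M := M) (fun _ => 1) γ‖ := by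
  by_cases h : ∃ χ ∈ irrF (M ≃ₐ[K] M), oA χ γ ≠ 0
  · obtain ⟨χ, hχ, h1⟩ := h
    unfold BC
    rw [Finset.sum_eq_single_of_mem χ hχ, Finset.sum_eq_single_of_mem χ hχ]
    · rw [norm_mul, norm_mul, norm_mul, norm_mul, hc.1, norm_one]
    · intro ψ hψ hne
      by_cases h2 : oA ψ γ = 0
      · rw [h2, ofReal_zero, mul_zero]
      · exact absurd (hj γ hγ ψ hψ χ hχ h2 h1) hne
    · intro ψ hψ hne
      by_cases h2 : oA ψ γ = 0
      · rw [h2, ofReal_zero, mul_zero]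
      · exact absurd (hj γ hγ ψ hψ χ hχ h2 h1) hne
  · push Not at h
    unfold BC
    rw [Finset.sum_eq_zero fun χ hχ => by rw [h χ hχ, ofReal_zero, mul_zero],
      Finset.sum_eq_zero fun χ hχ => by rw [h χ hχ, ofReal_zero, mul_zero]]

theorem low_of {D : Dat} (hD : IsDed M D) (h : Hy D) (hI : LinearIndependent ℚ (fun γ : OD D => (γ : ℝ)))
    (hj : Dj K M) {κ : ((M ≃ₐ[K] M) → ℂ) → ℤ} (hκ : ∀ χ ∈ irrF (M ≃ₐ[K] M), oA χ 0 = κ χ)
    {c : ((M ≃ₐ[K] M) → ℂ) → ℂ} (hc : Uni cj c) {a : ℝ} (ha : 1 / 2 < a) :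
    lowC c a = ((-WD D a + K0 κ c / a ^ 2 : ℝ) : EReal) := by
  rw [lowC_eq hD h hI hc (by linarith), ← W_BC (K := K) hD h ha]
  have h1 : AC (BC c) a = AC (BC (K := K) (M := M) fun _ => 1) a := by
    unfold AC
    refine tsum_congr fun γ => ?_
    split_ifs with h0
    · rfl
    · rw [norm_BC hj hc h0]
  have h2 : (BC (K := K) (M := M) (fun _ => 1) 0).re - (BC c 0).re = K0 κ c := by
    unfold K0
    rw [← sub_re]
    congr 1
    unfold BC
    rw [← Finset.sum_sub_distrib]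
    refine Finset.sum_congr rfl fun χ hχ => ?_
    rw [hκ χ hχ]
    push_cast
    ring
  rw [h1, ← h2]
  congr 1
  ring

theorem norms_eq {D : Dat} (hD : IsDed M D) (h : Hy D) (hI : LinearIndependent ℚ (fun γ : OD D => (γ : ℝ)))
    {c : ((M ≃ₐ[K] M) → ℂ) → ℂ} (hc : Uni cj c) {k : ℝ}
    (hl : ∀ a : ℝ, 1 / 2 < a → -((BC c 0).re / a ^ 2) - AC (BC c) a = -WD D a + k / a ^ 2) :
    (BC c 0).re - (BC (K := K) (M := M) (fun _ => 1) 0).re + k = 0 ∧
    ∀ γ : ℝ, γ ≠ 0 → ‖BC c γ‖ = ‖BC (K := K) (M := M) (fun _ => 1) γ‖ := by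
  set B1 : ℝ → ℂ := BC (K := K) (M := M) (fun _ => 1) with hB1
  set d0 : ℝ := (BC c 0).re - (B1 0).re + k with hd0
  set d : ℝ → ℝ := fun γ => if γ = 0 then d0 else ‖BC c γ‖ - ‖B1 γ‖ with hd
  have s1 := BC_sum hD h c
  have s2 : Summable fun γ : ℝ => ‖B1 γ‖ * (2 / (1 + γ ^ 2)) := BC_sum hD h (fun _ => 1)
  have hs : Summable fun γ : ℝ => |d γ| * (2 / (1 + γ ^ 2)) := by
    have h0 : Summable fun γ : ℝ => if γ = 0 then |d0| * 2 else 0 := (hasSum_ite_eq (0 : ℝ) (|d0| * 2)).summable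
    refine Summable.of_nonneg_of_le (fun γ => by positivity) (fun γ => ?_) (h0.add (s1.add s2))
    have hp : 0 < 2 / (1 + γ ^ 2) := by positivity
    have n1 := mul_nonneg (norm_nonneg (BC c γ)) hp.le
    have n2 := mul_nonneg (norm_nonneg (B1 γ)) hp.le
    simp only [hd]
    by_cases e : γ = 0
    · rw [if_pos e, if_pos e]
      rw [e] at n1 n2 ⊢
      have : |d0| * (2 / (1 + (0 : ℝ) ^ 2)) = |d0| * 2 := by norm_num
      rw [this]
      linarith
    · rw [if_neg e, if_neg e, zero_add, ← add_mul]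
      refine mul_le_mul_of_nonneg_right ?_ hp.le
      rw [abs_le]
      have := norm_nonneg (BC c γ)
      have := norm_nonneg (B1 γ)
      constructor <;> linarith
  have hev : ∀ γ, d (-γ) = d γ := by
    intro γ
    simp only [hd, neg_eq_zero]
    by_cases e : γ = 0
    · rw [if_pos e, if_pos e]
    · rw [if_neg e, if_neg e, BC_conj hc, hB1, BC_conj one_uni, RCLike.norm_conj, RCLike.norm_conj]
  have hz : ∀ a : ℝ, 1 / 2 < a → ∑' γ : ℝ, d γ / (a ^ 2 + γ ^ 2) = 0 := by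
    intro a ha
    have ha0 : 0 < a := by linarith
    have h1 : HasSum (fun γ : ℝ => (if γ = 0 then d0 / a ^ 2 else 0) +
        ((if γ = 0 then 0 else ‖BC c γ‖ / (a ^ 2 + γ ^ 2)) - if γ = 0 then 0 else ‖B1 γ‖ / (a ^ 2 + γ ^ 2)))
        (d0 / a ^ 2 + (AC (BC c) a - AC B1 a)) :=
      (hasSum_ite_eq (0 : ℝ) (d0 / a ^ 2)).add ((offc_sum s1 ha0).hasSum.sub (offc_sum s2 ha0).hasSum)
    have h2 : (fun γ : ℝ => d γ / (a ^ 2 + γ ^ 2)) = fun γ : ℝ => (if γ = 0 then d0 / a ^ 2 else 0) +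
        ((if γ = 0 then 0 else ‖BC c γ‖ / (a ^ 2 + γ ^ 2)) - if γ = 0 then 0 else ‖B1 γ‖ / (a ^ 2 + γ ^ 2)) := by
      funext γ
      simp only [hd]
      by_cases e : γ = 0
      · simp only [if_pos e, sub_zero, add_zero]
        rw [e]
        norm_num
      · simp only [if_neg e, zero_add]
        rw [sub_div]
    rw [h2, h1.tsum_eq]
    have h3 := hl a ha
    have h4 := W_BC (K := K) hD h ha
    rw [← hB1] at h4
    have h5 : d0 / a ^ 2 = (BC c 0).re / a ^ 2 - (B1 0).re / a ^ 2 + k / a ^ 2 := by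
      rw [hd0]
      ring
    rw [h5]
    linarith
  have hu := uniq hs hev hz
  constructor
  · have h1 := hu 0
    simpa [hd] using h1
  · intro γ hγ
    have h1 := hu γ
    simp only [hd, if_neg hγ] at h1
    linarith

theorem dj_of {D : Dat} (hD : IsDed M D) (h : Hy D) (hI : LinearIndependent ℚ (fun γ : OD D => (γ : ℝ)))
    (hn : ∀ c : ((M ≃ₐ[K] M) → ℂ) → ℂ, Uni cj c → ∀ γ : ℝ, γ ≠ 0 →
      ‖BC c γ‖ = ‖BC (K := K) (M := M) (fun _ => 1) γ‖) : Dj K M := by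
  classical
  intro γ hγ χ hχ ψ hψ h1 h2
  refine comb (irrF (M ≃ₐ[K] M)) cj cj_cj (fun φ hφ => mem_irrF.2 (cj_irr (mem_irrF.1 hφ)))
    (fun φ => (φ 1).re * oA φ γ) (fun c hc => ?_) χ hχ ψ hψ ?_ ?_
  · have h3 := hn c hc γ hγ
    rw [BC_real, BC_real] at h3
    simp only [one_mul] at h3
    rw [h3, ← ofReal_sum, Complex.norm_real, Real.norm_eq_abs]
  · exact mul_ne_zero (deg_real (mem_irrF.1 hχ)).1.ne' h1
  · exact mul_ne_zero (deg_real (mem_irrF.1 hψ)).1.ne' h2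

theorem core {D : Dat} (hD : IsDed M D) (κ : ((M ≃ₐ[K] M) → ℂ) → ℤ) (hκ : ∀ χ ∈ irrF (M ≃ₐ[K] M), κ (cj χ) = κ χ) :
    (∀ c : ((M ≃ₐ[K] M) → ℂ) → ℂ, Uni cj c → ∀ a : ℝ, 1 / 2 < a →
      lowC c a = ((-WD D a + K0 κ c / a ^ 2 : ℝ) : EReal)) ↔
    Hy D ∧ LinearIndependent ℚ (fun γ : OD D => (γ : ℝ)) ∧ Dj K M ∧ ∀ χ ∈ irrF (M ≃ₐ[K] M), oA χ 0 = κ χ := by
  classical
  constructor
  · intro h
    have h1 : ∀ a : ℝ, 1 / 2 < a → lowC (K := K) (M := M) (fun _ => 1) a = ((-WD D a : ℝ) : EReal) := by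
      intro a ha
      rw [h _ one_uni a ha]
      congr 1
      unfold K0
      simp
    have h2 : Hy D := ((low_one_iff (K := K) hD (a := 1) (by norm_num)).1 (h1 1 (by norm_num))).1
    have h3 : LinearIndependent ℚ (fun γ : OD D => (γ : ℝ)) :=
      li_of_inf (fun γ hγ => hγ.1) ((Set.Ioi_infinite (1 / 2 : ℝ)).mono fun a ha => by
        have ha' : 1 / 2 < a := ha
        exact ⟨by linarith, ((low_one_iff (K := K) hD ha').1 (h1 a ha')).2⟩)
    have key : ∀ c : ((M ≃ₐ[K] M) → ℂ) → ℂ, Uni cj c →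
        (BC c 0).re - (BC (K := K) (M := M) (fun _ => 1) 0).re + K0 κ c = 0 ∧
        ∀ γ : ℝ, γ ≠ 0 → ‖BC c γ‖ = ‖BC (K := K) (M := M) (fun _ => 1) γ‖ := by
      intro c hc
      refine norms_eq hD h2 h3 hc fun a ha => ?_
      have h4 := h c hc a ha
      rw [lowC_eq hD h2 h3 hc (by linarith), EReal.coe_eq_coe_iff] at h4
      exact h4
    refine ⟨h2, h3, dj_of hD h2 h3 fun c hc => (key c hc).2, fun χ hχ => ?_⟩
    set c : ((M ≃ₐ[K] M) → ℂ) → ℂ := fun ψ => if ψ = χ ∨ ψ = cj χ then -1 else 1 with hcdef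
    have horb : ∀ ψ : (M ≃ₐ[K] M) → ℂ, (cj ψ = χ ∨ cj ψ = cj χ) ↔ (ψ = χ ∨ ψ = cj χ) := by
      intro ψ
      constructor
      · rintro (h1 | h1)
        · right
          rw [← h1, cj_cj]
        · left
          rw [← cj_cj ψ, h1, cj_cj]
      · rintro (h1 | h1)
        · right
          rw [h1]
        · left
          rw [h1, cj_cj]
    have hc : Uni cj c := by
      constructor
      · intro ψ
        simp only [hcdef]
        split_ifs <;> simp
      · intro ψ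
        simp only [hcdef, horb ψ]
        split_ifs <;> simp
    have h4 := (key c hc).1
    have h5 : (BC c 0).re - (BC (K := K) (M := M) (fun _ => 1) 0).re + K0 κ c =
        ∑ ψ ∈ irrF (M ≃ₐ[K] M), if ψ = χ ∨ ψ = cj χ then -2 * ((χ 1).re * (oA χ 0 - κ χ)) else 0 := by
      unfold K0 BC
      rw [← sub_re, ← add_re, ← Finset.sum_sub_distrib, ← Finset.sum_add_distrib, Complex.re_sum]
      refine Finset.sum_congr rfl fun ψ hψ => ?_
      simp only [hcdef]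
      by_cases e : ψ = χ ∨ ψ = cj χ
      · have e2 : (ψ 1) = (((χ 1).re : ℝ) : ℂ) ∧ oA ψ 0 = oA χ 0 ∧ κ ψ = κ χ := by
          rcases e with e | e
          · rw [e]
            exact ⟨(deg_real (mem_irrF.1 hχ)).2, rfl, rfl⟩
          · rw [e]
            refine ⟨?_, ?_, hκ χ hχ⟩
            · unfold cj
              rw [(deg_real (mem_irrF.1 hχ)).2, conj_ofReal, ofReal_re]
            · rw [oA_cj (mem_irrF.1 hχ), neg_zero]
        obtain ⟨e3, e4, e5⟩ := e2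
        rw [if_pos e, if_pos e, e3, e4, e5]
        have e6 : (-1 : ℂ) * (((χ 1).re : ℝ) : ℂ) * ((oA χ 0 : ℝ) : ℂ) - 1 * (((χ 1).re : ℝ) : ℂ) * ((oA χ 0 : ℝ) : ℂ) +
            (1 - -1) * (((χ 1).re : ℝ) : ℂ) * ((κ χ : ℤ) : ℂ) =
            ((-2 * ((χ 1).re * (oA χ 0 - κ χ)) : ℝ) : ℂ) := by
          push_cast
          ring
        rw [e6, ofReal_re]
      · rw [if_neg e, if_neg e]
        simp
    rw [h5, ← Finset.sum_filter, Finset.sum_const, nsmul_eq_mul] at h4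
    have h6 : 0 < ((irrF (M ≃ₐ[K] M)).filter fun ψ => ψ = χ ∨ ψ = cj χ).card :=
      Finset.card_pos.2 ⟨χ, Finset.mem_filter.2 ⟨hχ, Or.inl rfl⟩⟩
    have h7 := (mul_eq_zero.1 h4).resolve_left (by exact_mod_cast h6.ne')
    have h8 := (mul_eq_zero.1 h7).resolve_left (by norm_num)
    have h9 := (mul_eq_zero.1 h8).resolve_left (deg_real (mem_irrF.1 hχ)).1.ne'
    linarith
  · rintro ⟨h1, h2, h3, h4⟩ c hc a ha
    exact low_of hD h1 h2 h3 h4 hc ha

/-- the Riemann hypothesis -/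
theorem hy_of_grh {D : Dat} (hD : IsDed M D) (h : ∀ χ ∈ irrF (M ≃ₐ[K] M), GRH χ) : Hy D := by
  classical
  have key : ∀ a : ℂ, 0 < a.re → D.m a = 0 := by
    intro a ha
    by_cases h1 : a = 1 / 2
    · rw [h1, m_half hD]
    · have hs : 1 / 2 < (a + 1 / 2).re := by
        rw [add_re]
        norm_num
        exact ha
      have h3 : a + 1 / 2 ≠ 1 := by
        intro h4
        apply h1
        linear_combination h4
      have h5 := deg_sum (K := K) hD (s := a + 1 / 2) (by linarith) h3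
      rw [add_sub_cancel_right] at h5
      have h6 : (theta (fun χ => ordA χ (a + 1 / 2)) : (M ≃ₐ[K] M) → ℂ) 1 = 0 := by
        unfold theta
        refine Finset.sum_eq_zero fun χ hχ => ?_
        beta_reduce
        rw [h χ hχ _ hs, if_neg (fun e => h3 e.1), Int.cast_zero, zero_mul]
      rw [h6] at h5
      exact_mod_cast h5.symm
  intro a ha
  rcases lt_or_gt_of_ne ha with h1 | h1
  · rw [← hD.m_neg]
    exact key (-a) (by rw [neg_re]; linarith)
  · exact key a h1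

theorem artin_of {D : Dat} (hD : IsDed M D) (hj : Dj K M) {γ : ℝ} (hγ : γ ≠ 0) {χ : (M ≃ₐ[K] M) → ℂ}
    (hχ : χ ∈ irrF (M ≃ₐ[K] M)) : 0 ≤ oA χ γ := by
  by_contra hn
  have hne : oA χ γ ≠ 0 := by
    intro h0
    exact hn h0.ge
  have h1 := BC_one (K := K) hD γ
  rw [BC_real, Finset.sum_eq_single_of_mem χ hχ] at h1
  · rw [one_mul] at h1
    have h2 : (χ 1).re * oA χ γ = mg D γ := by exact_mod_cast h1
    have h3 := mg_nonneg D γ
    have h4 := (deg_real (mem_irrF.1 hχ)).1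
    nlinarith [not_le.1 hn]
  · intro ψ hψ hne2
    by_cases h2 : oA ψ γ = 0
    · rw [h2]
      simp
    · exact absurd (hj γ hγ ψ hψ χ hχ h2 hne) hne2

theorem OD_A {D : Dat} (hD : IsDed M D) :
    {γ : ℝ | 0 < γ ∧ ∃ χ ∈ irrF (M ≃ₐ[K] M), oA χ γ ≠ 0} = OD D := by
  ext γ
  unfold OD
  simp only [Set.mem_ofPred_eq]
  refine and_congr Iff.rfl ⟨?_, ?_⟩
  · rintro ⟨χ, hχ, h⟩ h0
    exact h (oA_zero hD h0 (mem_irrF.1 hχ))
  · intro h
    by_contra hn
    push Not at hn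
    have h1 := BC_one (K := K) hD γ
    unfold BC at h1
    rw [Finset.sum_eq_zero fun χ hχ => by rw [hn χ hχ, ofReal_zero, mul_zero]] at h1
    exact h (by exact_mod_cast h1.symm)

end

end Pool.Agent.H293.EXN
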