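import Pool.Agent.H293.EXN.ArtI

set_option autoImplicit false
set_option linter.unusedSectionVars false

/-!
# Project EX for Artin L-functions: the criterion for entire L-functions
-/

namespace Pool.Agent.H293.EXN

open MeasureTheory Filter Topology Set Complex NumberField IsDedekindDomain
open Pool.Agent.Q253.NF (Dat IsDed ks)
open Pool.Agent.H541R3.ART
open Pool.Agent.H112.NF (ordA GRH)
open Pool.Agent.H293.EX
open scoped ComplexConjugate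

section
variable {K M : Type} [Field K] [NumberField K] [Field M] [NumberField M] [Algebra K M] [IsGalois K M]

theorem central_of {κ : ((M ≃ₐ[K] M) → ℂ) → ℤ} (hκ : ∀ χ ∈ irrF (M ≃ₐ[K] M), κ (cj χ) = κ χ)
    (key : ∀ c : ((M ≃ₐ[K] M) → ℂ) → ℂ, Uni cj c →
        (BC c 0).re - (BC (K := K) (M := M) (fun _ => 1) 0).re + K0 κ c = 0) {χ : (M ≃ₐ[K] M) → ℂ}
    (hχ : χ ∈ irrF (M ≃ₐ[K] M)) : oA χ 0 = κ χ := by
  classical
  set c : ((M ≃ₐ[K] M) → ℂ) → ℂ := fun ψ => if ψ = χ ∨ ψ = cj χ then -1 else 1 with hcdef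
  have horb : ∀ ψ : (M ≃ₐ[K] M) → ℂ, (cj ψ = χ ∨ cj ψ = cj χ) ↔ (ψ = χ ∨ ψ = cj χ) := by
    intro ψ
    constructor
    · rintro (h1 | h1)
      · right
        rw [← h1, cj_cj]
      · left
        rw [← cj_cj ψ, h1, cj_cj]
    · rintro (h1 | h1)
      · right
        rw [h1]
      · left
        rw [h1, cj_cj]
  have hc : Uni cj c := by
    constructor
    · intro ψ
      simp only [hcdef]
      split_ifs <;> simp
    · intro ψ
      simp only [hcdef, horb ψ]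
      split_ifs <;> simp
  have h4 := key c hc
  have h5 : (BC c 0).re - (BC (K := K) (M := M) (fun _ => 1) 0).re + K0 κ c =
      ∑ ψ ∈ irrF (M ≃ₐ[K] M), if ψ = χ ∨ ψ = cj χ then -2 * ((χ 1).re * (oA χ 0 - κ χ)) else 0 := by
    unfold K0 BC
    rw [← sub_re, ← add_re, ← Finset.sum_sub_distrib, ← Finset.sum_add_distrib, Complex.re_sum]
    refine Finset.sum_congr rfl fun ψ hψ => ?_
    simp only [hcdef]
    by_cases e : ψ = χ ∨ ψ = cj χ
    · have e2 : (ψ 1) = (((χ 1).re : ℝ) : ℂ) ∧ oA ψ 0 = oA χ 0 ∧ κ ψ = κ χ := by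
        rcases e with e | e
        · rw [e]
          exact ⟨(deg_real (mem_irrF.1 hχ)).2, rfl, rfl⟩
        · rw [e]
          refine ⟨?_, ?_, hκ χ hχ⟩
          · unfold cj
            rw [(deg_real (mem_irrF.1 hχ)).2, conj_ofReal, ofReal_re]
          · rw [oA_cj (mem_irrF.1 hχ), neg_zero]
      obtain ⟨e3, e4, e5⟩ := e2
      rw [if_pos e, if_pos e, e3, e4, e5]
      have e6 : (-1 : ℂ) * (((χ 1).re : ℝ) : ℂ) * ((oA χ 0 : ℝ) : ℂ) - 1 * (((χ 1).re : ℝ) : ℂ) * ((oA χ 0 : ℝ) : ℂ) +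
          (1 - -1) * (((χ 1).re : ℝ) : ℂ) * ((κ χ : ℤ) : ℂ) =
          ((-2 * ((χ 1).re * (oA χ 0 - κ χ)) : ℝ) : ℂ) := by
        push_cast
        ring
      rw [e6, ofReal_re]
    · rw [if_neg e, if_neg e]
      simp
  rw [h5, ← Finset.sum_filter, Finset.sum_const, nsmul_eq_mul] at h4
  have h6 : 0 < ((irrF (M ≃ₐ[K] M)).filter fun ψ => ψ = χ ∨ ψ = cj χ).card :=
    Finset.card_pos.2 ⟨χ, Finset.mem_filter.2 ⟨hχ, Or.inl rfl⟩⟩
  have h7 := (mul_eq_zero.1 h4).resolve_left (by exact_mod_cast h6.ne')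
  have h8 := (mul_eq_zero.1 h7).resolve_left (by norm_num)
  have h9 := (mul_eq_zero.1 h8).resolve_left (deg_real (mem_irrF.1 hχ)).1.ne'
  linarith

/-- the twisted multiplicities are at most the untwisted ones, if there are no poles -/
theorem norm_le_one {γ : ℝ} (hA : ∀ χ ∈ irrF (M ≃ₐ[K] M), 0 ≤ oA χ γ) {c : ((M ≃ₐ[K] M) → ℂ) → ℂ} (hc : Uni cj c) :
    ‖BC c γ‖ ≤ ‖BC (K := K) (M := M) (fun _ => 1) γ‖ := by
  have h0 : ∀ χ ∈ irrF (M ≃ₐ[K] M), 0 ≤ (χ 1).re * oA χ γ := fun χ hχ =>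
    mul_nonneg (deg_real (mem_irrF.1 hχ)).1.le (hA χ hχ)
  rw [BC_real c, BC_real fun _ => 1]
  simp only [one_mul]
  rw [← ofReal_sum, Complex.norm_real, Real.norm_of_nonneg (Finset.sum_nonneg h0)]
  refine (norm_sum_le _ _).trans (Finset.sum_le_sum fun χ hχ => ?_)
  rw [norm_mul, hc.1, one_mul, Complex.norm_real, Real.norm_of_nonneg (h0 χ hχ)]

theorem two_values {D : Dat} (hD : IsDed M D) (h : Hy D)
    (hA : ∀ χ ∈ irrF (M ≃ₐ[K] M), ∀ γ : ℝ, γ ≠ 0 → 0 ≤ oA χ γ)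
    {c : ((M ≃ₐ[K] M) → ℂ) → ℂ} (hc : Uni cj c) {k a b : ℝ} (ha : 1 / 2 < a) (hab : a < b)
    (hla : -((BC c 0).re / a ^ 2) - AC (BC c) a = -WD D a + k / a ^ 2)
    (hlb : -((BC c 0).re / b ^ 2) - AC (BC c) b = -WD D b + k / b ^ 2) :
    (BC c 0).re - (BC (K := K) (M := M) (fun _ => 1) 0).re + k = 0 ∧
    ∀ γ : ℝ, γ ≠ 0 → ‖BC c γ‖ = ‖BC (K := K) (M := M) (fun _ => 1) γ‖ := by
  set B1 : ℝ → ℂ := BC (K := K) (M := M) (fun _ => 1) with hB1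
  set d0 : ℝ := (BC c 0).re - (B1 0).re + k with hd0
  set δ : ℝ → ℝ := fun γ => ‖B1 γ‖ - ‖BC c γ‖ with hδ
  have s1 := BC_sum hD h c
  have s2 : Summable fun γ : ℝ => ‖B1 γ‖ * (2 / (1 + γ ^ 2)) := BC_sum hD h (fun _ => 1)
  have hδ0 : ∀ γ : ℝ, γ ≠ 0 → 0 ≤ δ γ := by
    intro γ hγ
    have := norm_le_one (K := K) (M := M) (γ := γ) (fun χ hχ => hA χ hχ γ hγ) hc
    simp only [hδ]
    linarith
  have hz : ∀ t : ℝ, 1 / 2 < t → -((BC c 0).re / t ^ 2) - AC (BC c) t = -WD D t + k / t ^ 2 →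
      HasSum (fun γ : ℝ => if γ = 0 then 0 else t ^ 2 * (δ γ / (t ^ 2 + γ ^ 2))) d0 := by
    intro t ht hl
    have ht0 : 0 < t := by linarith
    have h1 : HasSum (fun γ : ℝ => t ^ 2 * ((if γ = 0 then 0 else ‖B1 γ‖ / (t ^ 2 + γ ^ 2)) -
        if γ = 0 then 0 else ‖BC c γ‖ / (t ^ 2 + γ ^ 2))) (t ^ 2 * (AC B1 t - AC (BC c) t)) :=
      ((offc_sum s2 ht0).hasSum.sub (offc_sum s1 ht0).hasSum).mul_left _
    have h2 : (fun γ : ℝ => if γ = 0 then 0 else t ^ 2 * (δ γ / (t ^ 2 + γ ^ 2))) =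
        fun γ : ℝ => t ^ 2 * ((if γ = 0 then 0 else ‖B1 γ‖ / (t ^ 2 + γ ^ 2)) -
        if γ = 0 then 0 else ‖BC c γ‖ / (t ^ 2 + γ ^ 2)) := by
      funext γ
      by_cases e : γ = 0
      · simp only [if_pos e, sub_self, mul_zero]
      · simp only [if_neg e, hδ]
        rw [sub_div]
    have h4 := W_BC (K := K) hD h ht
    rw [← hB1] at h4
    have h5 : t ^ 2 * (AC B1 t - AC (BC c) t) = d0 := by
      have h6 : AC B1 t - AC (BC c) t = ((BC c 0).re - (B1 0).re + k) / t ^ 2 := by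
        rw [add_div, sub_div]
        linarith
      rw [h6, hd0]
      field_simp
    rw [h2, ← h5]
    exact h1
  have hb : 1 / 2 < b := by linarith
  have h1 := hz a ha hla
  have h2 := hz b hb hlb
  have h3 := h2.sub h1
  rw [sub_self] at h3
  have hnn : ∀ γ : ℝ, 0 ≤ (if γ = 0 then 0 else b ^ 2 * (δ γ / (b ^ 2 + γ ^ 2))) -
      (if γ = 0 then 0 else a ^ 2 * (δ γ / (a ^ 2 + γ ^ 2))) := by
    intro γ
    by_cases e : γ = 0
    · simp only [if_pos e, sub_self, le_refl]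
    · simp only [if_neg e]
      have e1 : b ^ 2 * (δ γ / (b ^ 2 + γ ^ 2)) - a ^ 2 * (δ γ / (a ^ 2 + γ ^ 2)) =
          δ γ * (γ ^ 2 * (b ^ 2 - a ^ 2)) / ((b ^ 2 + γ ^ 2) * (a ^ 2 + γ ^ 2)) := by
        have n1 : b ^ 2 + γ ^ 2 ≠ 0 := by positivity
        have n2 : a ^ 2 + γ ^ 2 ≠ 0 := by positivity
        field_simp
        ring
      rw [e1]
      have h5 : 0 ≤ b ^ 2 - a ^ 2 := by nlinarith
      exact div_nonneg (mul_nonneg (hδ0 γ e) (mul_nonneg (sq_nonneg γ) h5)) (by positivity)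
  have h4 := (hasSum_zero_iff_of_nonneg hnn).1 h3
  have h5 : ∀ γ : ℝ, γ ≠ 0 → δ γ = 0 := by
    intro γ e
    have h6 := congrFun h4 γ
    simp only [if_neg e, Pi.zero_apply] at h6
    have e1 : b ^ 2 * (δ γ / (b ^ 2 + γ ^ 2)) - a ^ 2 * (δ γ / (a ^ 2 + γ ^ 2)) =
        δ γ * ((γ ^ 2 * (b ^ 2 - a ^ 2)) / ((b ^ 2 + γ ^ 2) * (a ^ 2 + γ ^ 2))) := by
      have n1 : b ^ 2 + γ ^ 2 ≠ 0 := by positivity
      have n2 : a ^ 2 + γ ^ 2 ≠ 0 := by positivity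
      field_simp
      ring
    rw [e1] at h6
    refine (mul_eq_zero.1 h6).resolve_right ?_
    have h7 : 0 < b ^ 2 - a ^ 2 := by nlinarith
    positivity
  constructor
  · have h6 : (fun γ : ℝ => if γ = 0 then 0 else a ^ 2 * (δ γ / (a ^ 2 + γ ^ 2))) = fun _ => 0 := by
      funext γ
      by_cases e : γ = 0
      · rw [if_pos e]
      · rw [if_neg e, h5 γ e]
        simp
    rw [h6] at h1
    exact h1.unique hasSum_zero
  · intro γ hγ
    have := h5 γ hγ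
    simp only [hδ] at this
    linarith

theorem core2 {D : Dat} (hD : IsDed M D) (hA : ∀ χ ∈ irrF (M ≃ₐ[K] M), ∀ γ : ℝ, γ ≠ 0 → 0 ≤ oA χ γ)
    (κ : ((M ≃ₐ[K] M) → ℂ) → ℤ) (hκ : ∀ χ ∈ irrF (M ≃ₐ[K] M), κ (cj χ) = κ χ) :
    (∀ c : ((M ≃ₐ[K] M) → ℂ) → ℂ, Uni cj c →
      {a : ℝ | 1 / 2 < a ∧ lowC c a = ((-WD D a + K0 κ c / a ^ 2 : ℝ) : EReal)}.Infinite) ↔
    Hy D ∧ LinearIndependent ℚ (fun γ : OD D => (γ : ℝ)) ∧ Dj K M ∧ ∀ χ ∈ irrF (M ≃ₐ[K] M), oA χ 0 = κ χ := by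
  classical
  constructor
  · intro h
    have hK1 : K0 κ (fun _ : (M ≃ₐ[K] M) → ℂ => (1 : ℂ)) = 0 := by
      unfold K0
      simp
    have h1 : ∀ a : ℝ, 1 / 2 < a ∧ lowC (K := K) (M := M) (fun _ => 1) a =
        ((-WD D a + K0 κ (fun _ => 1) / a ^ 2 : ℝ) : EReal) → Hy D ∧ Cn (OD D) a := by
      rintro a ⟨ha, h2⟩
      rw [hK1, zero_div, add_zero] at h2
      exact (low_one_iff (K := K) hD ha).1 h2
    have h0 := h (fun _ => 1) one_uni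
    obtain ⟨a0, ha0⟩ := h0.nonempty
    have h2 : Hy D := (h1 a0 ha0).1
    have h3 : LinearIndependent ℚ (fun γ : OD D => (γ : ℝ)) :=
      li_of_inf (fun γ hγ => hγ.1) (h0.mono fun a ha => ⟨by have := ha.1; linarith, (h1 a ha).2⟩)
    have key : ∀ c : ((M ≃ₐ[K] M) → ℂ) → ℂ, Uni cj c →
        (BC c 0).re - (BC (K := K) (M := M) (fun _ => 1) 0).re + K0 κ c = 0 ∧
        ∀ γ : ℝ, γ ≠ 0 → ‖BC c γ‖ = ‖BC (K := K) (M := M) (fun _ => 1) γ‖ := by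
      intro c hc
      obtain ⟨a, ha, b, hb, hne⟩ := (h c hc).nontrivial
      have hval : ∀ t : ℝ, (1 / 2 < t ∧ lowC c t = ((-WD D t + K0 κ c / t ^ 2 : ℝ) : EReal)) →
          -((BC c 0).re / t ^ 2) - AC (BC c) t = -WD D t + K0 κ c / t ^ 2 := by
        rintro t ⟨ht, h4⟩
        rw [lowC_eq hD h2 h3 hc (by linarith), EReal.coe_eq_coe_iff] at h4
        exact h4
      rcases lt_or_gt_of_ne hne with hlt | hlt
      · exact two_values hD h2 hA hc ha.1 hlt (hval a ha) (hval b hb)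
      · exact two_values hD h2 hA hc hb.1 hlt (hval b hb) (hval a ha)
    exact ⟨h2, h3, dj_of hD h2 h3 fun c hc => (key c hc).2, fun χ hχ => central_of hκ (fun c hc => (key c hc).1) hχ⟩
  · rintro ⟨h1, h2, h3, h4⟩ c hc
    exact (Set.Ioi_infinite (1 / 2 : ℝ)).mono fun a ha => ⟨ha, low_of hD h1 h2 h3 h4 hc ha⟩

end

end Pool.Agent.H293.EXN
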