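import Pool.Agent.H112.NF.VF
import Pool.Agent.H734.NF.EF
import Pool.Agent.H293.EX.PH

set_option autoImplicit false

/-!
# Project EX for number fields: the zeros of one L-function
-/

namespace Pool.Agent.H293.EXN

open MeasureTheory Filter Topology Set Complex
open Pool.Agent.Q253.NF Pool.Agent.H293.EX
open scoped ComplexConjugate

theorem ef : S_EF := Pool.Agent.H734.NF.ef Pool.Agent.H112.NF.pf

/-- all zeros on the line -/
def Hy (D : Dat) : Prop := ∀ a : ℂ, a.re ≠ 0 → D.m a = 0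

/-- the multiplicities on the line -/
noncomputable def mg (D : Dat) (γ : ℝ) : ℝ := (D.m (γ * I) : ℝ)

lemma mg_nonneg (D : Dat) (γ : ℝ) : 0 ≤ mg D γ := Nat.cast_nonneg _

lemma nn_one (D : Dat) (a : ℂ) : nn (fun _ : Unit => D) (fun _ => 1) a = (D.m a : ℤ) := by
  unfold nn
  simp

lemma hyp_one {D : Dat} (h : Hy D) : Hyp (fun _ : Unit => D) (fun _ => 1) := fun a ha => by
  rw [nn_one, h a ha]
  rfl

theorem line_sum {D : Dat} (h : Hy D) : Summable (fun γ : ℝ => mg D γ * (2 / (1 + γ ^ 2))) := by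
  have h1 := (Pool.Agent.H112.NF.vf Unit (fun _ => D) (fun _ => 1) (hyp_one h)).1
  refine (h1.mul_left 2).congr fun γ => ?_
  rw [nn_one]
  unfold mg
  push_cast
  rw [Nat.abs_cast]
  ring

theorem line_Z {D : Dat} (h : Hy D) (u : ℝ) :
    D.Z u = ∑' γ : ℝ, ((mg D γ * (2 / (1 + γ ^ 2)) : ℝ) : ℂ) * cexp (I * γ * u) := by
  have h1 := (Pool.Agent.H112.NF.vf Unit (fun _ => D) (fun _ => 1) (hyp_one h)).2.2.2 u
  simp only [Finset.univ_unique, Finset.sum_singleton, Int.cast_one, one_mul] at h1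
  rw [h1]
  refine tsum_congr fun γ => ?_
  rw [nn_one]
  unfold mg
  push_cast
  ring

theorem line_Z_re {D : Dat} (h : Hy D) (u : ℝ) :
    (D.Z u).re = ∑' γ : ℝ, mg D γ * (2 / (1 + γ ^ 2) * Real.cos (γ * u)) := by
  rw [line_Z h]
  have hs : Summable fun γ : ℝ => ((mg D γ * (2 / (1 + γ ^ 2)) : ℝ) : ℂ) * cexp (I * γ * u) := by
    refine Summable.of_norm_bounded (line_sum h) fun γ => ?_
    rw [norm_mul, norm_e, mul_one, Complex.norm_real, Real.norm_of_nonneg]
    exact mul_nonneg (mg_nonneg D γ) (by positivity)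
  rw [Complex.re_tsum hs]
  refine tsum_congr fun γ => ?_
  rw [re_ofReal_mul, show (I * γ * u : ℂ) = ((γ * u : ℝ) : ℂ) * I by push_cast; ring, exp_ofReal_mul_I_re]
  ring

lemma refl_real (D : Dat) (x : ℝ) : logDeriv D.X (-(x : ℂ)) = -conj (logDeriv D.X x) := by
  have h0 : D.X (-(x : ℂ)) = conj (D.X x) := by
    have := D.sym x
    rwa [conj_ofReal] at this
  have h1 : D.X = conj ∘ (fun w => D.X (-w)) ∘ conj := by
    funext z
    simp only [Function.comp_apply]
    rw [D.sym, Complex.conj_conj]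
  have h2 : HasDerivAt (fun w => D.X (-w)) (-deriv D.X (-(x : ℂ))) x := by
    have h3 := (D.diff (-(x : ℂ))).hasDerivAt
    have h4 : HasDerivAt (fun w => D.X (-w)) (deriv D.X (-(x : ℂ)) * -1) x :=
      HasDerivAt.comp (x : ℂ) (h₂ := D.X) (h := fun w : ℂ => -w) h3 (hasDerivAt_neg (x : ℂ))
    rwa [mul_neg_one] at h4
  have h5 := h2.conj_conj
  rw [← h1, conj_ofReal] at h5
  have h6 := h5.deriv
  have h7 : deriv D.X (-(x : ℂ)) = -conj (deriv D.X x) := by
    rw [h6, map_neg, map_neg, Complex.conj_conj, neg_neg]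
  rw [logDeriv_apply, logDeriv_apply, h0, h7, map_div₀, neg_div]

/-- partial fractions -/
theorem pf_line {D : Dat} (h : Hy D) {a : ℝ} (ha : 1 / 2 < a) :
    ∑' γ : ℝ, bb (mg D) a γ = (logDeriv D.X (a : ℂ)).re / a := by
  have ha0 : 0 < a := by linarith
  have hz : 1 / 2 < |((a : ℂ)).re| := by rw [ofReal_re, abs_of_pos ha0]; exact ha
  have hw : 1 / 2 < |(-(a : ℂ)).re| := by rw [neg_re, ofReal_re, abs_neg, abs_of_pos ha0]; exact ha
  have h1 := Pool.Agent.H112.NF.main D hz hw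
  rw [refl_real, sub_neg_eq_add, Complex.add_conj] at h1
  have h2 := Pool.Agent.H112.NF.lin (fun _ : Unit => D) (fun _ => 1) (hyp_one h)
    (fun b => 1 / ((a : ℂ) - b) - 1 / (-(a : ℂ) - b)) fun _ => Pool.Agent.H112.NF.sum_term D hz hw
  simp only [Finset.univ_unique, Finset.sum_singleton, Int.cast_one, one_mul] at h2
  rw [h2] at h1
  have h3 : ∀ γ : ℝ, ((nn (fun _ : Unit => D) (fun _ => 1) (γ * I) : ℤ) : ℂ) *
      (1 / ((a : ℂ) - γ * I) - 1 / (-(a : ℂ) - γ * I)) = ((2 * a * bb (mg D) a γ : ℝ) : ℂ) := by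
    intro γ
    rw [nn_one]
    have n1 := ne_p ha0 γ
    have n2 := ne_m ha0 γ
    have n3 : -(a : ℂ) - γ * I ≠ 0 := by
      intro h
      apply n1
      linear_combination -h
    have h4 : ((a ^ 2 + γ ^ 2 : ℝ) : ℂ) = ((a : ℂ) + γ * I) * ((a : ℂ) - γ * I) := by
      push_cast
      ring_nf
      rw [I_sq]
      ring
    have h5 : (1 / (-(a : ℂ) - γ * I)) = -(1 / ((a : ℂ) + γ * I)) := by
      rw [show (-(a : ℂ) - γ * I) = -((a : ℂ) + γ * I) by ring, div_neg]
    unfold bb mg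
    rw [h5, ofReal_mul, ofReal_div, h4]
    push_cast
    field_simp
    ring
  simp only [h3] at h1
  rw [← ofReal_tsum, tsum_mul_left] at h1
  have h5 : 2 * (logDeriv D.X (a : ℂ)).re = 2 * a * ∑' γ : ℝ, bb (mg D) a γ := by exact_mod_cast h1
  rw [eq_div_iff ha0.ne']
  linarith

end Pool.Agent.H293.EXN
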