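import Pool.Agent.H293.EXN.Sgn

set_option autoImplicit false

/-!
# Project EX for number fields: finite families of L-functions
-/

namespace Pool.Agent.H293.EXN

open MeasureTheory Filter Topology Set Complex
open Pool.Agent.Q253.NF (Dat)
open Pool.Agent.H293.EX Pool.Agent.Q14.LQ
open scoped ComplexConjugate

section key
variable {κ : Type} {D : Dat} {b l : κ → ℝ}

/-- the correction term -/
noncomputable def HH (D : Dat) (b l : κ → ℝ) (a : ℝ) (z : ℂ) : ℂ :=
  2 * D.A + 2 * D.m0 * logDeriv Gammaℝ (1 / 2 + z) + 2 * D.m1 * logDeriv Gammaℝ (3 / 2 + z) +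
    2 / (z + 1 / 2) - (1 + z) * (D.S 1 - ∑' k, (b k : ℂ) * cexp (-1 * (l k : ℂ))) -
    2 * (z + 2 * a + 1 / 2) / (a + 1 / 2) ^ 2

lemma HH_diff (a : ℝ) {z : ℂ} (hz : 0 < z.re) : DifferentiableAt ℂ (HH D b l a) z := by
  have h1 : 0 < (1 / 2 + z).re := by
    rw [add_re]
    have : ((1 : ℂ) / 2).re = 1 / 2 := by norm_num
    rw [this]
    linarith
  have h2 : 0 < (3 / 2 + z).re := by
    rw [add_re]
    have : ((3 : ℂ) / 2).re = 3 / 2 := by norm_num
    rw [this]
    linarith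
  have d1 : DifferentiableAt ℂ (fun z : ℂ => logDeriv Gammaℝ (1 / 2 + z)) z :=
    DifferentiableAt.comp z (logG_diff h1) (by fun_prop)
  have d2 : DifferentiableAt ℂ (fun z : ℂ => logDeriv Gammaℝ (3 / 2 + z)) z :=
    DifferentiableAt.comp z (logG_diff h2) (by fun_prop)
  have n1 : z + 1 / 2 ≠ 0 := by
    intro h
    have := congrArg Complex.re h
    rw [add_re, zero_re] at this
    norm_num at this
    linarith
  have d3 : DifferentiableAt ℂ (fun z : ℂ => 2 / (z + 1 / 2)) z :=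
    DifferentiableAt.div (by fun_prop) (by fun_prop) n1
  have d4 : DifferentiableAt ℂ (fun z : ℂ => (1 + z) * (D.S 1 - ∑' k, (b k : ℂ) * cexp (-1 * (l k : ℂ)))) z := by
    fun_prop
  have d5 : DifferentiableAt ℂ (fun z : ℂ => 2 * (z + 2 * a + 1 / 2) / (a + 1 / 2) ^ 2) z := by fun_prop
  exact ((((((differentiableAt_const _).add (d1.const_mul _)).add (d2.const_mul _)).add d3).sub d4).sub d5)

lemma X_ne (D : Dat) {z : ℂ} (hz : 1 / 2 < z.re) : D.X z ≠ 0 := by
  intro h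
  have := (abs_le.1 (D.strip z h)).2
  linarith

theorem key_id [Countable κ] (hd : Fd D b l) (hLT : Pool.Agent.H293.EX.S_LTG) {a : ℝ} (ha : 0 < a) {z : ℂ}
    (hz : 1 < z.re) :
    2 * (z + a) ^ 2 * lp (fun u => -FG b l a u) z = 2 * logDeriv D.X z - HH D b l a z := by
  obtain ⟨hc, hint, hid⟩ := hLT κ b l hd.hg a ha
  have h1 := hid z hz
  have h2 := S_eq hd hz
  have h3 := D.ld z (by linarith)
  rw [hd.p] at h3
  rw [h1, h3, h2]
  unfold HH
  have hha : (((a : ℂ)) + 1 / 2) ≠ 0 := by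
    intro h
    have := congrArg Complex.re h
    rw [add_re, ofReal_re, zero_re] at this
    norm_num at this
    linarith
  have n1 : z - 1 / 2 ≠ 0 := by
    intro h
    have := congrArg Complex.re h
    rw [sub_re, zero_re] at this
    norm_num at this
    linarith
  have n2 : z + 1 / 2 ≠ 0 := by
    intro h
    have := congrArg Complex.re h
    rw [add_re, zero_re] at this
    norm_num at this
    linarith
  have n3 : z + a ≠ 0 := by
    intro h
    have := congrArg Complex.re h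
    rw [add_re, ofReal_re, zero_re] at this
    linarith
  generalize (D.S 1 - ∑' k, (b k : ℂ) * cexp (-1 * (l k : ℂ))) = δ at *
  generalize (∑' k, (b k : ℂ) * cexp (-z * l k)) = A at *
  generalize logDeriv Gammaℝ (1 / 2 + z) = G0 at *
  generalize logDeriv Gammaℝ (3 / 2 + z) = G1 at *
  clear hid hint hLT h1 h2 h3
  push_cast
  have e1 : 2 * (z + a) ^ 2 * (-A / (z + a) ^ 2 + 1 / ((a + 1 / 2) ^ 2 * (z - 1 / 2))) =
      -2 * A + 2 * (z + a) ^ 2 / ((a + 1 / 2) ^ 2 * (z - 1 / 2)) := by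
    field_simp
  have e2 : 2 * (z + (a : ℂ)) ^ 2 / ((a + 1 / 2) ^ 2 * (z - 1 / 2)) =
      2 / (z - 1 / 2) + 2 * (z + 2 * a + 1 / 2) / (a + 1 / 2) ^ 2 := by
    have e3 : ∀ w c : ℂ, w ≠ 0 → c ≠ 0 → 2 * (w + c) ^ 2 / (c ^ 2 * w) = 2 / w + 2 * (w + 2 * c) / c ^ 2 := by
      intro w c hw hc
      field_simp
      ring
    have e4 := e3 (z - 1 / 2) (a + 1 / 2) n1 hha
    rw [show z - 1 / 2 + ((a : ℂ) + 1 / 2) = z + a by ring,
      show z - 1 / 2 + 2 * ((a : ℂ) + 1 / 2) = z + 2 * a + 1 / 2 by ring] at e4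
    exact e4
  rw [e1, e2]
  ring

end key

section family
variable {ι : Type} [Fintype ι] {κ : ι → Type} {D : ι → Dat} {b l : (i : ι) → κ i → ℝ}

/-- the multiplicities of the product -/
noncomputable def NN (D : ι → Dat) (r : ι → ℝ) (γ : ℝ) : ℝ := ∑ i, r i * mg (D i) γ

/-- the sum over the family -/
noncomputable def RR (b l : (i : ι) → κ i → ℝ) (r : ι → ℝ) (a u : ℝ) : ℝ := ∑ i, r i * FG (b i) (l i) a u

/-- the constant of the family -/
noncomputable def WR (D : ι → Dat) (r : ι → ℝ) (a : ℝ) : ℝ := ∑ i, r i * WD (D i) a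

lemma NN_neg (hd : ∀ i, Fd (D i) (b i) (l i)) (r : ι → ℝ) (γ : ℝ) : NN D r (-γ) = NN D r γ := by
  unfold NN
  exact Finset.sum_congr rfl fun i _ => by rw [mg_neg (hd i)]

lemma NN_sum (h : ∀ i, Hy (D i)) (r : ι → ℝ) : Summable (fun γ : ℝ => |NN D r γ| * (2 / (1 + γ ^ 2))) := by
  have h1 : Summable fun γ : ℝ => ∑ i, |r i| * (mg (D i) γ * (2 / (1 + γ ^ 2))) :=
    summable_sum fun i _ => (line_sum (h i)).mul_left _
  refine Summable.of_nonneg_of_le (fun γ => by positivity) (fun γ => ?_) h1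
  unfold NN
  have h2 : |∑ i, r i * mg (D i) γ| ≤ ∑ i, |r i| * mg (D i) γ := by
    refine (Finset.abs_sum_le_sum_abs _ _).trans (le_of_eq (Finset.sum_congr rfl fun i _ => ?_))
    rw [abs_mul, abs_of_nonneg (mg_nonneg (D i) γ)]
  refine (mul_le_mul_of_nonneg_right h2 (by positivity)).trans (le_of_eq ?_)
  rw [Finset.sum_mul]
  exact Finset.sum_congr rfl fun i _ => by ring

theorem hR [∀ i, Countable (κ i)] (hd : ∀ i, Fd (D i) (b i) (l i)) (h : ∀ i, Hy (D i)) (r : ι → ℝ) {a : ℝ}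
    (ha : 0 < a) : Tendsto (fun u : ℝ => RR b l r a u + TT (NN D r) a u) atTop (𝓝 0) := by
  have h1 : Tendsto (fun u : ℝ => ∑ i, r i * (FG (b i) (l i) a u +
      ∑' γ : ℝ, mg (D i) γ * (cexp (I * γ * u) / ((a : ℂ) + I * γ) ^ 2).re)) atTop (𝓝 (∑ i, r i * 0)) :=
    tendsto_finsetSum _ fun i _ => (hF_of (hd i) (h i) ha).const_mul (r i)
  simp only [mul_zero, Finset.sum_const_zero] at h1
  refine h1.congr fun u => ?_
  have hs : ∀ i, Summable fun γ : ℝ => r i * (mg (D i) γ * (cexp (I * γ * u) / ((a : ℂ) + I * γ) ^ 2).re) := by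
    intro i
    have h2 : Summable (fun γ : ℝ => |mg (D i) γ| * (2 / (1 + γ ^ 2))) := by
      refine (line_sum (h i)).congr fun γ => ?_
      rw [abs_of_nonneg (mg_nonneg (D i) γ)]
    refine ((tt_sum h2 ha u).congr fun γ => ?_).mul_left _
    rw [term_eq ha]
  unfold RR TT NN
  simp only [mul_add, Finset.sum_add_distrib]
  congr 1
  have h3 : ∀ i, r i * ∑' γ : ℝ, mg (D i) γ * (cexp (I * γ * u) / ((a : ℂ) + I * γ) ^ 2).re =
      ∑' γ : ℝ, r i * (mg (D i) γ * (cexp (I * γ * u) / ((a : ℂ) + I * γ) ^ 2).re) := fun i => by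
    rw [tsum_mul_left]
  simp only [h3]
  rw [← Summable.tsum_finsetSum fun i _ => hs i]
  refine tsum_congr fun γ => ?_
  rw [Finset.sum_mul]
  exact Finset.sum_congr rfl fun i _ => by ring

theorem W_eq (h : ∀ i, Hy (D i)) (r : ι → ℝ) {a : ℝ} (ha : 1 / 2 < a) : ∑' γ : ℝ, bb (NN D r) a γ = WR D r a := by
  have ha0 : 0 < a := by linarith
  unfold WR WD
  have h1 : ∀ i, Summable fun γ : ℝ => r i * bb (mg (D i)) a γ := fun i =>
    (bb_sum (mg_nonneg (D i)) (line_sum (h i)) ha0).mul_left _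
  have h2 : ∀ i, r i * ((logDeriv (D i).X (a : ℂ)).re / a) = ∑' γ : ℝ, r i * bb (mg (D i)) a γ := fun i => by
    rw [tsum_mul_left, pf_line (h i) ha]
  simp only [h2]
  rw [← Summable.tsum_finsetSum fun i _ => h1 i]
  refine tsum_congr fun γ => ?_
  unfold bb NN
  rw [Finset.sum_div]
  exact Finset.sum_congr rfl fun i _ => by ring

/-- the defect of the constant -/
theorem W_defect {N : ℝ → ℝ} (hs : Summable (fun γ : ℝ => |N γ| * (2 / (1 + γ ^ 2)))) {a : ℝ} (ha : 0 < a) :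
    ∑' γ : ℝ, bb N a γ ≤ bb N a 0 + AA N a ∧
    (bb N a 0 + AA N a ≤ ∑' γ : ℝ, bb N a γ ↔ ∀ γ : ℝ, γ ≠ 0 → 0 ≤ N γ) := by
  have h1 : Summable fun γ : ℝ => if γ = 0 then bb N a 0 else 0 :=
    (hasSum_ite_eq (0 : ℝ) (bb N a 0)).summable
  have h2 := off_sum hs ha
  have h3 := bb_summable hs ha
  set e : ℝ → ℝ := fun γ => (if γ = 0 then bb N a 0 else 0) + (if γ = 0 then 0 else |N γ| / (a ^ 2 + γ ^ 2)) - bb N a γ
    with he
  have hsum : Summable e := (h1.add h2).sub h3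
  have htot : ∑' γ : ℝ, e γ = bb N a 0 + AA N a - ∑' γ : ℝ, bb N a γ := by
    rw [he, (h1.add h2).tsum_sub h3, h1.tsum_add h2, tsum_ite_eq]
    rfl
  have he0 : ∀ γ : ℝ, γ ≠ 0 → e γ = (|N γ| - N γ) / (a ^ 2 + γ ^ 2) := by
    intro γ hγ
    simp only [he]
    rw [if_neg hγ, if_neg hγ]
    unfold bb
    ring
  have hez : e 0 = 0 := by
    simp [he]
  have hnn : ∀ γ, 0 ≤ e γ := by
    intro γ
    by_cases h : γ = 0
    · rw [h, hez]
    · rw [he0 γ h]
      have := le_abs_self (N γ)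
      exact div_nonneg (by linarith) (by positivity)
  have h0 : 0 ≤ ∑' γ : ℝ, e γ := tsum_nonneg hnn
  refine ⟨by linarith, ⟨fun h γ hγ => ?_, fun h => ?_⟩⟩
  · have h4 : e γ ≤ ∑' γ : ℝ, e γ := hsum.le_tsum γ fun j _ => hnn j
    have h5 : e γ ≤ 0 := by linarith
    rw [he0 γ hγ] at h5
    have h6 : 0 < a ^ 2 + γ ^ 2 := by positivity
    rw [div_le_iff₀ h6, zero_mul] at h5
    have := abs_nonneg (N γ)
    linarith
  · have h4 : ∀ γ, e γ = 0 := by
      intro γ
      by_cases hγ : γ = 0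
      · rw [hγ, hez]
      · rw [he0 γ hγ, abs_of_nonneg (h γ hγ), sub_self, zero_div]
    have h5 : ∑' γ : ℝ, e γ = 0 := by simp [h4]
    linarith

/-- the lower limit -/
noncomputable def lowR (b l : (i : ι) → κ i → ℝ) (r : ι → ℝ) (a : ℝ) : EReal :=
  liminf (fun u : ℝ => (RR b l r a u : EReal)) atTop

/-- the upper limit -/
noncomputable def uppR (b l : (i : ι) → κ i → ℝ) (r : ι → ℝ) (a : ℝ) : EReal :=
  limsup (fun u : ℝ => (RR b l r a u : EReal)) atTop

variable [∀ i, Countable (κ i)]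

theorem lowR_ge (hd : ∀ i, Fd (D i) (b i) (l i)) (h : ∀ i, Hy (D i)) (r : ι → ℝ) {a : ℝ} (ha : 0 < a) :
    ((-(bb (NN D r) a 0) - AA (NN D r) a : ℝ) : EReal) ≤ lowR b l r a := by
  refine li_ge fun ε hε => ?_
  have h1 := hR hd h r ha
  filter_upwards [h1.eventually (lt_mem_nhds (show -ε < 0 by linarith))] with u hu
  have h2 := TT_le (NN_sum h r) ha u
  linarith

theorem uppR_le (hd : ∀ i, Fd (D i) (b i) (l i)) (h : ∀ i, Hy (D i)) (r : ι → ℝ) {a : ℝ} (ha : 0 < a) :
    uppR b l r a ≤ ((-(bb (NN D r) a 0) + AA (NN D r) a : ℝ) : EReal) := by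
  refine ls_le fun ε hε => ?_
  have h1 := hR hd h r ha
  filter_upwards [h1.eventually (gt_mem_nhds (show 0 < ε by linarith))] with u hu
  have h2 := le_TT (NN_sum h r) ha u
  linarith

/-- independence of the frequencies which occur -/
def Ind (N : ℝ → ℝ) : Prop := ∀ S : Finset ℝ, (∀ γ ∈ S, 0 < γ ∧ N γ ≠ 0) → ∀ n : ℝ → ℤ,
    ∑ γ ∈ S, (n γ : ℝ) * γ = 0 → ∀ γ ∈ S, n γ = 0

theorem lowR_eq (hd : ∀ i, Fd (D i) (b i) (l i)) (h : ∀ i, Hy (D i)) (r : ι → ℝ) (hI : Ind (NN D r)) {a : ℝ}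
    (ha : 0 < a) : lowR b l r a = ((-(bb (NN D r) a 0) - AA (NN D r) a : ℝ) : EReal) := by
  refine le_antisymm ((li_le_iff _).2 fun ε hε => ?_) (lowR_ge hd h r ha)
  have h1 := hR hd h r ha
  have h2 := TT_near (NN_sum h r) ha (NN_neg hd r) Pool.Agent.H167.EXKR.t_KR hI (ε / 2) (by linarith)
  refine (h2.and_eventually (h1.eventually (gt_mem_nhds (show 0 < ε / 2 by linarith)))).mono fun u hu => ?_
  obtain ⟨hu1, hu2⟩ := hu
  linarith

theorem uppR_eq (hd : ∀ i, Fd (D i) (b i) (l i)) (h : ∀ i, Hy (D i)) (r : ι → ℝ) (hI : Ind (NN D r)) {a : ℝ}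
    (ha : 0 < a) : uppR b l r a = ((-(bb (NN D r) a 0) + AA (NN D r) a : ℝ) : EReal) := by
  refine le_antisymm (uppR_le hd h r ha) (ls_ge fun ε hε => ?_)
  have h1 := hR hd h r ha
  have h2 := TT_near (N := fun γ => -NN D r γ) (hs_neg (NN_sum h r)) ha
    (fun γ => by rw [NN_neg hd]) Pool.Agent.H167.EXKR.t_KR
    (fun S hS n hn => hI S (fun γ hγ => ⟨(hS γ hγ).1, fun h0 => (hS γ hγ).2 (by rw [h0, neg_zero])⟩) n hn)
    (ε / 2) (by linarith)
  refine (h2.and_eventually (h1.eventually (lt_mem_nhds (show -(ε / 2) < 0 by linarith)))).mono fun u hu => ?_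
  obtain ⟨hu1, hu2⟩ := hu
  rw [bb_neg', AA_neg, TT_neg] at hu1
  linarith

/-- the sum of all members bounded from below -/
theorem hy_of_sum [Nonempty ι] (hd : ∀ i, Fd (D i) (b i) (l i)) {a : ℝ} (ha : 0 < a)
    (hlow : lowR b l (fun _ => 1) a ≠ ⊥) : ∀ i, Hy (D i) := by
  classical
  obtain ⟨B0, -, hB0⟩ := EReal.lt_iff_exists_real_btwn.1 (bot_lt_iff_ne_bot.2 hlow)
  have hB := ev_li hB0
  have hLT := Pool.Agent.H79.EXLTG.t_LTG
  have hc : ∀ i, Continuous (FG (b i) (l i) a) := fun i => (hLT (κ i) (b i) (l i) (hd i).hg a ha).1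
  have hint : ∀ i, ∀ σ : ℝ, 1 / 2 < σ →
      IntegrableOn (fun u => |FG (b i) (l i) a u| * Real.exp (-(σ * u))) (Ioi 0) :=
    fun i => (hLT (κ i) (b i) (l i) (hd i).hg a ha).2.1
  set f : ℝ → ℝ := fun u => -RR b l (fun _ => 1) a u with hf
  have hR1 : ∀ u, RR b l (fun _ => 1) a u = ∑ i, FG (b i) (l i) a u := by
    intro u
    unfold RR
    exact Finset.sum_congr rfl fun i _ => one_mul _
  have hfc : Continuous f := by
    simp only [hf, hR1]
    exact (continuous_finsetSum _ fun i _ => hc i).neg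
  have hp : ∀ σ : ℝ, 0 < σ → IntegrableOn (fun u => max (f u) 0 * Real.exp (-(σ * u))) (Ioi 0) := by
    refine fun σ hσ => pos_int hfc (B := -B0) ?_ σ hσ
    filter_upwards [hB] with u hu
    simp only [hf]
    linarith
  have hm : ∀ σ : ℝ, 1 / 2 < σ → IntegrableOn (fun u => max (-f u) 0 * Real.exp (-(σ * u))) (Ioi 0) := by
    intro σ hσ
    have h1 : IntegrableOn (fun u => ∑ i, |FG (b i) (l i) a u| * Real.exp (-(σ * u))) (Ioi 0) :=
      integrable_finsetSum _ fun i _ => hint i σ hσ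
    refine Integrable.mono' h1 (((hfc.neg.max continuous_const).mul (by fun_prop)).aestronglyMeasurable)
      (Eventually.of_forall fun u => ?_)
    rw [Real.norm_of_nonneg (mul_nonneg (le_max_right _ _) (Real.exp_pos _).le), ← Finset.sum_mul]
    refine mul_le_mul_of_nonneg_right ?_ (Real.exp_pos _).le
    refine max_le ?_ (Finset.sum_nonneg fun i _ => abs_nonneg _)
    simp only [hf, neg_neg, hR1]
    exact Finset.sum_le_sum fun i _ => le_abs_self _
  have hlp : ∀ z : ℂ, 1 < z.re → lp f z = ∑ i, lp (fun u => -FG (b i) (l i) a u) z := by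
    intro z hz
    unfold Pool.Agent.Q14.LQ.lp
    rw [← integral_finsetSum]
    · refine setIntegral_congr_fun measurableSet_Ioi fun u _ => ?_
      simp only [hf, hR1]
      push_cast
      rw [← Finset.sum_neg_distrib, Finset.sum_mul]
    · intro i _
      refine Integrable.mono' (hint i z.re (by linarith))
        ((((hc i).neg.measurable.complex_ofReal).mul (by fun_prop)).aestronglyMeasurable)
        (Eventually.of_forall fun u => ?_)
      rw [norm_mul, norm_exp]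
      simp
  have hXd : Differentiable ℂ (fun z => ∏ i, (D i).X z) := by
    have h1 := Differentiable.fun_finsetProd (u := Finset.univ) (f := fun i z => (D i).X z)
      fun i _ => (D i).diff
    exact h1
  have hX0 : ∀ z : ℂ, 1 / 2 < z.re → ∏ i, (D i).X z ≠ 0 := fun z hz =>
    Finset.prod_ne_zero_iff.2 fun i _ => X_ne (D i) hz
  have hne : ∀ z : ℂ, 0 < z.re → z + a ≠ 0 := by
    intro z hz h
    have := congrArg Complex.re h
    rw [add_re, ofReal_re, zero_re] at this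
    linarith
  have key : ∀ z : ℂ, 0 < z.re → ∏ i, (D i).X z ≠ 0 := by
    refine Pool.Agent.H80.EX.t_LG2 f hfc hp hm (fun z => ∏ i, (D i).X z)
      (fun z => ∑ i, HH (D i) (b i) (l i) a z)
      (fun z => 2 * (z + a) ^ 2) hXd (fun z hz => ?_) (by fun_prop)
      ⟨1, hX0 1 (by norm_num)⟩
      (fun z hz => mul_ne_zero two_ne_zero (pow_ne_zero 2 (hne z hz)))
      (fun t ht => by
        have e : (2 * ((t : ℂ) + a) ^ 2) = ((2 * (t + a) ^ 2 : ℝ) : ℂ) := by push_cast; ring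
        rw [e, ofReal_im, ofReal_re]
        exact ⟨rfl, by positivity⟩)
      (fun z hz => ?_)
    · exact DifferentiableAt.fun_sum fun i _ => HH_diff a hz
    · have h0 : ∏ i, (D i).X z ≠ 0 := hX0 z (by linarith)
      have h1 : logDeriv (fun z => ∏ i, (D i).X z) z = ∑ i, logDeriv (D i).X z :=
        logDeriv_prod (s := Finset.univ) (f := fun i => (D i).X) (x := z) (fun i _ => X_ne (D i) (by linarith))
          (fun i _ => (D i).diff z)
      have h2 : deriv (fun z => ∏ i, (D i).X z) z = (∑ i, logDeriv (D i).X z) * ∏ i, (D i).X z := by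
        rw [← h1, logDeriv_apply, div_mul_cancel₀ _ h0]
      rw [h2, hlp z hz, Finset.mul_sum]
      have h3 : ∀ i, 2 * (z + a) ^ 2 * lp (fun u => -FG (b i) (l i) a u) z =
          2 * logDeriv (D i).X z - HH (D i) (b i) (l i) a z := fun i => key_id (hd i) hLT ha hz
      simp only [h3]
      rw [Finset.sum_sub_distrib, ← Finset.mul_sum]
      ring
  intro i
  have hpos : ∀ z : ℂ, 0 < z.re → (D i).m z = 0 := by
    intro z hz
    have h1 := Finset.prod_ne_zero_iff.1 (key z hz) i (Finset.mem_univ i)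
    have h2 := ((D i).diff.analyticAt z).analyticOrderAt_eq_zero.2 h1
    unfold Dat.m analyticOrderNatAt
    rw [h2]
    rfl
  intro z hz
  rcases lt_or_gt_of_ne hz with h1 | h1
  · rw [← (hd i).even]
    exact hpos (-z) (by rw [neg_re]; linarith)
  · exact hpos z h1

end family

end Pool.Agent.H293.EXN
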