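import Pool.Agent.H293.EX.Stm3
import Pool.Agent.H293.EX.Asm
import Pool.Agent.H293.EXN.Dt
import Pool.Graph.R_pool_sql_team_seeded_3997aac3.Q151.NF.Ltg
import Pool.Graph.R_pool_sql_team_seeded_3997aac3.Q195.CP.RL

set_option autoImplicit false

/-!
# Project EX for number fields: Landau's theorem
-/

namespace Pool.Agent.H293.EXN

open MeasureTheory Filter Topology Set Complex
open Pool.Agent.Q253.NF (Dat)
open Pool.Agent.H293.EX Pool.Agent.Q14.LQ
open scoped ComplexConjugate

/-- the prime sum of `D` -/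
structure Fd {κ : Type} (D : Dat) (b l : κ → ℝ) : Prop where
  hg : HG b l
  p : D.p = 1
  E : ∀ u, D.E u = ((∑' k, b k * Real.exp (-|u - l k|) : ℝ) : ℂ)
  even : ∀ a : ℂ, D.m (-a) = D.m a

section
variable {κ : Type} {D : Dat} {b l : κ → ℝ}

lemma Fd.P (hd : Fd D b l) (u : ℝ) : D.P u = ((PG b l u : ℝ) : ℂ) := by
  unfold Dat.P PG
  rw [hd.E, hd.p]
  push_cast
  ring

lemma logG_diff {s : ℂ} (hs : 0 < s.re) : DifferentiableAt ℂ (logDeriv Gammaℝ) s := by
  have hopen : IsOpen {z : ℂ | 0 < z.re} := isOpen_lt continuous_const Complex.continuous_re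
  have hA : AnalyticAt ℂ Gammaℝ s :=
    DifferentiableOn.analyticAt (s := {z : ℂ | 0 < z.re})
      (fun z hz => (Pool.Agent.Q195.CP.diffAt_GammaR hz).differentiableWithinAt) (hopen.mem_nhds hs)
  have h1 : DifferentiableAt ℂ (fun z => deriv Gammaℝ z / Gammaℝ z) s :=
    hA.deriv.differentiableAt.div hA.differentiableAt (Gammaℝ_ne_zero_of_re_pos hs)
  exact h1

/-- the sum and `S` -/
lemma S_eq [Countable κ] (hd : Fd D b l) {z : ℂ} (hz : 1 < z.re) :
    D.S z = (∑' k, (b k : ℂ) * cexp (-z * l k)) +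
      (1 + z) / 2 * (D.S 1 - ∑' k, (b k : ℂ) * cexp (-1 * (l k : ℂ))) := by
  have hz1 : z ≠ 1 := by
    rintro rfl
    simp at hz
  have h1 := (D.lt z hz).2
  have hb : Pool.Agent.Q151.NF.HB (fun k => (b k : ℂ)) l := by
    intro x hx
    refine (hd.hg.2.2 x hx).congr fun k => ?_
    rw [Complex.norm_real, Real.norm_of_nonneg (hd.hg.1 k)]
  have h2 := (Pool.Agent.Q151.NF.t_LTG_core κ (fun k => (b k : ℂ)) l hd.hg.2.1 hb).2 z (by linarith) hz1
  have h3 : (fun u : ℝ => D.E u * cexp (-z * u)) = fun u : ℝ =>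
      (∑' k, (b k : ℂ) * ((Real.exp (-|u - l k|) : ℝ) : ℂ)) * cexp (-z * u) := by
    funext u
    rw [hd.E, ofReal_tsum]
    congr 1
    refine tsum_congr fun k => ?_
    push_cast
    ring
  rw [h3, h2.2] at h1
  have n1 : 1 - z ≠ 0 := sub_ne_zero.2 hz1.symm
  have n2 : 1 + z ≠ 0 := by
    intro h
    have := congrArg Complex.re h
    simp at this
    linarith
  have n3 : 1 - z ^ 2 ≠ 0 := by
    rw [show 1 - z ^ 2 = (1 - z) * (1 + z) by ring]
    exact mul_ne_zero n1 n2
  have e : (1 : ℂ) / (1 - z) = (1 + z) / (1 - z ^ 2) := by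
    rw [show 1 - z ^ 2 = (1 - z) * (1 + z) by ring]
    field_simp
  rw [e] at h1
  generalize (∑' k, (b k : ℂ) * cexp (-z * l k)) = A at *
  generalize (∑' k, (b k : ℂ) * cexp (-1 * (l k : ℂ))) = B at *
  generalize D.S z = s at *
  generalize D.S 1 = t at *
  field_simp at h1
  linear_combination (-1 / 2 : ℂ) * h1

theorem hy_of_below [Countable κ] (hd : Fd D b l) (hLT : Pool.Agent.H293.EX.S_LTG) (hLG : S_LG2) {a : ℝ}
    (ha : 0 < a) {B : ℝ} (h : ∀ᶠ u : ℝ in atTop, -B ≤ FG b l a u) : Hy D := by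
  obtain ⟨hc, hint, hid⟩ := hLT κ b l hd.hg a ha
  have hp : ∀ σ : ℝ, 0 < σ → IntegrableOn (fun u => max (-FG b l a u) 0 * Real.exp (-(σ * u))) (Ioi 0) := by
    refine fun σ hσ => pos_int hc.neg (B := B) ?_ σ hσ
    filter_upwards [h] with u hu
    show -FG b l a u ≤ B
    linarith
  have hm : ∀ σ : ℝ, 1 / 2 < σ → IntegrableOn (fun u => max (-(-FG b l a u)) 0 * Real.exp (-(σ * u))) (Ioi 0) := by
    intro σ hσ
    refine Integrable.mono' (hint σ hσ) ((((hc.neg).neg.max continuous_const).mul (by fun_prop)).aestronglyMeasurable)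
      (Eventually.of_forall fun u => ?_)
    rw [Real.norm_of_nonneg (mul_nonneg (le_max_right _ _) (Real.exp_pos _).le), neg_neg]
    refine mul_le_mul_of_nonneg_right ?_ (Real.exp_pos _).le
    exact max_le (le_abs_self _) (abs_nonneg _)
  have hne : ∀ z : ℂ, 0 < z.re → z + a ≠ 0 := by
    intro z hz h
    have := congrArg Complex.re h
    rw [add_re, ofReal_re, zero_re] at this
    linarith
  have hX0 : ∀ z : ℂ, 1 / 2 < z.re → D.X z ≠ 0 := by
    intro z hz h
    have := (abs_le.1 (D.strip z h)).2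
    linarith
  set δ : ℂ := D.S 1 - ∑' k, (b k : ℂ) * cexp (-1 * (l k : ℂ)) with hδ
  have hha : (((a : ℂ)) + 1 / 2) ≠ 0 := by
    intro h
    have := congrArg Complex.re h
    rw [add_re, ofReal_re, zero_re] at this
    norm_num at this
    linarith
  have key : ∀ z : ℂ, 0 < z.re → D.X z ≠ 0 := by
    refine hLG (fun u => -FG b l a u) hc.neg hp hm D.X
      (fun z => 2 * D.A + 2 * D.m0 * logDeriv Gammaℝ (1 / 2 + z) + 2 * D.m1 * logDeriv Gammaℝ (3 / 2 + z) +
        2 / (z + 1 / 2) - (1 + z) * δ - 2 * (z + 2 * a + 1 / 2) / (a + 1 / 2) ^ 2)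
      (fun z => 2 * (z + a) ^ 2) D.diff (fun z hz => ?_) (by fun_prop)
      ⟨1, hX0 1 (by norm_num)⟩
      (fun z hz => mul_ne_zero two_ne_zero (pow_ne_zero 2 (hne z hz)))
      (fun t ht => by
        have e : (2 * ((t : ℂ) + a) ^ 2) = ((2 * (t + a) ^ 2 : ℝ) : ℂ) := by push_cast; ring
        rw [e, ofReal_im, ofReal_re]
        exact ⟨rfl, by positivity⟩)
      (fun z hz => ?_)
    · -- differentiability
      have h1 : 0 < (1 / 2 + z).re := by
        rw [add_re]
        have : ((1 : ℂ) / 2).re = 1 / 2 := by norm_num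
        rw [this]
        linarith
      have h2 : 0 < (3 / 2 + z).re := by
        rw [add_re]
        have : ((3 : ℂ) / 2).re = 3 / 2 := by norm_num
        rw [this]
        linarith
      have d1 : DifferentiableAt ℂ (fun z : ℂ => logDeriv Gammaℝ (1 / 2 + z)) z :=
        DifferentiableAt.comp z (logG_diff h1) (by fun_prop)
      have d2 : DifferentiableAt ℂ (fun z : ℂ => logDeriv Gammaℝ (3 / 2 + z)) z :=
        DifferentiableAt.comp z (logG_diff h2) (by fun_prop)
      have n1 : z + 1 / 2 ≠ 0 := by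
        intro h
        have := congrArg Complex.re h
        rw [add_re, zero_re] at this
        norm_num at this
        linarith
      have d3 : DifferentiableAt ℂ (fun z : ℂ => 2 / (z + 1 / 2)) z :=
        DifferentiableAt.div (by fun_prop) (by fun_prop) n1
      have d4 : DifferentiableAt ℂ (fun z : ℂ => (1 + z) * δ) z := by fun_prop
      have d5 : DifferentiableAt ℂ (fun z : ℂ => 2 * (z + 2 * a + 1 / 2) / (a + 1 / 2) ^ 2) z := by fun_prop
      exact ((((((differentiableAt_const _).add (d1.const_mul _)).add (d2.const_mul _)).add d3).sub d4).sub d5)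
    · -- the identity
      have h0 : D.X z ≠ 0 := hX0 z (by linarith)
      have h1 := hid z hz
      have h2 := S_eq hd hz
      have h3 := D.ld z (by linarith)
      rw [hd.p] at h3
      have h4 : deriv D.X z = logDeriv D.X z * D.X z := by
        rw [logDeriv_apply, div_mul_cancel₀ _ h0]
      rw [h1, h4, h3, h2]
      have n1 : z - 1 / 2 ≠ 0 := by
        intro h
        have := congrArg Complex.re h
        rw [sub_re, zero_re] at this
        norm_num at this
        linarith
      have n2 : z + 1 / 2 ≠ 0 := by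
        intro h
        have := congrArg Complex.re h
        rw [add_re, zero_re] at this
        norm_num at this
        linarith
      have n3 := hne z (by linarith)
      generalize (∑' k, (b k : ℂ) * cexp (-z * l k)) = A at *
      generalize logDeriv Gammaℝ (1 / 2 + z) = G0 at *
      generalize logDeriv Gammaℝ (3 / 2 + z) = G1 at *
      generalize D.X z = X at *
      rw [← hδ]
      clear_value δ
      clear hid hint hp hm hLG hLT h1 h2 h3 h4
      push_cast
      have e1 : 2 * (z + a) ^ 2 * (-A / (z + a) ^ 2 + 1 / ((a + 1 / 2) ^ 2 * (z - 1 / 2))) =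
          -2 * A + 2 * (z + a) ^ 2 / ((a + 1 / 2) ^ 2 * (z - 1 / 2)) := by
        field_simp
      have e2 : 2 * (z + (a : ℂ)) ^ 2 / ((a + 1 / 2) ^ 2 * (z - 1 / 2)) =
          2 / (z - 1 / 2) + 2 * (z + 2 * a + 1 / 2) / (a + 1 / 2) ^ 2 := by
        have e3 : ∀ w c : ℂ, w ≠ 0 → c ≠ 0 → 2 * (w + c) ^ 2 / (c ^ 2 * w) = 2 / w + 2 * (w + 2 * c) / c ^ 2 := by
          intro w c hw hc
          field_simp
          ring
        have e4 := e3 (z - 1 / 2) (a + 1 / 2) n1 hha
        rw [show z - 1 / 2 + ((a : ℂ) + 1 / 2) = z + a by ring,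
          show z - 1 / 2 + 2 * ((a : ℂ) + 1 / 2) = z + 2 * a + 1 / 2 by ring] at e4
        exact e4
      rw [e1, e2]
      ring
  have hpos : ∀ z : ℂ, 0 < z.re → D.m z = 0 := by
    intro z hz
    have h1 := key z hz
    have h2 := (D.diff.analyticAt z).analyticOrderAt_eq_zero.2 h1
    unfold Dat.m analyticOrderNatAt
    rw [h2]
    rfl
  intro z hz
  rcases lt_or_gt_of_ne hz with h1 | h1
  · rw [← hd.even]
    exact hpos (-z) (by rw [neg_re]; linarith)
  · exact hpos z h1

end

end Pool.Agent.H293.EXN
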