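import Pool.Agent.H293.EX.Asm2
import Pool.Agent.H293.EX.UP
import Pool.Agent.H293.EXN.Lan
import Pool.Agent.H115.EX_CVG
import Pool.Agent.H79.EX_LTG
import Pool.Agent.H80.EX.LG2

set_option autoImplicit false

/-!
# Project EX for number fields: lower and upper limits
-/

namespace Pool.Agent.H293.EXN

open MeasureTheory Filter Topology Set Complex
open Pool.Agent.Q253.NF (Dat)
open Pool.Agent.H293.EX
open scoped ComplexConjugate

lemma tCVG : S_CVG := Pool.Agent.H115.EXCVG.t_CVG Pool.Agent.H807.EX.t_KE Pool.Agent.H807.EX.t_KI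

section ereal
variable {F : ℝ → ℝ}

lemma le_li {b : ℝ} (h : ∀ᶠ u : ℝ in atTop, b ≤ F u) : (b : EReal) ≤ liminf (fun u : ℝ => (F u : EReal)) atTop := by
  refine le_liminf_of_le (by isBoundedDefault) ?_
  filter_upwards [h] with u hu
  exact EReal.coe_le_coe_iff.2 hu

lemma ev_li {b : ℝ} (h : (b : EReal) < liminf (fun u : ℝ => (F u : EReal)) atTop) : ∀ᶠ u : ℝ in atTop, b < F u := by
  filter_upwards [eventually_lt_of_lt_liminf h (by isBoundedDefault)] with u hu
  exact EReal.coe_lt_coe_iff.1 hu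

lemma fr_li {b : ℝ} (h : liminf (fun u : ℝ => (F u : EReal)) atTop < (b : EReal)) : ∃ᶠ u : ℝ in atTop, F u < b :=
  (frequently_lt_of_liminf_lt (by isBoundedDefault) h).mono fun _ hu => EReal.coe_lt_coe_iff.1 hu

theorem li_le_iff (w : ℝ) : liminf (fun u : ℝ => (F u : EReal)) atTop ≤ (w : EReal) ↔
    ∀ ε : ℝ, 0 < ε → ∃ᶠ u : ℝ in atTop, F u ≤ w + ε := by
  constructor
  · intro h ε hε
    exact (fr_li (lt_of_le_of_lt h (EReal.coe_lt_coe_iff.2 (by linarith : w < w + ε)))).mono fun u hu => hu.le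
  · intro h
    by_contra hn
    obtain ⟨b, hb1, hb2⟩ := EReal.lt_iff_exists_real_btwn.1 (not_le.1 hn)
    have hb1' : w < b := EReal.coe_lt_coe_iff.1 hb1
    obtain ⟨u, hu1, hu2⟩ := ((h (b - w) (by linarith)).and_eventually (ev_li hb2)).exists
    linarith

theorem li_ge {w : ℝ} (h : ∀ ε : ℝ, 0 < ε → ∀ᶠ u : ℝ in atTop, w - ε ≤ F u) :
    (w : EReal) ≤ liminf (fun u : ℝ => (F u : EReal)) atTop := by
  by_contra hn
  obtain ⟨b, hb1, hb2⟩ := EReal.lt_iff_exists_real_btwn.1 (not_le.1 hn)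
  have hb2' : b < w := EReal.coe_lt_coe_iff.1 hb2
  have h2 : (b : EReal) ≤ liminf (fun u : ℝ => (F u : EReal)) atTop := le_li (by
    filter_upwards [h (w - b) (by linarith)] with u hu
    linarith)
  exact absurd hb1 (not_lt.2 h2)

theorem ls_ge {w : ℝ} (h : ∀ ε : ℝ, 0 < ε → ∃ᶠ u : ℝ in atTop, w - ε ≤ F u) :
    (w : EReal) ≤ limsup (fun u : ℝ => (F u : EReal)) atTop := by
  by_contra hn
  obtain ⟨b, hb1, hb2⟩ := EReal.lt_iff_exists_real_btwn.1 (not_le.1 hn)
  have hb2' : b < w := EReal.coe_lt_coe_iff.1 hb2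
  have h3 := eventually_lt_of_limsup_lt hb1 (by isBoundedDefault)
  obtain ⟨u, hu1, hu2⟩ := ((h (w - b) (by linarith)).and_eventually h3).exists
  have h4 : F u < b := EReal.coe_lt_coe_iff.1 hu2
  linarith

theorem ls_le {w : ℝ} (h : ∀ ε : ℝ, 0 < ε → ∀ᶠ u : ℝ in atTop, F u ≤ w + ε) :
    limsup (fun u : ℝ => (F u : EReal)) atTop ≤ (w : EReal) := by
  by_contra hn
  obtain ⟨b, hb1, hb2⟩ := EReal.lt_iff_exists_real_btwn.1 (not_le.1 hn)
  have hb1' : w < b := EReal.coe_lt_coe_iff.1 hb1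
  have h2 : limsup (fun u : ℝ => (F u : EReal)) atTop ≤ (b : EReal) := limsup_le_of_le (by isBoundedDefault) (by
    filter_upwards [h (b - w) (by linarith)] with u hu
    exact EReal.coe_le_coe_iff.2 (by linarith))
  exact absurd hb2 (not_lt.2 h2)

end ereal

section
variable {κ : Type} {D : Dat} {b l : κ → ℝ}

/-- the lower limit -/
noncomputable def lowG (b l : κ → ℝ) (a : ℝ) : EReal := liminf (fun u : ℝ => (FG b l a u : EReal)) atTop

/-- the upper limit -/
noncomputable def uppG (b l : κ → ℝ) (a : ℝ) : EReal := limsup (fun u : ℝ => (FG b l a u : EReal)) atTop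

/-- the constant -/
noncomputable def WD (D : Dat) (a : ℝ) : ℝ := (logDeriv D.X (a : ℂ)).re / a

lemma PG_cont (hd : Fd D b l) : Continuous (PG b l) := by
  have h1 : Continuous (fun u : ℝ => (D.P u).re) := by
    unfold Dat.P
    refine Complex.continuous_re.comp (D.cont.sub (continuous_const.mul (Complex.continuous_ofReal.comp ?_)))
    fun_prop
  refine h1.congr fun u => ?_
  rw [hd.P, ofReal_re]

lemma PG_bdd (hd : Fd D b l) (v : ℝ) (hv : v ≤ 0) : |PG b l v| ≤ (∑' k, b k * Real.exp (-(1 * l k))) + 8 / 3 := by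
  have h1 := hd.hg.2.2 1 (by norm_num)
  have hle : ∀ k, b k * Real.exp (-|v - l k|) ≤ b k * Real.exp (-(1 * l k)) := by
    intro k
    refine mul_le_mul_of_nonneg_left (Real.exp_le_exp.2 ?_) (hd.hg.1 k)
    have h2 := hd.hg.2.1 k
    rw [abs_of_nonpos (by linarith)]
    linarith
  have h0 : ∀ k, 0 ≤ b k * Real.exp (-|v - l k|) := fun k => mul_nonneg (hd.hg.1 k) (Real.exp_pos _).le
  have hs : Summable fun k => b k * Real.exp (-|v - l k|) := Summable.of_nonneg_of_le h0 hle h1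
  have h3 := hs.tsum_le_tsum hle h1
  have h4 : 0 ≤ ∑' k, b k * Real.exp (-|v - l k|) := tsum_nonneg h0
  have h5 : Real.exp (v / 2) ≤ 1 := Real.exp_le_one_iff.2 (by linarith)
  have h6 := Real.exp_pos (v / 2)
  unfold PG
  rw [abs_le]
  constructor <;> linarith

theorem hF_of [Countable κ] (hd : Fd D b l) (h : Hy D) {a : ℝ} (ha : 0 < a) :
    Tendsto (fun u : ℝ => FG b l a u +
      ∑' γ : ℝ, mg D γ * (cexp (I * γ * u) / ((a : ℂ) + I * γ) ^ 2).re) atTop (𝓝 0) := by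
  obtain ⟨C1, hC1⟩ := ef D
  set C2 : ℝ := (∑' k, b k * Real.exp (-(1 * l k))) + 8 / 3 with hC2
  have h1 := tAS a (mg D) (PG b l) (max C1 C2) ha (mg_nonneg D) (line_sum h) (PG_cont hd)
    (fun v hv => (PG_bdd hd v hv).trans (le_max_right _ _))
    (fun v hv => by
      have h2 := hC1 v hv
      have h3 : |PG b l v + ∑' γ : ℝ, mg D γ * (2 / (1 + γ ^ 2) * Real.cos (γ * v))| ≤ ‖D.P v + D.Z v‖ := by
        have h4 : PG b l v + ∑' γ : ℝ, mg D γ * (2 / (1 + γ ^ 2) * Real.cos (γ * v)) = (D.P v + D.Z v).re := by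
          rw [add_re, line_Z_re h, hd.P, ofReal_re]
        rw [h4]
        exact abs_re_le_norm _
      exact (h3.trans h2).trans (mul_le_mul_of_nonneg_right (le_max_left _ _) (Real.exp_pos _).le))
  refine h1.congr fun u => ?_
  rw [(tCVG κ b l hd.hg a ha u).2]

lemma mg_neg (hd : Fd D b l) (γ : ℝ) : mg D (-γ) = mg D γ := by
  unfold mg
  have := hd.even (γ * I)
  rw [← this]
  push_cast
  rw [neg_mul]

/-- the set of ordinates -/
def OD (D : Dat) : Set ℝ := {γ : ℝ | 0 < γ ∧ mg D γ ≠ 0}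

theorem hy_of [Countable κ] (hd : Fd D b l) {a : ℝ} (ha : 0 < a) (h : lowG b l a ≠ ⊥) : Hy D := by
  obtain ⟨B, -, hB⟩ := EReal.lt_iff_exists_real_btwn.1 (bot_lt_iff_ne_bot.2 h)
  refine hy_of_below hd Pool.Agent.H79.EXLTG.t_LTG Pool.Agent.H80.EX.t_LG2 ha (B := -B) ?_
  filter_upwards [ev_li hB] with u hu
  linarith

theorem low_ge [Countable κ] (hd : Fd D b l) (h : Hy D) {a : ℝ} (ha : 1 / 2 < a) :
    ((-WD D a : ℝ) : EReal) ≤ lowG b l a := by
  have ha0 : 0 < a := by linarith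
  refine li_ge fun ε hε => ?_
  have h1 := lower_bound (mg_nonneg D) (line_sum h) ha0 (hF_of hd h ha0) ε hε
  rw [pf_line h ha] at h1
  exact h1

theorem low_le_iff [Countable κ] (hd : Fd D b l) (h : Hy D) {a : ℝ} (ha : 1 / 2 < a) :
    lowG b l a ≤ ((-WD D a : ℝ) : EReal) ↔ Cn (OD D) a := by
  have ha0 : 0 < a := by linarith
  unfold lowG
  rw [li_le_iff]
  have hW : ∑' γ : ℝ, bb (mg D) a γ = WD D a := pf_line h ha
  constructor
  · intro h1 S n hR
    rw [← hW] at h1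
    exact rel_of_liminf (mg_nonneg D) (line_sum h) ha0 (hF_of hd h ha0) h1 S hR.1 n hR.2
  · intro h1 ε hε
    rw [← hW]
    exact liminf_of_rel (mg_nonneg D) (mg_neg hd) (line_sum h) ha0 (hF_of hd h ha0) Pool.Agent.H167.EXKR.t_KR
      (fun S hS n hn => h1 S n ⟨hS, hn⟩) ε hε

theorem upp_le [Countable κ] (hd : Fd D b l) (h : Hy D) {a : ℝ} (ha : 1 / 2 < a) :
    uppG b l a ≤ ((WD D a - 2 * mg D 0 / a ^ 2 : ℝ) : EReal) := by
  have ha0 : 0 < a := by linarith
  refine ls_le fun ε hε => ?_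
  have h1 := upper_bound (mg_nonneg D) (line_sum h) ha0 (hF_of hd h ha0) ε hε
  rw [pf_line h ha] at h1
  filter_upwards [h1] with u hu
  have e : bb (mg D) a 0 = mg D 0 / a ^ 2 := by
    unfold bb
    simp
  rw [e] at hu
  unfold WD
  linarith [show 2 * mg D 0 / a ^ 2 = 2 * (mg D 0 / a ^ 2) by ring]

theorem upp_ge [Countable κ] (hd : Fd D b l) (h : Hy D) {a : ℝ} (ha : 1 / 2 < a)
    (hLI : LinearIndependent ℚ (fun γ : OD D => (γ : ℝ))) :
    ((WD D a - 2 * mg D 0 / a ^ 2 : ℝ) : EReal) ≤ uppG b l a := by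
  have ha0 : 0 < a := by linarith
  refine ls_ge fun ε hε => ?_
  have h1 := limsup_of_indep (mg_nonneg D) (mg_neg hd) (line_sum h) ha0 (hF_of hd h ha0) Pool.Agent.H167.EXKR.t_KR
    (fun S hS n hn => (li_iff (OD D)).1 hLI S n ⟨hS, hn⟩) ε hε
  rw [pf_line h ha] at h1
  refine h1.mono fun u hu => ?_
  have e : bb (mg D) a 0 = mg D 0 / a ^ 2 := by
    unfold bb
    simp
  rw [e] at hu
  unfold WD
  linarith [show 2 * mg D 0 / a ^ 2 = 2 * (mg D 0 / a ^ 2) by ring]

end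

end Pool.Agent.H293.EXN
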