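import Pool.Agent.H293.EXN.Gen

set_option autoImplicit false

/-!
# Project EX for number fields: almost periodic functions with coefficients of both signs
-/

namespace Pool.Agent.H293.EXN

open MeasureTheory Filter Topology Set Complex
open Pool.Agent.H293.EX
open scoped ComplexConjugate

section signed

variable {N : ℝ → ℝ} (hs : Summable (fun γ : ℝ => |N γ| * (2 / (1 + γ ^ 2)))) {a : ℝ} (ha : 0 < a)

/-- the sum over the frequencies -/
noncomputable def TT (N : ℝ → ℝ) (a u : ℝ) : ℝ := ∑' γ : ℝ, N γ * (cexp (I * γ * u) / ((a : ℂ) + I * γ) ^ 2).re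

/-- the amplitude without the frequency zero -/
noncomputable def AA (N : ℝ → ℝ) (a : ℝ) : ℝ := ∑' γ : ℝ, if γ = 0 then 0 else |N γ| / (a ^ 2 + γ ^ 2)

include ha in
lemma term_eq (γ u : ℝ) : N γ * (cexp (I * γ * u) / ((a : ℂ) + I * γ) ^ 2).re = bb N a γ * rr a γ u := by
  rw [coef_eq ha]
  unfold bb rr
  ring

lemma bb_abs (γ : ℝ) : |bb N a γ| = bb (fun γ => |N γ|) a γ := by
  unfold bb
  rw [abs_div, abs_of_nonneg (by positivity : 0 ≤ a ^ 2 + γ ^ 2)]

include hs ha in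
lemma abs_sum : Summable (bb (fun γ => |N γ|) a) := bb_sum (fun γ => abs_nonneg (N γ)) hs ha

include ha in
lemma rr_abs (γ u : ℝ) : |rr a γ u| ≤ 1 := abs_le.2 ⟨le_rr ha γ u, rr_le ha γ u⟩

include hs ha in
lemma bb_summable : Summable (bb N a) :=
  Summable.of_norm_bounded (abs_sum hs ha) fun γ => by rw [Real.norm_eq_abs, bb_abs]

include hs ha in
lemma tt_sum (u : ℝ) : Summable fun γ : ℝ => bb N a γ * rr a γ u := by
  refine Summable.of_norm_bounded (abs_sum hs ha) fun γ => ?_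
  rw [norm_mul, Real.norm_eq_abs, Real.norm_eq_abs, bb_abs]
  exact mul_le_of_le_one_right (bb_nonneg (fun γ => abs_nonneg (N γ)) a γ) (rr_abs ha γ u)

include ha in
lemma TT_eq (u : ℝ) : TT N a u = ∑' γ : ℝ, bb N a γ * rr a γ u :=
  tsum_congr fun γ => term_eq ha γ u

include hs ha in
lemma off_sum : Summable fun γ : ℝ => if γ = 0 then 0 else |N γ| / (a ^ 2 + γ ^ 2) := by
  refine Summable.of_nonneg_of_le (fun γ => ?_) (fun γ => ?_) (abs_sum hs ha)
  · split_ifs
    · exact le_rfl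
    · positivity
  · split_ifs
    · exact bb_nonneg (fun γ => abs_nonneg (N γ)) a γ
    · exact le_rfl

/-- the defect of one frequency -/
noncomputable def dd (N : ℝ → ℝ) (a u γ : ℝ) : ℝ :=
  (if γ = 0 then bb N a 0 else 0) + (if γ = 0 then 0 else |N γ| / (a ^ 2 + γ ^ 2)) - bb N a γ * rr a γ u

include ha in
lemma dd_nonneg' (u γ : ℝ) : 0 ≤ dd N a u γ := by
  unfold dd
  by_cases h : γ = 0
  · rw [if_pos h, if_pos h, h, rr_zero ha]
    simp
  · rw [if_neg h, if_neg h, zero_add]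
    have h1 : bb N a γ * rr a γ u ≤ |bb N a γ * rr a γ u| := le_abs_self _
    rw [abs_mul] at h1
    have h2 : |bb N a γ| * |rr a γ u| ≤ |bb N a γ| := mul_le_of_le_one_right (abs_nonneg _) (rr_abs ha γ u)
    rw [bb_abs] at h2
    unfold bb at h2
    rw [bb_abs] at h1
    unfold bb at h1 ⊢
    linarith

include ha in
lemma dd_le' (u γ : ℝ) : dd N a u γ ≤ 2 * bb (fun γ => |N γ|) a γ := by
  unfold dd
  have h0 := bb_nonneg (fun γ => abs_nonneg (N γ)) a γ
  by_cases h : γ = 0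
  · rw [if_pos h, if_pos h]
    rw [h] at h0 ⊢
    rw [rr_zero ha]
    simp only [add_zero, mul_one, sub_self]
    linarith
  · rw [if_neg h, if_neg h, zero_add]
    have h1 : -(bb N a γ * rr a γ u) ≤ |bb N a γ * rr a γ u| := neg_le_abs _
    rw [abs_mul] at h1
    have h2 : |bb N a γ| * |rr a γ u| ≤ |bb N a γ| := mul_le_of_le_one_right (abs_nonneg _) (rr_abs ha γ u)
    rw [bb_abs] at h1 h2
    have e : bb (fun γ => |N γ|) a γ = |N γ| / (a ^ 2 + γ ^ 2) := rfl
    rw [e] at h1 h2 ⊢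
    linarith

include hs ha in
lemma dd_tsum (u : ℝ) : Summable (dd N a u) ∧ ∑' γ : ℝ, dd N a u γ = bb N a 0 + AA N a - TT N a u := by
  have h1 : Summable fun γ : ℝ => if γ = 0 then bb N a 0 else 0 :=
    (hasSum_ite_eq (0 : ℝ) (bb N a 0)).summable
  have h2 := off_sum hs ha
  have h3 := tt_sum hs ha u
  refine ⟨(h1.add h2).sub h3, ?_⟩
  unfold dd
  rw [(h1.add h2).tsum_sub h3, h1.tsum_add h2, tsum_ite_eq, TT_eq ha]
  rfl

include hs ha in
/-- the upper bound -/
theorem TT_le (u : ℝ) : TT N a u ≤ bb N a 0 + AA N a := by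
  have h := (dd_tsum hs ha u).2
  have h1 : 0 ≤ ∑' γ : ℝ, dd N a u γ := tsum_nonneg fun γ => dd_nonneg' ha u γ
  linarith

lemma bb_neg' (γ : ℝ) : bb (fun γ => -N γ) a γ = -bb N a γ := by
  unfold bb
  ring

lemma AA_neg : AA (fun γ => -N γ) a = AA N a := by
  unfold AA
  refine tsum_congr fun γ => ?_
  rw [abs_neg]

lemma TT_neg (u : ℝ) : TT (fun γ => -N γ) a u = -TT N a u := by
  unfold TT
  rw [← tsum_neg]
  refine tsum_congr fun γ => ?_
  ring

include hs in
lemma hs_neg : Summable (fun γ : ℝ => |(-N γ)| * (2 / (1 + γ ^ 2))) := by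
  simpa only [abs_neg] using hs

include hs ha in
/-- the lower bound -/
theorem le_TT (u : ℝ) : bb N a 0 - AA N a ≤ TT N a u := by
  have h := TT_le (N := fun γ => -N γ) (hs_neg hs) ha u
  rw [bb_neg', AA_neg, TT_neg] at h
  linarith

include hs ha in
/-- Kronecker's theorem -/
theorem TT_near (hNs : ∀ γ, N (-γ) = N γ) (hKR : S_KR) (h : ∀ S : Finset ℝ, (∀ γ ∈ S, 0 < γ ∧ N γ ≠ 0) → ∀ n : ℝ → ℤ,
    ∑ γ ∈ S, (n γ : ℝ) * γ = 0 → ∀ γ ∈ S, n γ = 0) (ε : ℝ) (hε : 0 < ε) :
    ∃ᶠ u : ℝ in atTop, bb N a 0 + AA N a - ε ≤ TT N a u := by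
  classical
  have hbs := abs_sum hs ha
  have hb0 : ∀ γ, 0 ≤ bb (fun γ => |N γ|) a γ := bb_nonneg (fun γ => abs_nonneg (N γ)) a
  rw [frequently_atTop]
  intro T
  obtain ⟨S0, hS0⟩ : ∃ S0 : Finset ℝ, ∑' γ : ↥((S0 : Set ℝ)ᶜ), bb (fun γ => |N γ|) a γ < ε / 8 := by
    have h1 := tendsto_tsum_compl_atTop_zero (bb (fun γ => |N γ|) a)
    exact (h1.eventually (gt_mem_nhds (show (0 : ℝ) < ε / 8 by linarith))).exists
  set B : ℝ := ∑' γ : ℝ, bb (fun γ => |N γ|) a γ with hB
  have hB0 : 0 ≤ B := tsum_nonneg hb0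
  set δ : ℝ := ε / (8 * (B + 1)) with hδd
  have hδ : 0 < δ := by positivity
  set S : Finset ℝ := ((S0 ∪ S0.image (fun x => -x)).filter fun γ => 0 < γ ∧ N γ ≠ 0) with hSd
  have hS : ∀ γ ∈ S, 0 < γ ∧ N γ ≠ 0 := fun γ hγ => (Finset.mem_filter.1 hγ).2
  set sg : ℝ → ℂ := fun γ => if 0 < N γ then 1 else -1 with hsg
  have hsgn : ∀ γ, ‖sg γ‖ = 1 := by
    intro γ
    simp only [hsg]
    split_ifs <;> simp
  obtain ⟨u, hu, hu2⟩ := hKR S (fun γ => sg γ * vv a γ)
    (fun γ _ => by rw [norm_mul, hsgn, vv_norm ha γ, one_mul])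
    (fun n hn => Finset.prod_eq_one fun γ hγ => by rw [h S hS n hn γ hγ, zpow_zero]) δ hδ T
  refine ⟨u, hu, ?_⟩
  have hclose : ∀ γ ∈ S, dd N a u γ ≤ bb (fun γ => |N γ|) a γ * δ := by
    intro γ hγ
    have hne : γ ≠ 0 := (hS γ hγ).1.ne'
    have h5 := one_sub_le (norm_e γ u) (w := sg γ * vv a γ) (by rw [norm_mul, hsgn, vv_norm ha γ, one_mul])
    have h6 := hu2 γ hγ
    have h8 : dd N a u γ = bb (fun γ => |N γ|) a γ * (1 - (cexp (I * γ * u) * conj (sg γ * vv a γ)).re) := by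
      unfold dd
      rw [if_neg hne, if_neg hne, zero_add]
      rcases lt_or_gt_of_ne (hS γ hγ).2 with hN | hN
      · have e1 : sg γ = -1 := by simp only [hsg]; rw [if_neg (not_lt.2 hN.le)]
        have e2 : (cexp (I * γ * u) * conj (sg γ * vv a γ)).re = -rr a γ u := by
          unfold rr
          rw [e1, neg_one_mul, map_neg, mul_neg, neg_re]
        rw [e2]
        simp only [bb]
        rw [abs_of_neg hN]
        ring
      · have e1 : sg γ = 1 := by simp only [hsg]; rw [if_pos hN]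
        have e2 : (cexp (I * γ * u) * conj (sg γ * vv a γ)).re = rr a γ u := by
          unfold rr
          rw [e1, one_mul]
        rw [e2]
        simp only [bb]
        rw [abs_of_pos hN]
        ring
    rw [h8]
    refine mul_le_mul_of_nonneg_left ?_ (hb0 γ)
    linarith
  have hsymm : ∀ γ, dd N a u (-γ) = dd N a u γ := by
    intro γ
    unfold dd
    have h7 : rr a (-γ) u = rr a γ u := by
      unfold rr
      rw [e_neg, vv_neg, ← map_mul, conj_re]
    have h8 : bb N a (-γ) = bb N a γ := by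
      unfold bb
      rw [hNs, neg_sq]
    rw [h7, h8, hNs, neg_sq]
    simp only [neg_eq_zero]
  have h4 : ∀ γ ∈ S0, dd N a u γ ≤ bb (fun γ => |N γ|) a γ * δ := by
    intro γ hγ
    by_cases hmγ : N γ = 0
    · have e := dd_le' (N := N) ha u γ
      have e2 : bb (fun γ => |N γ|) a γ = 0 := by simp only [bb]; rw [hmγ]; simp
      rw [e2] at e ⊢
      linarith
    · rcases lt_trichotomy γ 0 with hneg | hzero | hpos
      · have hmem : -γ ∈ S := by
          rw [hSd, Finset.mem_filter]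
          refine ⟨Finset.mem_union_right _ (Finset.mem_image.2 ⟨γ, hγ, rfl⟩), by linarith, ?_⟩
          rw [hNs]
          exact hmγ
        have h8 := hclose (-γ) hmem
        have e2 : bb (fun γ => |N γ|) a (-γ) = bb (fun γ => |N γ|) a γ := by
          simp only [bb]
          rw [hNs, neg_sq]
        rw [hsymm, e2] at h8
        exact h8
      · have e : dd N a u γ = 0 := by
          unfold dd
          rw [if_pos hzero, if_pos hzero, hzero, rr_zero ha]
          ring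
        rw [e]
        exact mul_nonneg (hb0 γ) hδ.le
      · refine hclose γ ?_
        rw [hSd, Finset.mem_filter]
        exact ⟨Finset.mem_union_left _ hγ, hpos, hmγ⟩
  obtain ⟨hd, hd2⟩ := dd_tsum hs ha u
  have h5 : ∑' γ : ℝ, dd N a u γ ≤ ε / 2 := by
    rw [← hd.sum_add_tsum_compl (s := S0)]
    have h6 : ∑ γ ∈ S0, dd N a u γ ≤ ε / 8 := by
      calc ∑ γ ∈ S0, dd N a u γ ≤ ∑ γ ∈ S0, bb (fun γ => |N γ|) a γ * δ := Finset.sum_le_sum h4
        _ = (∑ γ ∈ S0, bb (fun γ => |N γ|) a γ) * δ := by rw [Finset.sum_mul]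
        _ ≤ B * δ := mul_le_mul_of_nonneg_right (hbs.sum_le_tsum S0 fun γ _ => hb0 γ) hδ.le
        _ ≤ (B + 1) * δ := by nlinarith
        _ = ε / 8 := by
          rw [hδd]
          field_simp
    have h7 : ∑' γ : ↥((S0 : Set ℝ)ᶜ), dd N a u γ ≤ 2 * ∑' γ : ↥((S0 : Set ℝ)ᶜ), bb (fun γ => |N γ|) a γ := by
      rw [← tsum_mul_left]
      exact Summable.tsum_le_tsum (fun γ => dd_le' ha u γ) (hd.subtype _) ((hbs.subtype _).mul_left 2)
    linarith
  linarith

end signed

end Pool.Agent.H293.EXN
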