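import Pool.Agent.H293.EXN.Sgn

set_option autoImplicit false

/-!
# Project EX for Artin L-functions: almost periodic functions with complex coefficients
-/

namespace Pool.Agent.H293.EXN

open MeasureTheory Filter Topology Set Complex
open Pool.Agent.H293.EX
open scoped ComplexConjugate

section cplx

variable {B : ℝ → ℂ} (hs : Summable (fun γ : ℝ => ‖B γ‖ * (2 / (1 + γ ^ 2)))) {a : ℝ} (ha : 0 < a)

/-- the sum over the frequencies -/
noncomputable def TC (B : ℝ → ℂ) (a u : ℝ) : ℝ := ∑' γ : ℝ, (B γ * (cexp (I * γ * u) / ((a : ℂ) + I * γ) ^ 2)).re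

/-- the amplitude without the frequency zero -/
noncomputable def AC (B : ℝ → ℂ) (a : ℝ) : ℝ := ∑' γ : ℝ, if γ = 0 then 0 else ‖B γ‖ / (a ^ 2 + γ ^ 2)

/-- one term -/
noncomputable def tc (B : ℝ → ℂ) (a u γ : ℝ) : ℝ := (B γ * cexp (I * γ * u) * conj (vv a γ)).re / (a ^ 2 + γ ^ 2)

include ha in
lemma tc_eq (γ u : ℝ) : (B γ * (cexp (I * γ * u) / ((a : ℂ) + I * γ) ^ 2)).re = tc B a u γ := by
  rw [← mul_div_assoc, coef_eq ha]
  rfl

lemma wpos {a : ℝ} (ha : 0 < a) (γ : ℝ) : 0 < a ^ 2 + γ ^ 2 := by positivity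

include ha in
lemma tc_abs (u γ : ℝ) : |tc B a u γ| ≤ ‖B γ‖ / (a ^ 2 + γ ^ 2) := by
  unfold tc
  rw [abs_div, abs_of_pos (wpos ha γ)]
  refine div_le_div_of_nonneg_right ?_ (wpos ha γ).le
  refine (abs_re_le_norm _).trans ?_
  rw [norm_mul, norm_mul, RCLike.norm_conj, norm_e, vv_norm ha, mul_one, mul_one]

include hs ha in
lemma nb_sum : Summable fun γ : ℝ => ‖B γ‖ / (a ^ 2 + γ ^ 2) :=
  bb_sum (m := fun γ => ‖B γ‖) (fun γ => norm_nonneg (B γ)) hs ha

include hs ha in
lemma tc_sum (u : ℝ) : Summable (tc B a u) :=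
  Summable.of_norm_bounded (nb_sum hs ha) fun γ => by
    rw [Real.norm_eq_abs]
    exact tc_abs ha u γ

include ha in
lemma TC_eq (u : ℝ) : TC B a u = ∑' γ : ℝ, tc B a u γ := tsum_congr fun γ => tc_eq ha γ u

include hs ha in
lemma offc_sum : Summable fun γ : ℝ => if γ = 0 then 0 else ‖B γ‖ / (a ^ 2 + γ ^ 2) := by
  refine Summable.of_nonneg_of_le (fun γ => ?_) (fun γ => ?_) (nb_sum hs ha)
  · split_ifs
    · exact le_rfl
    · exact div_nonneg (norm_nonneg _) (wpos ha γ).le
  · split_ifs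
    · exact div_nonneg (norm_nonneg _) (wpos ha γ).le
    · exact le_rfl

/-- the defect of one frequency -/
noncomputable def dc (B : ℝ → ℂ) (a u γ : ℝ) : ℝ :=
  (if γ = 0 then (B 0).re / a ^ 2 else 0) + (if γ = 0 then 0 else ‖B γ‖ / (a ^ 2 + γ ^ 2)) - tc B a u γ

include ha in
lemma tc_zero (u : ℝ) : tc B a u 0 = (B 0).re / a ^ 2 := by
  unfold tc
  rw [vv_zero ha]
  simp

include ha in
lemma dc_nonneg (u γ : ℝ) : 0 ≤ dc B a u γ := by
  unfold dc
  by_cases h : γ = 0
  · rw [if_pos h, if_pos h, h, tc_zero ha]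
    simp
  · rw [if_neg h, if_neg h, zero_add]
    have h1 := (abs_le.1 (tc_abs (B := B) ha u γ)).2
    linarith

include ha in
lemma dc_le (u γ : ℝ) : dc B a u γ ≤ 2 * (‖B γ‖ / (a ^ 2 + γ ^ 2)) := by
  unfold dc
  have h0 : 0 ≤ ‖B γ‖ / (a ^ 2 + γ ^ 2) := div_nonneg (norm_nonneg _) (wpos ha γ).le
  by_cases h : γ = 0
  · rw [if_pos h, if_pos h]
    rw [h] at h0 ⊢
    rw [tc_zero ha]
    simp only [add_zero, sub_self]
    linarith
  · rw [if_neg h, if_neg h, zero_add]
    have h1 := (abs_le.1 (tc_abs (B := B) ha u γ)).1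
    linarith

include hs ha in
lemma dc_tsum (u : ℝ) : Summable (dc B a u) ∧ ∑' γ : ℝ, dc B a u γ = (B 0).re / a ^ 2 + AC B a - TC B a u := by
  have h1 : Summable fun γ : ℝ => if γ = 0 then (B 0).re / a ^ 2 else 0 :=
    (hasSum_ite_eq (0 : ℝ) ((B 0).re / a ^ 2)).summable
  have h2 := offc_sum hs ha
  have h3 := tc_sum hs ha u
  refine ⟨(h1.add h2).sub h3, ?_⟩
  unfold dc
  rw [(h1.add h2).tsum_sub h3, h1.tsum_add h2, tsum_ite_eq, TC_eq ha]
  rfl

include hs ha in
/-- the upper bound -/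
theorem TC_le (u : ℝ) : TC B a u ≤ (B 0).re / a ^ 2 + AC B a := by
  have h := (dc_tsum hs ha u).2
  have h1 : 0 ≤ ∑' γ : ℝ, dc B a u γ := tsum_nonneg fun γ => dc_nonneg ha u γ
  linarith

lemma AC_neg : AC (fun γ => -B γ) a = AC B a := by
  unfold AC
  refine tsum_congr fun γ => ?_
  rw [norm_neg]

lemma TC_neg (u : ℝ) : TC (fun γ => -B γ) a u = -TC B a u := by
  unfold TC
  rw [← tsum_neg]
  refine tsum_congr fun γ => ?_
  rw [neg_mul, neg_re]

include hs in
lemma hsc_neg : Summable (fun γ : ℝ => ‖(-B γ)‖ * (2 / (1 + γ ^ 2))) := by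
  simpa only [norm_neg] using hs

include hs ha in
/-- the lower bound -/
theorem le_TC (u : ℝ) : (B 0).re / a ^ 2 - AC B a ≤ TC B a u := by
  have h := TC_le (B := fun γ => -B γ) (hsc_neg hs) ha u
  rw [AC_neg, TC_neg, neg_re, neg_div] at h
  linarith

include hs ha in
/-- Kronecker's theorem -/
theorem TC_near (hBs : ∀ γ, B (-γ) = conj (B γ)) (hKR : S_KR) (h : ∀ S : Finset ℝ, (∀ γ ∈ S, 0 < γ ∧ B γ ≠ 0) →
    ∀ n : ℝ → ℤ, ∑ γ ∈ S, (n γ : ℝ) * γ = 0 → ∀ γ ∈ S, n γ = 0) (ε : ℝ) (hε : 0 < ε) :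
    ∃ᶠ u : ℝ in atTop, (B 0).re / a ^ 2 + AC B a - ε ≤ TC B a u := by
  classical
  have hbs := nb_sum hs ha
  set bn : ℝ → ℝ := fun γ => ‖B γ‖ / (a ^ 2 + γ ^ 2) with hbn
  have hb0 : ∀ γ, 0 ≤ bn γ := fun γ => div_nonneg (norm_nonneg _) (wpos ha γ).le
  rw [frequently_atTop]
  intro T
  obtain ⟨S0, hS0⟩ : ∃ S0 : Finset ℝ, ∑' γ : ↥((S0 : Set ℝ)ᶜ), bn γ < ε / 8 := by
    have h1 := tendsto_tsum_compl_atTop_zero bn
    exact (h1.eventually (gt_mem_nhds (show (0 : ℝ) < ε / 8 by linarith))).exists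
  set Bt : ℝ := ∑' γ : ℝ, bn γ with hB
  have hB0 : 0 ≤ Bt := tsum_nonneg hb0
  set δ : ℝ := ε / (8 * (Bt + 1)) with hδd
  have hδ : 0 < δ := by positivity
  set S : Finset ℝ := ((S0 ∪ S0.image (fun x => -x)).filter fun γ => 0 < γ ∧ B γ ≠ 0) with hSd
  have hS : ∀ γ ∈ S, 0 < γ ∧ B γ ≠ 0 := fun γ hγ => (Finset.mem_filter.1 hγ).2
  set sg : ℝ → ℂ := fun γ => if B γ = 0 then 1 else conj (B γ) / ‖B γ‖ with hsg
  have hsgn : ∀ γ, ‖sg γ‖ = 1 := by
    intro γ
    simp only [hsg]
    split_ifs with h0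
    · simp
    · rw [norm_div, RCLike.norm_conj, Complex.norm_real, norm_norm, div_self (norm_ne_zero_iff.2 h0)]
  obtain ⟨u, hu, hu2⟩ := hKR S (fun γ => sg γ * vv a γ)
    (fun γ _ => by rw [norm_mul, hsgn, vv_norm ha γ, one_mul])
    (fun n hn => Finset.prod_eq_one fun γ hγ => by rw [h S hS n hn γ hγ, zpow_zero]) δ hδ T
  refine ⟨u, hu, ?_⟩
  have hclose : ∀ γ ∈ S, dc B a u γ ≤ bn γ * δ := by
    intro γ hγ
    have hne : γ ≠ 0 := (hS γ hγ).1.ne'
    have hBne := (hS γ hγ).2
    have h5 := one_sub_le (norm_e γ u) (w := sg γ * vv a γ) (by rw [norm_mul, hsgn, vv_norm ha γ, one_mul])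
    have h6 := hu2 γ hγ
    have h8 : dc B a u γ = bn γ * (1 - (cexp (I * γ * u) * conj (sg γ * vv a γ)).re) := by
      unfold dc
      rw [if_neg hne, if_neg hne, zero_add]
      have e1 : sg γ = conj (B γ) / ‖B γ‖ := by simp only [hsg]; rw [if_neg hBne]
      have e2 : cexp (I * γ * u) * conj (sg γ * vv a γ) = (B γ * cexp (I * γ * u) * conj (vv a γ)) / (‖B γ‖ : ℝ) := by
        rw [e1, map_mul, map_div₀, Complex.conj_conj, conj_ofReal]
        ring
      rw [e2, div_ofReal_re]
      unfold tc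
      simp only [hbn]
      have hn0 : ‖B γ‖ ≠ 0 := norm_ne_zero_iff.2 hBne
      field_simp
    rw [h8]
    refine mul_le_mul_of_nonneg_left ?_ (hb0 γ)
    linarith
  have hsymm : ∀ γ, dc B a u (-γ) = dc B a u γ := by
    intro γ
    have h7 : tc B a u (-γ) = tc B a u γ := by
      unfold tc
      rw [hBs, e_neg, vv_neg, ← map_mul, ← map_mul, conj_re, neg_sq]
    unfold dc
    rw [h7, hBs, RCLike.norm_conj, neg_sq]
    simp only [neg_eq_zero]
  have h4 : ∀ γ ∈ S0, dc B a u γ ≤ bn γ * δ := by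
    intro γ hγ
    by_cases hmγ : B γ = 0
    · have e := dc_le (B := B) ha u γ
      have e2 : bn γ = 0 := by simp only [hbn]; rw [hmγ]; simp
      have e3 : ‖B γ‖ / (a ^ 2 + γ ^ 2) = 0 := e2
      rw [e3] at e
      rw [e2]
      linarith
    · rcases lt_trichotomy γ 0 with hneg | hzero | hpos
      · have hmem : -γ ∈ S := by
          rw [hSd, Finset.mem_filter]
          refine ⟨Finset.mem_union_right _ (Finset.mem_image.2 ⟨γ, hγ, rfl⟩), by linarith, ?_⟩
          rw [hBs]
          exact (map_ne_zero _).2 hmγ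
        have h8 := hclose (-γ) hmem
        have e2 : bn (-γ) = bn γ := by
          simp only [hbn]
          rw [hBs, RCLike.norm_conj, neg_sq]
        rw [hsymm, e2] at h8
        exact h8
      · have e : dc B a u γ = 0 := by
          unfold dc
          rw [if_pos hzero, if_pos hzero, hzero, tc_zero ha]
          ring
        rw [e]
        exact mul_nonneg (hb0 γ) hδ.le
      · refine hclose γ ?_
        rw [hSd, Finset.mem_filter]
        exact ⟨Finset.mem_union_left _ hγ, hpos, hmγ⟩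
  obtain ⟨hd, hd2⟩ := dc_tsum hs ha u
  have h5 : ∑' γ : ℝ, dc B a u γ ≤ ε / 2 := by
    rw [← hd.sum_add_tsum_compl (s := S0)]
    have h6 : ∑ γ ∈ S0, dc B a u γ ≤ ε / 8 := by
      calc ∑ γ ∈ S0, dc B a u γ ≤ ∑ γ ∈ S0, bn γ * δ := Finset.sum_le_sum h4
        _ = (∑ γ ∈ S0, bn γ) * δ := by rw [Finset.sum_mul]
        _ ≤ Bt * δ := mul_le_mul_of_nonneg_right (hbs.sum_le_tsum S0 fun γ _ => hb0 γ) hδ.le
        _ ≤ (Bt + 1) * δ := by nlinarith
        _ = ε / 8 := by
          rw [hδd]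
          field_simp
    have h7 : ∑' γ : ↥((S0 : Set ℝ)ᶜ), dc B a u γ ≤ 2 * ∑' γ : ↥((S0 : Set ℝ)ᶜ), bn γ := by
      rw [← tsum_mul_left]
      exact Summable.tsum_le_tsum (fun γ => dc_le ha u γ) (hd.subtype _) ((hbs.subtype _).mul_left 2)
    linarith
  linarith

end cplx

/-! ### One combinatorial lemma -/

section comb
variable {J : Type} [DecidableEq J]

/-- unimodular functions which are compatible with the involution -/
def Uni (σ : J → J) (c : J → ℂ) : Prop := (∀ j, ‖c j‖ = 1) ∧ ∀ j, c (σ j) = conj (c j)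

theorem comb (s : Finset J) (σ : J → J) (hσ : ∀ j, σ (σ j) = j) (hσs : ∀ j ∈ s, σ j ∈ s) (x : J → ℝ)
    (h : ∀ c : J → ℂ, Uni σ c → ‖∑ j ∈ s, c j * x j‖ = |∑ j ∈ s, x j|) :
    ∀ i ∈ s, ∀ j ∈ s, x i ≠ 0 → x j ≠ 0 → i = j := by
  classical
  set S : ℝ := ∑ j ∈ s, x j with hS
  -- the sum over one orbit
  set p : J → ℝ := fun i => ∑ j ∈ s, if j = i ∨ j = σ i then x j else 0 with hp
  have horb : ∀ i j, (σ j = i ∨ σ j = σ i) ↔ (j = i ∨ j = σ i) := by
    intro i j
    constructor
    · rintro (h1 | h1)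
      · right
        rw [← h1, hσ]
      · left
        rw [← hσ j, h1, hσ]
    · rintro (h1 | h1)
      · right
        rw [h1]
      · left
        rw [h1, hσ]
  -- one orbit with the sign changed
  have h1 : ∀ i, p i * (S - p i) = 0 := by
    intro i
    have h2 := h (fun j => if j = i ∨ j = σ i then -1 else 1) ⟨fun j => by beta_reduce; split_ifs <;> simp, fun j => by
      simp only [horb i j]
      split_ifs <;> simp⟩
    have h3 : ∑ j ∈ s, (if j = i ∨ j = σ i then (-1 : ℂ) else 1) * x j = ((S - 2 * p i : ℝ) : ℂ) := by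
      rw [hS, hp]
      push_cast
      rw [Finset.mul_sum, ← Finset.sum_sub_distrib]
      refine Finset.sum_congr rfl fun j _ => ?_
      split_ifs
      · ring
      · push_cast
        ring
    rw [h3, Complex.norm_real, Real.norm_eq_abs] at h2
    have h4 := sq_eq_sq_iff_abs_eq_abs _ _ |>.2 h2
    linarith [h4, mul_comm (p i) (S - p i), show (S - 2 * p i) ^ 2 - S ^ 2 = -4 * (p i * (S - p i)) by ring]
  -- an orbit with two elements
  have h2 : ∀ i ∈ s, σ i ≠ i → x i * x (σ i) = 0 := by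
    intro i hi hne
    have hc : ∀ j, (if σ j = i then I else if σ j = σ i then -I else 1 : ℂ) =
        conj (if j = i then I else if j = σ i then -I else 1 : ℂ) := by
      intro j
      by_cases e1 : j = i
      · subst e1
        rw [if_neg hne, if_pos rfl, if_pos rfl, conj_I]
      · by_cases e2 : j = σ i
        · subst e2
          rw [hσ, if_pos rfl, if_neg e1, if_pos rfl, map_neg, conj_I, neg_neg]
        · rw [if_neg (fun e => e2 (by rw [← e, hσ])), if_neg (fun e => e1 (by rw [← hσ j, e, hσ])), if_neg e1,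
            if_neg e2, map_one]
    have h3 := h (fun j => if j = i then I else if j = σ i then -I else 1) ⟨fun j => by
      beta_reduce
      split_ifs <;> simp, hc⟩
    have hpi : p i = x i + x (σ i) := by
      simp only [hp]
      have e : ∀ j ∈ s, (if j = i ∨ j = σ i then x j else 0) = (if j = i then x j else 0) + (if j = σ i then x j else 0) := by
        intro j _
        by_cases e1 : j = i
        · rw [if_pos (Or.inl e1), if_pos e1, if_neg (by rw [e1]; exact hne.symm), add_zero]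
        · by_cases e2 : j = σ i
          · rw [if_pos (Or.inr e2), if_neg e1, if_pos e2, zero_add]
          · rw [if_neg (by tauto), if_neg e1, if_neg e2, add_zero]
      rw [Finset.sum_congr rfl e, Finset.sum_add_distrib, Finset.sum_ite_eq' s i x, Finset.sum_ite_eq' s (σ i) x,
        if_pos hi, if_pos (hσs i hi)]
    have h4 : ∑ j ∈ s, (if j = i then I else if j = σ i then -I else 1 : ℂ) * x j =
        ((S - p i : ℝ) : ℂ) + ((x i - x (σ i) : ℝ) : ℂ) * I := by
      have e : ∀ j ∈ s, (if j = i then I else if j = σ i then -I else 1 : ℂ) * x j =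
          (x j : ℂ) + ((if j = i then (I - 1) * x j else 0) + (if j = σ i then (-I - 1) * x j else 0)) := by
        intro j _
        by_cases e1 : j = i
        · rw [if_pos e1, if_pos e1, if_neg (by rw [e1]; exact hne.symm)]
          ring
        · by_cases e2 : j = σ i
          · rw [if_neg e1, if_pos e2, if_neg e1, if_pos e2]
            ring
          · rw [if_neg e1, if_neg e2, if_neg e1, if_neg e2]
            ring
      rw [Finset.sum_congr rfl e, Finset.sum_add_distrib, Finset.sum_add_distrib,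
        Finset.sum_ite_eq' s i fun j => (I - 1) * (x j : ℂ), Finset.sum_ite_eq' s (σ i) fun j => (-I - 1) * (x j : ℂ),
        if_pos hi, if_pos (hσs i hi), hpi, hS]
      push_cast
      ring
    rw [h4] at h3
    have h5 : ‖((S - p i : ℝ) : ℂ) + ((x i - x (σ i) : ℝ) : ℂ) * I‖ ^ 2 = S ^ 2 := by
      rw [h3, sq_abs]
    rw [← normSq_eq_norm_sq, normSq_add_mul_I] at h5
    have h6 := h1 i
    rw [hpi] at h5 h6
    nlinarith [h5, h6]
  intro i hi j hj hxi hxj
  by_contra hij
  have hpn : ∀ k ∈ s, x k ≠ 0 → p k = S ∧ S ≠ 0 := by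
    intro k hk hxk
    have hpk : p k ≠ 0 := by
      by_cases e : σ k = k
      · have e2 : p k = x k := by
          simp only [hp, e, or_self]
          rw [Finset.sum_ite_eq' s k x, if_pos hk]
        rw [e2]
        exact hxk
      · have e1 := h2 k hk e
        have e3 : x (σ k) = 0 := (mul_eq_zero.1 e1).resolve_left hxk
        have e2 : p k = x k := by
          simp only [hp]
          rw [Finset.sum_eq_single k]
          · rw [if_pos (Or.inl rfl)]
          · intro l _ hl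
            by_cases e4 : l = σ k
            · rw [if_pos (Or.inr e4), e4, e3]
            · rw [if_neg (by tauto)]
          · exact fun hn => absurd hk hn
        rw [e2]
        exact hxk
    have e5 := (mul_eq_zero.1 (h1 k)).resolve_left hpk
    have e6 : p k = S := by linarith
    exact ⟨e6, by rw [← e6]; exact hpk⟩
  obtain ⟨hpi, hS0⟩ := hpn i hi hxi
  obtain ⟨hpj, -⟩ := hpn j hj hxj
  by_cases hji : j = σ i
  · have e1 : σ i ≠ i := by
      rw [← hji]
      exact fun e => hij e.symm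
    have e2 := h2 i hi e1
    rw [← hji] at e2
    rcases mul_eq_zero.1 e2 with e | e
    · exact hxi e
    · exact hxj e
  · -- two orbits
    have h3 := h (fun k => if (k = i ∨ k = σ i) ∨ (k = j ∨ k = σ j) then -1 else 1) ⟨fun k => by
      beta_reduce
      split_ifs <;> simp, fun k => by
      simp only [horb i k, horb j k]
      split_ifs <;> simp⟩
    have hdis : ∀ k, ¬ ((k = i ∨ k = σ i) ∧ (k = j ∨ k = σ j)) := by
      rintro k ⟨e1 | e1, e2 | e2⟩
      · exact hij (by rw [← e1, e2])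
      · exact hji (by rw [← hσ j, ← e2, e1])
      · exact hji (by rw [← e2, e1])
      · exact hij (by rw [← hσ i, ← e1, e2, hσ])
    have h4 : ∑ k ∈ s, (if (k = i ∨ k = σ i) ∨ (k = j ∨ k = σ j) then (-1 : ℂ) else 1) * x k =
        ((S - 2 * p i - 2 * p j : ℝ) : ℂ) := by
      rw [hS, hp]
      push_cast
      rw [Finset.mul_sum, Finset.mul_sum, ← Finset.sum_sub_distrib, ← Finset.sum_sub_distrib]
      refine Finset.sum_congr rfl fun k _ => ?_
      by_cases e1 : k = i ∨ k = σ i
      · have e2 : ¬ (k = j ∨ k = σ j) := fun e => hdis k ⟨e1, e⟩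
        rw [if_pos (Or.inl e1), if_pos e1, if_neg e2]
        push_cast
        ring
      · by_cases e2 : k = j ∨ k = σ j
        · rw [if_pos (Or.inr e2), if_neg e1, if_pos e2]
          push_cast
          ring
        · rw [if_neg (by tauto), if_neg e1, if_neg e2]
          push_cast
          ring
    rw [h4, Complex.norm_real, Real.norm_eq_abs, hpi, hpj] at h3
    have h5 := sq_eq_sq_iff_abs_eq_abs _ _ |>.2 h3
    have h6 : S ^ 2 = 0 := by nlinarith
    exact hS0 (by simpa using h6)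

end comb

end Pool.Agent.H293.EXN
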