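import Pool.Agent.H293.EX.Stm

set_option autoImplicit false

/-! # Project EX (helper293), Artin L-functions: complex forms of `S_AS` and `S_CVG` -/

namespace Pool.Agent.H293.EX

open MeasureTheory Filter Topology Set Complex

/-- ASC.  As `S_AS` (proof: `Pool/Agent/H164/EX/AS.lean`), complex valued, the coefficients of both signs, and
`cexp (I * γ * v)` in place of `Real.cos (γ * v)`. -/
def S_ASC : Prop := ∀ (a : ℝ) (m : ℝ → ℝ) (P : ℝ → ℂ) (C : ℝ), 0 < a →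
  Summable (fun γ : ℝ => |m γ| * (2 / (1 + γ ^ 2))) → Continuous P → (∀ v, v ≤ 0 → ‖P v‖ ≤ C) →
  (∀ v, 0 ≤ v → ‖P v + ∑' γ : ℝ, ((m γ * (2 / (1 + γ ^ 2)) : ℝ) : ℂ) * cexp (I * γ * v)‖ ≤ C * Real.exp (-(v / 4))) →
  Tendsto (fun u : ℝ => (-(1 / 2) * P u + ∫ w in Ioi (0 : ℝ), (kap a w : ℂ) * P (u - w)) +
    ∑' γ : ℝ, (m γ : ℂ) * (cexp (I * γ * u) / ((a : ℂ) + I * γ) ^ 2)) atTop (𝓝 0)

/-- CVC.  As `S_CVG` (proof: `Pool/Agent/H115/EX_CVG.lean`), for complex coefficients and without the main term. -/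
def S_CVC : Prop := ∀ (κ : Type) [Countable κ] (b : κ → ℂ) (l : κ → ℝ), (∀ k, 0 ≤ l k) →
  (∀ x : ℝ, 1 / 2 < x → Summable (fun k => ‖b k‖ * Real.exp (-(x * l k)))) → ∀ a : ℝ, 0 < a → ∀ u : ℝ,
  IntegrableOn (fun w : ℝ => (kap a w : ℂ) * ∑' k, b k * ((Real.exp (-|u - w - l k|) : ℝ) : ℂ)) (Ioi 0) ∧
  ∑' k, b k * ((max (u - l k) 0 * Real.exp (-(a * (u - l k))) : ℝ) : ℂ) =
    -(1 / 2) * (∑' k, b k * ((Real.exp (-|u - l k|) : ℝ) : ℂ)) +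
      ∫ w in Ioi (0 : ℝ), (kap a w : ℂ) * ∑' k, b k * ((Real.exp (-|u - w - l k|) : ℝ) : ℂ)

end Pool.Agent.H293.EX
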